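import Pool.Agent.Helper68.FOps2

open Filter Topology Set Metric Asymptotics
open scoped Real

namespace Pool.Agent.Helper68.FrechetLift

lemma norm_cos_le (w : ℂ) : ‖Complex.cos w‖ ≤ Real.cosh w.im := by
  rw [Complex.cos, norm_div, Complex.norm_two, Real.cosh_eq]
  have h1 : ‖Complex.exp (w * Complex.I)‖ = Real.exp (-w.im) := by
    rw [Complex.norm_exp]; simp
  have h2 : ‖Complex.exp (-w * Complex.I)‖ = Real.exp (w.im) := by
    rw [Complex.norm_exp]; simp
  have h3 := norm_add_le (Complex.exp (w * Complex.I)) (Complex.exp (-w * Complex.I))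
  rw [h1, h2] at h3
  linarith

lemma sinh_le_norm_cos (w : ℂ) : Real.sinh |w.im| ≤ ‖Complex.cos w‖ := by
  rw [Complex.cos, norm_div, Complex.norm_two]
  have h1 : ‖Complex.exp (w * Complex.I)‖ = Real.exp (-w.im) := by
    rw [Complex.norm_exp]; simp
  have h2 : ‖Complex.exp (-w * Complex.I)‖ = Real.exp (w.im) := by
    rw [Complex.norm_exp]; simp
  have h3 : ‖Complex.exp (w * Complex.I)‖ - ‖Complex.exp (-w * Complex.I)‖ ≤
      ‖Complex.exp (w * Complex.I) + Complex.exp (-w * Complex.I)‖ := by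
    have := norm_sub_norm_le (Complex.exp (w * Complex.I)) (-Complex.exp (-w * Complex.I))
    simpa using this
  have h4 : ‖Complex.exp (-w * Complex.I)‖ - ‖Complex.exp (w * Complex.I)‖ ≤
      ‖Complex.exp (w * Complex.I) + Complex.exp (-w * Complex.I)‖ := by
    have := norm_sub_norm_le (Complex.exp (-w * Complex.I)) (-Complex.exp (w * Complex.I))
    rw [norm_neg, sub_neg_eq_add, add_comm (Complex.exp (-w * Complex.I))] at this
    exact this
  rw [h1, h2] at h3 h4
  rw [Real.sinh_eq]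
  rcases abs_cases w.im with ⟨h, _⟩ | ⟨h, _⟩
  · rw [h]; linarith
  · rw [h, neg_neg]; linarith

lemma sinh_bound : (9 / 4 : ℝ) ≤ Real.sinh (8 / 5) := by
  rw [Real.sinh_eq]
  have h1 : (4.9 : ℝ) ≤ Real.exp (8 / 5) := by
    have h := Real.exp_one_gt_d9
    have h0 : Real.exp (8 / 5) = (Real.exp (1 / 5)) ^ 8 := by
      rw [← Real.exp_nat_mul]; norm_num
    have h2 : (1.2214 : ℝ) ≤ Real.exp (1 / 5) := by
      have := Real.sum_le_exp_of_nonneg (x := 1 / 5) (by norm_num) 5
      norm_num [Finset.sum_range_succ, Nat.factorial] at this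
      linarith
    rw [h0]
    calc (4.9 : ℝ) ≤ (1.2214 : ℝ) ^ 8 := by norm_num
      _ ≤ _ := by gcongr
  have h2 : Real.exp (-(8 / 5)) ≤ 1 / 4.9 := by
    rw [Real.exp_neg, ← one_div]
    gcongr
  norm_num at h2 ⊢
  linarith

lemma cos_re (w : ℂ) : (Complex.cos w).re = Real.cos w.re * Real.cosh w.im := by
  rw [Complex.cos_eq w]
  simp [Complex.cos_ofReal_re, Complex.cosh_ofReal_re, Complex.sin_ofReal_re,
    Complex.sinh_ofReal_re, Complex.cos_ofReal_im, Complex.cosh_ofReal_im]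

/-- Separation. -/
lemma cos_sep {j : ℕ} {w : ℂ} (hw : w ∈ OO j) :
    9 / 4 ≤ ‖Complex.cos w‖ ∨ 1 / 2 ≤ (-1) ^ (j + 1) * (Complex.cos w).re := by
  rcases le_or_gt (8 / 5) |w.im| with h | h
  · left
    exact sinh_bound.trans ((Real.sinh_le_sinh.2 h).trans (sinh_le_norm_cos w))
  · right
    obtain ⟨h1, h2⟩ := hw
    have hR := RR_ge j
    unfold RR at hR
    set R : ℝ := π * (j + 1) with hRdef
    have hπ : (3.14 : ℝ) < π := Real.pi_gt_d2
    have hR2 : 3.14 < R := by
      have hj : (0 : ℝ) ≤ j := Nat.cast_nonneg j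
      rw [hRdef]; nlinarith
    have hx1 : |w.re| ≤ ‖w‖ := Complex.abs_re_le_norm w
    have hsq : ‖w‖ ^ 2 = |w.re| ^ 2 + |w.im| ^ 2 := by
      rw [sq_abs, sq_abs, Complex.sq_norm, Complex.normSq_apply]; ring
    have him0 : 0 ≤ |w.im| := abs_nonneg _
    have hre0 : 0 ≤ |w.re| := abs_nonneg _
    have hN : 3.04 ≤ ‖w‖ := by norm_num at hR2 h1 ⊢; linarith
    have hx2 : ‖w‖ - 0.8422 ≤ |w.re| := by
      by_contra hcon
      push Not at hcon
      have h5 : |w.im| ^ 2 ≤ 2.56 := by nlinarith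
      have h6 : |w.re| ^ 2 < (‖w‖ - 0.8422) ^ 2 := by
        apply pow_lt_pow_left₀ hcon hre0 (by norm_num)
      nlinarith
    have hd : |(|w.re| - R)| ≤ π / 3 := by
      rw [abs_le]
      constructor
      · norm_num at hx2 ⊢; linarith
      · linarith
    have hcos : 1 / 2 ≤ Real.cos (|w.re| - R) := by
      rw [← Real.cos_abs, ← Real.cos_pi_div_three]
      apply Real.cos_le_cos_of_nonneg_of_le_pi (abs_nonneg _) _ hd
      linarith
    have hc : Real.cos (|w.re| - R) = (-1) ^ (j + 1) * Real.cos w.re := by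
      have : |w.re| - R = |w.re| - ((j + 1 : ℕ) : ℝ) * π := by
        rw [hRdef]; push_cast; ring
      rw [this, Real.cos_sub_nat_mul_pi, Real.cos_abs]
    rw [cos_re, ← mul_assoc, ← hc]
    have h7 := Real.one_le_cosh w.im
    nlinarith

/-- half discs -/
def Wc (c : ℕ) : Set ℂ := {z | ‖z‖ < 2 ∧ (-1) ^ c * z.re < 1 / 4}

lemma isOpen_Wc (c : ℕ) : IsOpen (Wc c) :=
  (isOpen_lt continuous_norm continuous_const).inter
    (isOpen_lt (continuous_const.mul Complex.continuous_re) continuous_const)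

lemma neg_one_pow_cls {c j : ℕ} (h : ¬ cls c j) : ((-1 : ℝ)) ^ (j + 1) = (-1) ^ c := by
  unfold cls at h
  rw [Nat.not_even_iff_odd] at h
  rcases Nat.even_or_odd c with hc | hc
  · have hj : Odd j := by
      rcases Nat.even_or_odd j with hj | hj
      · exact absurd (hj.add hc) (Nat.not_even_iff_odd.2 h)
      · exact hj
    rw [hc.neg_one_pow, (hj.add_one).neg_one_pow]
  · have hj : Even j := by
      rcases Nat.even_or_odd j with hj | hj
      · exact hj
      · exact absurd (hj.add_odd hc) (Nat.not_even_iff_odd.2 h)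
    rw [hc.neg_one_pow, (hj.add_one).neg_one_pow]

lemma quarter_le {c j : ℕ} {z w : ℂ} (hz : z ∈ Wc c) (hj : ¬ cls c j) (hw : w ∈ OO j) :
    1 / 4 ≤ ‖Complex.cos w - z‖ := by
  obtain ⟨h1, h2⟩ := hz
  rcases cos_sep hw with h | h
  · have := norm_sub_norm_le (Complex.cos w) z
    linarith
  · rw [neg_one_pow_cls hj] at h
    have h3 : |(Complex.cos w - z).re| ≤ ‖Complex.cos w - z‖ := Complex.abs_re_le_norm _
    have h4 : (-1) ^ c * (Complex.cos w - z).re ≤ |(Complex.cos w - z).re| := by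
      calc (-1) ^ c * (Complex.cos w - z).re ≤ |(-1) ^ c * (Complex.cos w - z).re| := le_abs_self _
        _ = |(Complex.cos w - z).re| := by rw [abs_mul, abs_neg_one_pow, one_mul]
    have h5 : (-1) ^ c * (Complex.cos w - z).re = (-1) ^ c * (Complex.cos w).re - (-1) ^ c * z.re := by
      rw [Complex.sub_re]; ring
    linarith

lemma cos_ne {c j : ℕ} {z w : ℂ} (hz : z ∈ Wc c) (hj : ¬ cls c j) (hw : w ∈ OO j) :
    Complex.cos w - z ≠ 0 := by
  intro h
  have := quarter_le hz hj hw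
  rw [h] at this
  norm_num at this

end Pool.Agent.Helper68.FrechetLift
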