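import Pool.Agent.Helper68.FCos

open Filter Topology Set Metric Asymptotics
open scoped Real

namespace Pool.Agent.Helper68.FrechetLift

open Classical in
/-- difference of restrictions -/
noncomputable def Dfun (f : ℕ → ℂ → ℂ) (j : ℕ) (w : ℂ) : ℂ :=
  if w ∈ OO j then f (j + 1) w - f j w else 0

lemma Dfun_bound (n : ℕ) (f : HS VV) (j : ℕ) (w : ℂ) :
    wt n j * ‖Dfun (ev f) j w‖ ≤ 2 * ‖crd VV n f‖ := by
  unfold Dfun
  split_ifs with hw
  · have h1 := norm_ev_le n f j w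
    have h2 := norm_ev_le n f (j + 1) w
    have h3 : wt n j ≤ wt n (j + 1) := wt_mono le_rfl (Nat.le_succ j)
    have h4 := wt_pos n j
    have h5 : ‖ev f (j + 1) w - ev f j w‖ ≤ ‖ev f (j + 1) w‖ + ‖ev f j w‖ := norm_sub_le _ _
    have h6 : wt n j * ‖ev f (j + 1) w‖ ≤ ‖crd VV n f‖ :=
      (mul_le_mul_of_nonneg_right h3 (norm_nonneg _)).trans h2
    calc wt n j * ‖ev f (j + 1) w - ev f j w‖ ≤ wt n j * (‖ev f (j + 1) w‖ + ‖ev f j w‖) := by
          gcongr
      _ = wt n j * ‖ev f (j + 1) w‖ + wt n j * ‖ev f j w‖ := by ring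
      _ ≤ 2 * ‖crd VV n f‖ := by linarith
  · simp

lemma Dfun_adm (f : HS VV) : Adm OO (Dfun (ev f)) := by
  refine ⟨fun j w hw => ?_, fun j => ?_, fun n => ⟨_, fun j w _ => Dfun_bound n f j w⟩⟩
  · unfold Dfun; rw [if_neg hw]
  · have : DifferentiableOn ℂ (fun w => ev f (j + 1) w - ev f j w) (OO j) :=
      ((ev_diff f (j + 1)).mono (OO_subset_VV_succ j)).sub ((ev_diff f j).mono (OO_subset_VV j))
    refine this.congr fun w hw => ?_
    unfold Dfun; rw [if_pos hw]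

noncomputable def Dlin : HS VV →ₗ[ℂ] HS OO where
  toFun f := mkHS (Dfun (ev f)) (Dfun_adm f)
  map_add' f g := by
    apply HS_ext
    intro j w
    rw [ev_add, ev_mkHS, ev_mkHS, ev_mkHS]
    unfold Dfun
    split_ifs
    · rw [ev_add, ev_add]; ring
    · simp
  map_smul' a f := by
    apply HS_ext
    intro j w
    rw [RingHom.id_apply, ev_smul, ev_mkHS, ev_mkHS]
    unfold Dfun
    split_ifs
    · rw [ev_smul, ev_smul]; ring
    · simp

lemma squeeze_bound' {U U' : ℕ → Set ℂ} (T : HS U → HS U') (n m : ℕ) (C : ℝ)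
    (h : ∀ g, ‖crd U' n (T g)‖ ≤ C * ‖crd U m g‖) :
    Tendsto (fun v => ‖crd U' n (T v)‖) (𝓝 0) (𝓝 0) :=
  squeeze_zero (fun _ => norm_nonneg _) h (tendsto_norm_crd_zero m C)

noncomputable def DD : HS VV →L[ℂ] HS OO :=
  mkCLM Dlin (fun n => squeeze_bound' Dlin n n 2 (fun f => by
    refine norm_crd_le n _ (by positivity) (fun j w => ?_)
    change wt n j * ‖ev (mkHS (Dfun (ev f)) (Dfun_adm f)) j w‖ ≤ _
    rw [ev_mkHS]
    exact Dfun_bound n f j w))

lemma ev_DD (f : HS VV) (j : ℕ) (w : ℂ) : ev (DD f) j w = Dfun (ev f) j w :=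
  ev_mkHS _ (Dfun_adm f) j w

/-! ### multiplication by the cosine -/

noncomputable def Cfun (h : ℕ → ℂ → ℂ) (j : ℕ) (w : ℂ) : ℂ := Complex.cos w * h j w

lemma norm_cos_OO {j : ℕ} {w : ℂ} (hw : w ∈ OO j) :
    ‖Complex.cos w‖ ≤ Real.exp 4 * wt 1 j := by
  have h1 := norm_cos_le w
  have h2 : Real.cosh w.im ≤ Real.exp ‖w‖ := by
    rw [← Real.cosh_abs, Real.cosh_eq]
    have h3 : |w.im| ≤ ‖w‖ := Complex.abs_im_le_norm w
    have h4 : Real.exp |w.im| ≤ Real.exp ‖w‖ := Real.exp_le_exp.2 h3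
    have h5 : Real.exp (-|w.im|) ≤ Real.exp |w.im| :=
      Real.exp_le_exp.2 (by have := abs_nonneg w.im; linarith)
    linarith
  have h3 : ‖w‖ ≤ 4 + (1 : ℝ) * 1000 ^ j := by
    have hw2 := hw.2
    have hπ : π < 3.15 := Real.pi_lt_d2
    have h6 : (4 * (j : ℝ)) ≤ 1000 ^ j := by
      have : 4 * j ≤ 1000 ^ j := by
        cases j with
        | zero => simp
        | succ k =>
          have hk : k < 1000 ^ k := Nat.lt_pow_self (by norm_num)
          rw [pow_succ]; omega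
      exact_mod_cast this
    have hj : (0 : ℝ) ≤ j := Nat.cast_nonneg j
    norm_num at hπ
    nlinarith
  have h4 : Real.exp ‖w‖ ≤ Real.exp 4 * wt 1 j := by
    unfold wt
    rw [← Real.exp_add]
    apply Real.exp_le_exp.2
    push_cast
    exact h3
  linarith

lemma Cfun_bound (n : ℕ) (h : HS OO) {j : ℕ} {w : ℂ} (hw : w ∈ OO j) :
    wt n j * ‖Cfun (ev h) j w‖ ≤ Real.exp 4 * ‖crd OO (n + 1) h‖ := by
  unfold Cfun
  rw [norm_mul]
  have h1 := norm_ev_le (n + 1) h j w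
  rw [wt_add] at h1
  have h2 := norm_cos_OO hw
  have h3 := wt_pos n j
  have h4 := wt_pos 1 j
  calc wt n j * (‖Complex.cos w‖ * ‖ev h j w‖) ≤
      wt n j * ((Real.exp 4 * wt 1 j) * ‖ev h j w‖) := by gcongr
    _ = Real.exp 4 * (wt n j * wt 1 j * ‖ev h j w‖) := by ring
    _ ≤ _ := by gcongr

lemma Cfun_adm (h : HS OO) : Adm OO (Cfun (ev h)) := by
  refine ⟨fun j w hw => ?_, fun j => ?_, fun n => ⟨_, fun j w hw => Cfun_bound n h hw⟩⟩
  · unfold Cfun; rw [ev_outside h hw, mul_zero]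
  · exact Complex.differentiable_cos.differentiableOn.mul (ev_diff h j)

noncomputable def Clin : HS OO →ₗ[ℂ] HS OO where
  toFun h := mkHS (Cfun (ev h)) (Cfun_adm h)
  map_add' f g := by
    apply HS_ext
    intro j w
    rw [ev_add, ev_mkHS, ev_mkHS, ev_mkHS]
    unfold Cfun
    rw [ev_add]; ring
  map_smul' a f := by
    apply HS_ext
    intro j w
    rw [RingHom.id_apply, ev_smul, ev_mkHS, ev_mkHS]
    unfold Cfun
    rw [ev_smul]; ring

noncomputable def CC : HS OO →L[ℂ] HS OO :=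
  mkCLM Clin (fun n => squeeze_bound' Clin n (n + 1) (Real.exp 4) (fun f => by
    refine norm_crd_le' n _ (by positivity) (fun j w hw => ?_)
    change wt n j * ‖ev (mkHS (Cfun (ev f)) (Cfun_adm f)) j w‖ ≤ _
    rw [ev_mkHS]
    exact Cfun_bound n f hw))

lemma ev_CC (h : HS OO) (j : ℕ) (w : ℂ) : ev (CC h) j w = Complex.cos w * ev h j w :=
  ev_mkHS _ (Cfun_adm h) j w

/-- The family of operators. -/
noncomputable def uu (z : ℂ) : (HS VV × HS OO) →L[ℂ] HS OO :=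
  DD.comp (ContinuousLinearMap.fst ℂ _ _) - CC.comp (ContinuousLinearMap.snd ℂ _ _)
    + z • ContinuousLinearMap.snd ℂ _ _

lemma uu_apply (z : ℂ) (x : HS VV × HS OO) : uu z x = DD x.1 - CC x.2 + z • x.2 := rfl

lemma ev_uu (z : ℂ) (x : HS VV × HS OO) (j : ℕ) (w : ℂ) :
    ev (uu z x) j w = Dfun (ev x.1) j w - (Complex.cos w - z) * ev x.2 j w := by
  rw [uu_apply, ev_add, ev_sub, ev_smul, ev_DD, ev_CC]; ring

/-! ### division -/

noncomputable def Mfun (c : ℕ) (z : ℂ) (r : ℕ → ℂ → ℂ) (j : ℕ) (w : ℂ) : ℂ :=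
  if cls c j then 0 else r j w / (Complex.cos w - z)

lemma Mfun_bound {c : ℕ} {z : ℂ} (hz : z ∈ Wc c) (n : ℕ) (r : HS OO) {j : ℕ} {w : ℂ}
    (hw : w ∈ OO j) : wt n j * ‖Mfun c z (ev r) j w‖ ≤ 4 * ‖crd OO n r‖ := by
  unfold Mfun
  split_ifs with hc
  · simp
  · have h1 := quarter_le hz hc hw
    have h2 := norm_ev_le n r j w
    rw [norm_div]
    have h3 : ‖ev r j w‖ / ‖Complex.cos w - z‖ ≤ ‖ev r j w‖ / (1 / 4) := by
      gcongr
    have h4 := wt_pos n j
    calc wt n j * (‖ev r j w‖ / ‖Complex.cos w - z‖) ≤ wt n j * (‖ev r j w‖ / (1 / 4)) := by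
          gcongr
      _ = 4 * (wt n j * ‖ev r j w‖) := by ring
      _ ≤ _ := by gcongr

lemma Mfun_adm {c : ℕ} {z : ℂ} (hz : z ∈ Wc c) (r : HS OO) : Adm OO (Mfun c z (ev r)) := by
  refine ⟨fun j w hw => ?_, fun j => ?_, fun n => ⟨_, fun j w hw => Mfun_bound hz n r hw⟩⟩
  · unfold Mfun; rw [ev_outside r hw]; simp
  · unfold Mfun
    split_ifs with hc
    · exact differentiableOn_const 0
    · refine (ev_diff r j).div ?_ (fun w hw => cos_ne hz hc hw)
      exact (Complex.differentiable_cos.sub_const z).differentiableOn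

noncomputable def Mlin {c : ℕ} {z : ℂ} (hz : z ∈ Wc c) : HS OO →ₗ[ℂ] HS OO where
  toFun r := mkHS (Mfun c z (ev r)) (Mfun_adm hz r)
  map_add' f g := by
    apply HS_ext
    intro j w
    rw [ev_add, ev_mkHS, ev_mkHS, ev_mkHS]
    unfold Mfun
    split_ifs
    · simp
    · rw [ev_add]; ring
  map_smul' a f := by
    apply HS_ext
    intro j w
    rw [RingHom.id_apply, ev_smul, ev_mkHS, ev_mkHS]
    unfold Mfun
    split_ifs
    · simp
    · rw [ev_smul]; ring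

lemma Mlin_bound {c : ℕ} {z : ℂ} (hz : z ∈ Wc c) (n : ℕ) (r : HS OO) :
    ‖crd OO n (Mlin hz r)‖ ≤ 4 * ‖crd OO n r‖ := by
  refine norm_crd_le' n _ (by positivity) (fun j w hw => ?_)
  change wt n j * ‖ev (mkHS (Mfun c z (ev r)) (Mfun_adm hz r)) j w‖ ≤ _
  rw [ev_mkHS]
  exact Mfun_bound hz n r hw

noncomputable def MM {c : ℕ} {z : ℂ} (hz : z ∈ Wc c) : HS OO →L[ℂ] HS OO :=
  mkCLM (Mlin hz) (fun n => squeeze_bound' (Mlin hz) n n 4 (Mlin_bound hz n))

lemma MM_bound {c : ℕ} {z : ℂ} (hz : z ∈ Wc c) (n : ℕ) (r : HS OO) :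
    ‖crd OO n (MM hz r)‖ ≤ 4 * ‖crd OO n r‖ := Mlin_bound hz n r

lemma ev_MM {c : ℕ} {z : ℂ} (hz : z ∈ Wc c) (r : HS OO) (j : ℕ) (w : ℂ) :
    ev (MM hz r) j w = if cls c j then 0 else ev r j w / (Complex.cos w - z) :=
  ev_mkHS _ (Mfun_adm hz r) j w

/-- resolvent identity -/
lemma MM_sub {c : ℕ} {a b : ℂ} (ha : a ∈ Wc c) (hb : b ∈ Wc c) (r : HS OO) :
    MM ha r - MM hb r = (a - b) • MM ha (MM hb r) := by
  apply HS_ext
  intro j w
  rw [ev_sub, ev_smul, ev_MM, ev_MM, ev_MM, ev_MM]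
  split_ifs with hc
  · simp
  · by_cases hw : w ∈ OO j
    · have h1 := cos_ne ha hc hw
      have h2 := cos_ne hb hc hw
      field_simp
      ring
    · rw [ev_outside r hw]; simp

/-- The solution formula -/
lemma uu_solution {c : ℕ} {z : ℂ} (hz : z ∈ Wc c) (g : HS OO) :
    uu z (TT c g, MM hz (DD (TT c g) - g)) = g := by
  apply HS_ext
  intro j w
  rw [ev_uu]
  by_cases hw : w ∈ OO j
  · by_cases hc : cls c j
    · simp only
      rw [ev_MM, if_pos hc, mul_zero, sub_zero]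
      unfold Dfun
      rw [if_pos hw, ev_TT, ev_TT]
      unfold Tfun
      rw [if_pos (OO_subset_VV_succ j hw), if_pos (OO_subset_VV j hw), if_pos hc,
        if_neg (by rw [cls_succ]; exact not_not.2 hc)]
      simp only
      unfold out
      ring
    · simp only
      rw [ev_MM, if_neg hc, ev_sub, ev_DD]
      have := cos_ne hz hc hw
      field_simp
      ring
  · rw [ev_outside _ hw, ev_outside g hw]
    unfold Dfun
    rw [if_neg hw]; simp

end Pool.Agent.Helper68.FrechetLift
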