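import Pool.Agent.Helper68.FGlobal

open Filter Topology Set Metric Asymptotics
open scoped Real

namespace Pool.Agent.Helper68.FrechetLift

/-- seminorms of the product -/
noncomputable def snP (n : ℕ) : Seminorm ℂ (HS VV × HS OO) :=
  (sn VV n).comp (LinearMap.fst ℂ _ _) ⊔ (sn OO n).comp (LinearMap.snd ℂ _ _)

lemma comap_max {α : Type*} {a b : α → ℝ} (ha : ∀ x, 0 ≤ a x) (hb : ∀ x, 0 ≤ b x) :
    comap (fun x => max (a x) (b x)) (𝓝 0) = comap a (𝓝 0) ⊓ comap b (𝓝 0) := by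
  apply le_antisymm
  · refine le_inf ?_ ?_
    · rw [← tendsto_iff_comap]
      exact squeeze_zero ha (fun x => le_max_left _ _) tendsto_comap
    · rw [← tendsto_iff_comap]
      exact squeeze_zero hb (fun x => le_max_right _ _) tendsto_comap
  · rw [← tendsto_iff_comap]
    have h1 : Tendsto a (comap a (𝓝 0) ⊓ comap b (𝓝 0)) (𝓝 0) :=
      tendsto_comap.mono_left inf_le_left
    have h2 : Tendsto b (comap a (𝓝 0) ⊓ comap b (𝓝 0)) (𝓝 0) :=
      tendsto_comap.mono_left inf_le_right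
    simpa using h1.max h2

lemma nhds_zero_HS (U : ℕ → Set ℂ) : 𝓝 (0 : HS U) = ⨅ n, comap (sn U n) (𝓝 0) :=
  (SeminormFamily.withSeminorms_iff_nhds_eq_iInf _).1 (withSeminorms_sn U)

lemma withSeminorms_snP : WithSeminorms snP := by
  rw [SeminormFamily.withSeminorms_iff_nhds_eq_iInf]
  have h0 : (0 : HS VV × HS OO) = (0, 0) := rfl
  rw [h0, nhds_prod_eq, nhds_zero_HS, nhds_zero_HS, Filter.prod_eq_inf, Filter.comap_iInf,
    Filter.comap_iInf, ← iInf_inf_eq]
  congr 1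
  funext n
  rw [Filter.comap_comap, Filter.comap_comap]
  exact (comap_max (a := fun x : HS VV × HS OO => sn VV n x.1)
    (b := fun x : HS VV × HS OO => sn OO n x.2) (fun x => apply_nonneg _ _)
    (fun x => apply_nonneg _ _)).symm

lemma equi_aux {A B : Type*} [AddCommGroup A] [Module ℂ A] [UniformSpace A]
    [AddCommGroup B] [Module ℂ B] [UniformSpace B] [IsUniformAddGroup B] [ContinuousSMul ℂ B]
    (P Q : A →L[ℂ] B) (R : ℝ) {ι : Type*} (t : ι → ℂ) (ht : ∀ i, ‖t i‖ ≤ R) :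
    Equicontinuous (fun (i : ι) (x : A) => P x + t i • Q x) := by
  intro x₀
  rw [EquicontinuousAt]
  intro U hU
  rw [uniformity_eq_comap_nhds_zero, mem_comap] at hU
  obtain ⟨N, hN, hNU⟩ := hU
  obtain ⟨M, hM, hMN⟩ := exists_nhds_zero_half hN
  obtain ⟨M', hM', hMb⟩ := (nhds_basis_balanced ℂ B).mem_iff.1 hM
  have hR : 0 < max R 1 := lt_max_of_lt_right one_pos
  have hne : ((max R 1 : ℝ) : ℂ) ≠ 0 := by exact_mod_cast hR.ne'
  have h1 : ∀ᶠ x in 𝓝 x₀, P x - P x₀ ∈ M := by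
    have : Tendsto (fun x => P x - P x₀) (𝓝 x₀) (𝓝 (P x₀ - P x₀)) :=
      (P.continuous.tendsto x₀).sub tendsto_const_nhds
    rw [sub_self] at this
    exact this hM
  have h2 : ∀ᶠ x in 𝓝 x₀, ((max R 1 : ℝ) : ℂ) • (Q x - Q x₀) ∈ M' := by
    have : Tendsto (fun x => ((max R 1 : ℝ) : ℂ) • (Q x - Q x₀)) (𝓝 x₀)
        (𝓝 (((max R 1 : ℝ) : ℂ) • (Q x₀ - Q x₀))) :=
      ((Q.continuous.tendsto x₀).sub tendsto_const_nhds).const_smul _
    rw [sub_self, smul_zero] at this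
    exact this hM'.1
  filter_upwards [h1, h2] with x hx1 hx2 i
  apply hNU
  simp only [mem_preimage]
  have e : (P x + t i • Q x) - (P x₀ + t i • Q x₀) =
      (P x - P x₀) + t i • (Q x - Q x₀) := by
    rw [smul_sub]; abel
  rw [e]
  refine hMN _ hx1 _ (hMb ?_)
  have e2 : t i • (Q x - Q x₀) =
      (t i / ((max R 1 : ℝ) : ℂ)) • (((max R 1 : ℝ) : ℂ) • (Q x - Q x₀)) := by
    rw [smul_smul, div_mul_cancel₀ _ hne]
  rw [e2]
  apply hM'.2.smul_mem _ hx2
  rw [norm_div, Complex.norm_real, Real.norm_of_nonneg hR.le, div_le_one hR]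
  exact (ht i).trans (le_max_left _ _)

end Pool.Agent.Helper68.FrechetLift
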