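import Pool.Agent.Helper68.FLocal

open Filter Topology Set Metric Asymptotics
open scoped Real

namespace Pool.Agent.Helper68.FrechetLift

lemma cosh_one_lt : Real.cosh 1 < 2 := by
  rw [Real.cosh_eq]
  have h1 := Real.exp_one_lt_d9
  have h2 : Real.exp (-1) ≤ 1 := Real.exp_le_one_iff.2 (by norm_num)
  norm_num at h1
  linarith

lemma norm_cos_lt {w : ℂ} (hw : |w.im| ≤ 1) : ‖Complex.cos w‖ ≤ Real.cosh 1 := by
  refine (norm_cos_le w).trans ?_
  rw [← Real.cosh_abs]
  apply Real.cosh_le_cosh.2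
  rw [abs_abs, abs_one]
  exact hw

lemma phi_diff {F : ℂ → HS VV} {j : ℕ} {w₀ : ℂ} (hw : w₀ ∈ VV j)
    (hF : DifferentiableAt ℂ F (Complex.cos w₀)) :
    DifferentiableAt ℂ (fun w => ev (F (Complex.cos w)) j w) w₀ := by
  obtain ⟨F', hF'⟩ := hF
  rw [hasFDerivAt_HS_iff] at hF'
  have h0 := hF' 0
  set z₀ := Complex.cos w₀ with hz₀
  have hA : DifferentiableAt ℂ (ev (F z₀) j) w₀ :=
    (ev_diff (F z₀) j).differentiableAt ((isOpen_VV j).mem_nhds hw)
  have hB : DifferentiableAt ℂ (fun w => (Complex.cos w - z₀) * ev (F' 1) j w) w₀ :=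
    ((Complex.differentiable_cos w₀).sub_const z₀).mul
      ((ev_diff (F' 1) j).differentiableAt ((isOpen_VV j).mem_nhds hw))
  have hR : DifferentiableAt ℂ
      (fun w => ev (F (Complex.cos w) - F z₀ - F' (Complex.cos w - z₀)) j w) w₀ := by
    have : HasDerivAt (fun w => ev (F (Complex.cos w) - F z₀ - F' (Complex.cos w - z₀)) j w) 0 w₀ := by
      rw [hasDerivAt_iff_isLittleO]
      have e0 : ev (F (Complex.cos w₀) - F z₀ - F' (Complex.cos w₀ - z₀)) j w₀ = 0 := by
        rw [← hz₀, sub_self, sub_self, map_zero, sub_zero, ev_zero]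
      simp only [e0, smul_zero, sub_zero]
      have hcos : Tendsto Complex.cos (𝓝 w₀) (𝓝 z₀) := Complex.continuous_cos.tendsto w₀
      have h1 := h0.comp_tendsto hcos
      have h2 : (fun w => Complex.cos w - z₀) =O[𝓝 w₀] fun w => w - w₀ :=
        (Complex.differentiable_cos w₀).hasDerivAt.isBigO_sub
      have h3 := h1.trans_isBigO h2
      refine IsBigO.trans_isLittleO (IsBigO.of_bound 1 ?_) h3
      filter_upwards with w
      rw [one_mul]
      have := norm_ev_le 0 (F (Complex.cos w) - F z₀ - F' (Complex.cos w - z₀)) j w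
      rw [wt_zero, one_mul] at this
      exact this
    exact this.differentiableAt
  have hsum := (hA.add hB).add hR
  refine hsum.congr_of_eventuallyEq ?_
  filter_upwards with w
  simp only [Pi.add_apply]
  have e1 : F' (Complex.cos w - z₀) = (Complex.cos w - z₀) • F' 1 := by
    rw [← map_smul, smul_eq_mul, mul_one]
  rw [e1, ev_sub, ev_sub, ev_smul]
  ring

/-- the right hand side -/
noncomputable def gfun (j : ℕ) (w : ℂ) : ℂ :=
  open Classical in if w ∈ OO j ∧ j = 0 then w⁻¹ else 0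

lemma norm_ge_of_OO {j : ℕ} {w : ℂ} (hw : w ∈ OO j) : 1 ≤ ‖w‖ := by
  have h := RR_ge j
  have h1 := hw.1
  unfold RR at h
  linarith

lemma gfun_adm : Adm OO gfun := by
  refine ⟨fun j w hw => ?_, fun j => ?_, fun n => ⟨wt n 0, fun j w hw => ?_⟩⟩
  · unfold gfun; rw [if_neg (fun h => hw h.1)]
  · by_cases hj : j = 0
    · have : DifferentiableOn ℂ (fun w : ℂ => w⁻¹) (OO j) := by
        intro w hw
        have h1 := norm_ge_of_OO hw
        have : w ≠ 0 := by
          intro h; rw [h] at h1; simp at h1; linarith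
        exact (differentiableAt_inv this).differentiableWithinAt
      refine this.congr fun w hw => ?_
      unfold gfun; rw [if_pos ⟨hw, hj⟩]
    · have : gfun j = fun _ => 0 := by
        funext w; unfold gfun; rw [if_neg (fun h => hj h.2)]
      rw [this]; exact differentiableOn_const 0
  · unfold gfun
    have h0 := wt_pos n 0
    split_ifs with h
    · have h1 := norm_ge_of_OO hw
      rw [h.2, norm_inv]
      have : ‖w‖⁻¹ ≤ 1 := inv_le_one_of_one_le₀ h1
      nlinarith
    · simpa using h0.le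

noncomputable def g0 : HS OO := mkHS gfun gfun_adm

lemma ev_g0 (j : ℕ) (w : ℂ) : ev g0 j w = gfun j w := ev_mkHS _ _ _ _

section
variable {f : ℂ → HS VV × HS OO}

/-- the glued pieces -/
noncomputable def phi (f : ℂ → HS VV × HS OO) (j : ℕ) (w : ℂ) : ℂ :=
  ev (f (Complex.cos w)).1 j w

lemma phi_sub {j : ℕ} {w : ℂ} (hw : w ∈ OO j) (hc : ‖Complex.cos w‖ < 2)
    (hu : ∀ z : ℂ, ‖z‖ < 2 → uu z (f z) = g0) : phi f (j + 1) w - phi f j w = gfun j w := by
  have h := hu _ hc
  have h1 : ev (uu (Complex.cos w) (f (Complex.cos w))) j w = ev g0 j w := by rw [h]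
  rw [ev_uu, sub_self, zero_mul, sub_zero, ev_g0] at h1
  unfold Dfun at h1
  rw [if_pos hw] at h1
  exact h1

lemma phi_differentiableAt {j : ℕ} {w : ℂ} (hw : w ∈ VV j) (hc : ‖Complex.cos w‖ < 2)
    (hf : ∀ z : ℂ, ‖z‖ < 2 → DifferentiableAt ℂ f z) : DifferentiableAt ℂ (phi f j) w := by
  have h1 : DifferentiableAt ℂ (fun z => (f z).1) (Complex.cos w) := by
    obtain ⟨f', hf'⟩ := hf _ hc
    exact ⟨_, clm_comp_hasFDerivAt (ContinuousLinearMap.fst ℂ (HS VV) (HS OO)) hf'⟩
  exact phi_diff hw h1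

lemma phi_decay (hf : ∀ z : ℂ, ‖z‖ < 2 → DifferentiableAt ℂ f z) (n : ℕ) :
    ∃ K, 0 ≤ K ∧ ∀ j w, |w.im| ≤ 1 → wt n j * ‖phi f j w‖ ≤ K := by
  have hcont : ContinuousOn (fun z => crd VV n (f z).1) (closedBall 0 (Real.cosh 1)) := by
    intro z hz
    have hz2 : ‖z‖ < 2 := by
      have : ‖z‖ ≤ Real.cosh 1 := by simpa using hz
      exact this.trans_lt cosh_one_lt
    obtain ⟨f', hf'⟩ := hf _ hz2
    have := clm_comp_hasFDerivAt ((crd VV n).comp (ContinuousLinearMap.fst ℂ (HS VV) (HS OO))) hf'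
    exact this.continuousAt.continuousWithinAt
  obtain ⟨K, hK⟩ := (isCompact_closedBall (0 : ℂ) (Real.cosh 1)).exists_bound_of_continuousOn hcont
  refine ⟨max K 0, le_max_right _ _, fun j w hw => ?_⟩
  have h1 := norm_ev_le n (f (Complex.cos w)).1 j w
  have h2 := hK (Complex.cos w) (by simpa using norm_cos_lt hw)
  exact (h1.trans h2).trans (le_max_left _ _)

/-- glued function -/
noncomputable def Phi (f : ℂ → HS VV × HS OO) (w : ℂ) : ℂ := phi f ⌊‖w‖ / π⌋₊ w

lemma mem_VV_floor (w : ℂ) : w ∈ VV ⌊‖w‖ / π⌋₊ := by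
  have hπ := Real.pi_pos
  have h1 : (⌊‖w‖ / π⌋₊ : ℝ) ≤ ‖w‖ / π := Nat.floor_le (by positivity)
  have h2 : ‖w‖ / π < ⌊‖w‖ / π⌋₊ + 1 := Nat.lt_floor_add_one _
  rw [le_div_iff₀ hπ] at h1
  rw [div_lt_iff₀ hπ] at h2
  constructor
  · linarith
  · linarith

lemma Phi_eventually (hu : ∀ z : ℂ, ‖z‖ < 2 → uu z (f z) = g0) {w₀ : ℂ} (h1 : π < ‖w₀‖)
    (hc : ‖Complex.cos w₀‖ < 2) : Phi f =ᶠ[𝓝 w₀] phi f ⌊‖w₀‖ / π⌋₊ := by
  have hπ := Real.pi_pos
  set j₀ := ⌊‖w₀‖ / π⌋₊ with hj₀
  have e1 : (j₀ : ℝ) ≤ ‖w₀‖ / π := Nat.floor_le (by positivity)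
  have e2 : ‖w₀‖ / π < j₀ + 1 := Nat.lt_floor_add_one _
  rw [le_div_iff₀ hπ] at e1
  rw [div_lt_iff₀ hπ] at e2
  have hn1 : ∀ᶠ w : ℂ in 𝓝 w₀, π < ‖w‖ :=
    (isOpen_lt continuous_const continuous_norm).mem_nhds h1
  have hn2 : ∀ᶠ w : ℂ in 𝓝 w₀, ‖Complex.cos w‖ < 2 :=
    (isOpen_lt Complex.continuous_cos.norm continuous_const).mem_nhds hc
  have hn3 : ∀ᶠ w : ℂ in 𝓝 w₀, j₀ * π - 1 / 10 < ‖w‖ :=
    (isOpen_lt continuous_const continuous_norm).mem_nhds (by
      change j₀ * π - 1 / 10 < ‖w₀‖; linarith)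
  have hn4 : ∀ᶠ w : ℂ in 𝓝 w₀, ‖w‖ < (j₀ + 1) * π :=
    (isOpen_lt continuous_norm continuous_const).mem_nhds e2
  filter_upwards [hn1, hn2, hn3, hn4] with w p1 p2 p3 p4
  unfold Phi
  rcases le_or_gt (j₀ * π) ‖w‖ with h | h
  · have : ⌊‖w‖ / π⌋₊ = j₀ := by
      rw [Nat.floor_eq_iff (by positivity)]
      constructor
      · rw [le_div_iff₀ hπ]; exact h
      · rw [div_lt_iff₀ hπ]; exact p4
    rw [this]
  · -- then `j₀ ≥ 2`
    obtain ⟨k, hk⟩ : ∃ k, j₀ = k + 2 := by
      have : 1 < (j₀ : ℝ) := by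
        by_contra hcon
        push Not at hcon
        have : j₀ * π ≤ 1 * π := by gcongr
        linarith
      have : 1 < j₀ := by exact_mod_cast this
      exact ⟨j₀ - 2, by omega⟩
    have hfl : ⌊‖w‖ / π⌋₊ = k + 1 := by
      rw [Nat.floor_eq_iff (by positivity)]
      rw [hk] at p3 h
      push_cast at p3 h ⊢
      have := Real.pi_gt_three
      constructor
      · rw [le_div_iff₀ hπ]; linarith
      · rw [div_lt_iff₀ hπ]; linarith
    rw [hfl, hk]
    have hw : w ∈ OO (k + 1) := by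
      rw [hk] at p3 h
      push_cast at p3 h
      constructor
      · push_cast; linarith
      · push_cast; linarith
    have := phi_sub hw p2 hu
    unfold gfun at this
    rw [if_neg (fun h => by simp at h)] at this
    have e3 : phi f (k + 1 + 1) w = phi f (k + 1) w := sub_eq_zero.1 this
    exact e3.symm

lemma Phi_diff (hf : ∀ z : ℂ, ‖z‖ < 2 → DifferentiableAt ℂ f z)
    (hu : ∀ z : ℂ, ‖z‖ < 2 → uu z (f z) = g0) {w₀ : ℂ} (h1 : π < ‖w₀‖)
    (hc : ‖Complex.cos w₀‖ < 2) : DifferentiableAt ℂ (Phi f) w₀ :=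
  (phi_differentiableAt (mem_VV_floor w₀) hc hf).congr_of_eventuallyEq (Phi_eventually hu h1 hc)

/-- change of variables -/
noncomputable def cv (ζ : ℂ) : ℂ := (2 / π : ℝ) * Complex.log (ζ + 1) + 4

lemma one_le_norm {ζ : ℂ} (h : 0 ≤ ζ.re) : 1 ≤ ‖ζ + 1‖ := by
  have := Complex.re_le_norm (ζ + 1)
  simp at this
  linarith

lemma cv_re {ζ : ℂ} (h : 0 ≤ ζ.re) : 4 ≤ (cv ζ).re := by
  unfold cv
  rw [Complex.add_re, Complex.re_ofReal_mul, Complex.log_re]
  have h1 := Real.log_nonneg (one_le_norm h)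
  have h2 : (0 : ℝ) ≤ 2 / π := by positivity
  have : (4 : ℂ).re = 4 := rfl
  rw [this]
  nlinarith [mul_nonneg h2 h1]

lemma cv_im {ζ : ℂ} (h : 0 ≤ ζ.re) : |(cv ζ).im| ≤ 1 := by
  unfold cv
  rw [Complex.add_im, Complex.im_ofReal_mul, Complex.log_im]
  have : (4 : ℂ).im = 0 := rfl
  rw [this, add_zero, abs_mul, abs_of_pos (by positivity : (0 : ℝ) < 2 / π)]
  have h1 : |Complex.arg (ζ + 1)| ≤ π / 2 := by
    rw [Complex.abs_arg_le_pi_div_two_iff]
    simp; linarith
  have hπ := Real.pi_pos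
  calc 2 / π * |Complex.arg (ζ + 1)| ≤ 2 / π * (π / 2) := by gcongr
    _ = 1 := by field_simp

lemma cv_norm {ζ : ℂ} (h : 0 ≤ ζ.re) : π < ‖cv ζ‖ := by
  have h1 := cv_re h
  have h2 := Complex.re_le_norm (cv ζ)
  have := Real.pi_lt_four
  linarith

lemma cv_cos {ζ : ℂ} (h : 0 ≤ ζ.re) : ‖Complex.cos (cv ζ)‖ < 2 :=
  (norm_cos_lt (cv_im h)).trans_lt cosh_one_lt

lemma cv_diff {ζ : ℂ} (h : 0 ≤ ζ.re) : DifferentiableAt ℂ cv ζ := by
  unfold cv
  refine DifferentiableAt.add_const _ (DifferentiableAt.const_mul ?_ _)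
  refine DifferentiableAt.clog (differentiableAt_id.add_const 1) ?_
  rw [Complex.mem_slitPlane_iff]
  left
  simp; linarith

lemma pow_ge {x : ℝ} (hx : 0 ≤ x) : x + 1 ≤ 1000 ^ ⌊‖cv x‖ / π⌋₊ := by
  have hπ := Real.pi_pos
  have hcv : cv x = (((2 / π) * Real.log (x + 1) + 4 : ℝ) : ℂ) := by
    unfold cv
    push_cast
    rw [Complex.ofReal_log (by linarith)]
    push_cast
    ring
  have hL : 0 ≤ Real.log (x + 1) := Real.log_nonneg (by linarith)
  have hn : ‖cv x‖ = (2 / π) * Real.log (x + 1) + 4 := by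
    rw [hcv, Complex.norm_real, Real.norm_of_nonneg (by positivity)]
  set j := ⌊‖cv x‖ / π⌋₊ with hj
  have e2 : ‖cv x‖ / π < j + 1 := Nat.lt_floor_add_one _
  rw [div_lt_iff₀ hπ, hn] at e2
  have hj2 : (2 / π ^ 2) * Real.log (x + 1) ≤ j := by
    have h4 := Real.pi_lt_four
    have h5 : 2 / π * Real.log (x + 1) ≤ j * π := by nlinarith
    have h6 : (2 / π ^ 2) * Real.log (x + 1) = (2 / π * Real.log (x + 1)) / π := by
      field_simp
    rw [h6, div_le_iff₀ hπ]
    exact h5
  have hlog : 5 ≤ Real.log 1000 := by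
    rw [Real.le_log_iff_exp_le (by norm_num)]
    have h1 := Real.exp_one_lt_d9
    have : Real.exp 5 = Real.exp 1 ^ 5 := by rw [← Real.exp_nat_mul]; norm_num
    rw [this]
    calc Real.exp 1 ^ 5 ≤ (2.7182818286 : ℝ) ^ 5 := by gcongr
      _ ≤ 1000 := by norm_num
  have hπ2 : π ^ 2 ≤ 10 := by
    have := Real.pi_lt_d2
    norm_num at this
    nlinarith
  have key : Real.log (x + 1) ≤ j * Real.log 1000 := by
    have h7 : Real.log (x + 1) ≤ ((2 / π ^ 2) * Real.log (x + 1)) * 5 := by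
      have : 1 ≤ 2 / π ^ 2 * 5 := by
        rw [div_mul_eq_mul_div, le_div_iff₀ (by positivity)]
        linarith
      nlinarith
    have h8 : (0 : ℝ) ≤ j := Nat.cast_nonneg j
    nlinarith
  rw [← Real.log_pow] at key
  exact (Real.log_le_log_iff (by linarith) (by positivity)).1 key

theorem no_global (hf : ∀ z : ℂ, ‖z‖ < 2 → DifferentiableAt ℂ f z)
    (hu : ∀ z : ℂ, ‖z‖ < 2 → uu z (f z) = g0) : False := by
  have hπ := Real.pi_pos
  have hπ3 : 3.14 < π := Real.pi_gt_d2
  have hπ4 : π < 3.15 := Real.pi_lt_d2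
  norm_num at hπ3 hπ4
  -- vanishing on the half strip
  have hvan : EqOn (fun ζ => Phi f (cv ζ)) 0 {z : ℂ | 0 ≤ z.re} := by
    have hb : ∀ n, ∃ K, 0 ≤ K ∧ ∀ ζ : ℂ, 0 ≤ ζ.re →
        wt n ⌊‖cv ζ‖ / π⌋₊ * ‖Phi f (cv ζ)‖ ≤ K := by
      intro n
      obtain ⟨K, hK0, hK⟩ := phi_decay hf n
      exact ⟨K, hK0, fun ζ hζ => hK _ _ (cv_im hζ)⟩
    have hb0 : ∃ K, 0 ≤ K ∧ ∀ ζ : ℂ, 0 ≤ ζ.re → ‖Phi f (cv ζ)‖ ≤ K := by
      obtain ⟨K, hK0, hK⟩ := hb 0
      refine ⟨K, hK0, fun ζ hζ => ?_⟩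
      have := hK ζ hζ
      rwa [wt_zero, one_mul] at this
    obtain ⟨K0, hK00, hK0⟩ := hb0
    apply PhragmenLindelof.eq_zero_on_right_half_plane_of_superexponential_decay
    · apply DifferentiableOn.diffContOnCl
      intro ζ hζ
      have hζ' : 0 ≤ ζ.re := by
        rw [Complex.closure_setOfPred_lt_re] at hζ
        exact hζ
      apply DifferentiableAt.differentiableWithinAt
      exact (Phi_diff hf hu (cv_norm hζ') (cv_cos hζ')).comp ζ (cv_diff hζ')
    · refine ⟨0, by norm_num, 0, ?_⟩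
      refine IsBigO.of_bound K0 ?_
      have : ∀ᶠ ζ : ℂ in Bornology.cobounded ℂ ⊓ 𝓟 {z : ℂ | 0 < z.re}, 0 < ζ.re :=
        Filter.mem_inf_of_right (mem_principal_self _)
      filter_upwards [this] with ζ hζ
      simpa using hK0 ζ hζ.le
    · intro n
      obtain ⟨K, hK00, hK⟩ := hb (n + 1)
      have hlim : Tendsto (fun x : ℝ => K * Real.exp (-x)) atTop (𝓝 0) := by
        have := Real.tendsto_exp_neg_atTop_nhds_zero.const_mul K
        simpa using this
      refine squeeze_zero' (Eventually.of_forall fun x => by positivity) ?_ hlim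
      filter_upwards [eventually_ge_atTop (0 : ℝ)] with x hx
      have h1 := hK x (by simpa using hx)
      have h2 := pow_ge hx
      have h3 : Real.exp ((n + 1 : ℕ) * (x + 1)) ≤ wt (n + 1) ⌊‖cv x‖ / π⌋₊ := by
        unfold wt
        apply Real.exp_le_exp.2
        gcongr
      have h4 : Real.exp ((n + 1 : ℕ) * (x + 1)) * ‖Phi f (cv x)‖ ≤ K :=
        (mul_le_mul_of_nonneg_right h3 (norm_nonneg _)).trans h1
      have h5 : Real.exp x ^ n ≤ Real.exp (-x) * Real.exp ((n + 1 : ℕ) * (x + 1)) := by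
        rw [← Real.exp_nat_mul, ← Real.exp_add]
        apply Real.exp_le_exp.2
        push_cast
        have : (0 : ℝ) ≤ n := Nat.cast_nonneg n
        nlinarith
      calc Real.exp x ^ n * ‖Phi f (cv x)‖ ≤
          (Real.exp (-x) * Real.exp ((n + 1 : ℕ) * (x + 1))) * ‖Phi f (cv x)‖ := by gcongr
        _ = Real.exp (-x) * (Real.exp ((n + 1 : ℕ) * (x + 1)) * ‖Phi f (cv x)‖) := by ring
        _ ≤ Real.exp (-x) * K := by gcongr
        _ = K * Real.exp (-x) := by ring
    · exact ⟨K0, fun x => hK0 _ (by simp)⟩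
  -- `phi 1` vanishes near `5`
  have h5 : phi f 1 =ᶠ[𝓝 (5 : ℂ)] 0 := by
    have hn5 : ‖(5 : ℂ)‖ = 5 := by simp
    have hc5 : ‖Complex.cos 5‖ < 2 := (norm_cos_lt (by simp)).trans_lt cosh_one_lt
    have hPhi := Phi_eventually (f := f) hu (w₀ := 5) (by rw [hn5]; linarith) hc5
    have hfl : ⌊‖(5 : ℂ)‖ / π⌋₊ = 1 := by
      rw [hn5, Nat.floor_eq_iff (by positivity)]
      push_cast
      constructor
      · rw [le_div_iff₀ hπ]; linarith
      · rw [div_lt_iff₀ hπ]; linarith
    rw [hfl] at hPhi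
    refine hPhi.symm.trans ?_
    -- inverse change of variables
    set ι : ℂ → ℂ := fun w => Complex.exp ((π / 2 : ℝ) * (w - 4)) - 1 with hι
    have hιc : Continuous ι := by
      rw [hι]
      fun_prop
    have hre : ∀ᶠ w : ℂ in 𝓝 5, 0 < (ι w).re := by
      have : 0 < (ι 5).re := by
        simp only [hι]
        have e : ((π / 2 : ℝ) : ℂ) * (5 - 4) = ((π / 2 : ℝ) : ℂ) := by ring
        rw [e, Complex.sub_re, Complex.exp_ofReal_re, Complex.one_re]
        have : π / 2 + 1 ≤ Real.exp (π / 2) := Real.add_one_le_exp _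
        linarith
      exact (Complex.continuous_re.comp hιc).continuousAt.eventually
        ((isOpen_Ioi (a := (0 : ℝ))).mem_nhds this)
    have him : ∀ᶠ w : ℂ in 𝓝 5, |w.im| < 1 := by
      have : Continuous fun w : ℂ => |w.im| := Complex.continuous_im.abs
      exact this.continuousAt.eventually
        ((isOpen_Iio (a := (1 : ℝ))).mem_nhds (by simp))
    filter_upwards [hre, him] with w hw1 hw2
    have h1 := hvan (x := ι w) hw1.le
    have h2 : cv (ι w) = w := by
      unfold cv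
      simp only [hι]
      rw [sub_add_cancel, Complex.log_exp]
      · push_cast
        have : (π : ℂ) ≠ 0 := by exact_mod_cast hπ.ne'
        field_simp
        ring
      · rw [Complex.im_ofReal_mul]
        have : (w - 4).im = w.im := by simp
        rw [this]
        rw [abs_lt] at hw2
        nlinarith
      · rw [Complex.im_ofReal_mul]
        have : (w - 4).im = w.im := by simp
        rw [this]
        rw [abs_lt] at hw2
        nlinarith
    simp only [h2] at h1
    exact h1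
  -- propagate
  have hC1 : ∀ w : ℂ, 3.1 < w.re → w.re < 6 → |w.im| < 1 / 10 → phi f 1 w = 0 := by
    set C1 : Set ℂ := {w | 3.1 < w.re} ∩ {w | w.re < 6} ∩ {w | |w.im| < 1 / 10} with hC1def
    have hconv : Convex ℝ C1 := by
      refine ((convex_halfSpace_re_gt _).inter (convex_halfSpace_re_lt _)).inter ?_
      have : {w : ℂ | |w.im| < 1 / 10} = {w | -(1 / 10) < w.im} ∩ {w | w.im < 1 / 10} := by
        ext w; simp [abs_lt]
      rw [this]
      exact (convex_halfSpace_im_gt _).inter (convex_halfSpace_im_lt _)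
    have hopen : IsOpen C1 := by
      refine ((isOpen_lt continuous_const Complex.continuous_re).inter
        (isOpen_lt Complex.continuous_re continuous_const)).inter
        (isOpen_lt Complex.continuous_im.abs continuous_const)
    have hd : DifferentiableOn ℂ (phi f 1) C1 := by
      rintro w ⟨⟨h1, h2⟩, h3⟩
      simp only [mem_ofPred_eq] at h1 h2 h3
      apply DifferentiableAt.differentiableWithinAt
      apply phi_differentiableAt _ _ hf
      · have hre := Complex.re_le_norm w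
        have hle : ‖w‖ ≤ |w.re| + |w.im| := Complex.norm_le_abs_re_add_abs_im w
        rw [abs_of_pos (by norm_num at h1; linarith)] at hle
        norm_num at h1
        constructor
        · push_cast; linarith
        · push_cast; linarith
      · exact (norm_cos_lt (by linarith)).trans_lt cosh_one_lt
    have han : AnalyticOnNhd ℂ (phi f 1) C1 := hd.analyticOnNhd hopen
    have := han.eqOn_zero_of_preconnected_of_eventuallyEq_zero hconv.isPreconnected
      (z₀ := 5) (by
        refine ⟨⟨?_, ?_⟩, ?_⟩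
        · simp only [mem_ofPred_eq]; norm_num
        · simp only [mem_ofPred_eq]; norm_num
        · simp only [mem_ofPred_eq]; norm_num) h5
    intro w h1 h2 h3
    exact this ⟨⟨h1, h2⟩, h3⟩
  -- `phi 0` equals `- 1 / w` near `3.12`
  have hw0 : (fun w : ℂ => w * phi f 0 w + 1) =ᶠ[𝓝 (3.12 : ℂ)] 0 := by
    have c1 : ∀ᶠ w : ℂ in 𝓝 (3.12 : ℂ), 3.11 < w.re :=
      Complex.continuous_re.continuousAt.eventually
        ((isOpen_Ioi (a := (3.11 : ℝ))).mem_nhds (by norm_num))
    have c2 : ∀ᶠ w : ℂ in 𝓝 (3.12 : ℂ), w.re < 3.13 :=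
      Complex.continuous_re.continuousAt.eventually
        ((isOpen_Iio (a := (3.13 : ℝ))).mem_nhds (by norm_num))
    have c3 : ∀ᶠ w : ℂ in 𝓝 (3.12 : ℂ), |w.im| < 1 / 100 :=
      Complex.continuous_im.abs.continuousAt.eventually
        ((isOpen_Iio (a := (1 / 100 : ℝ))).mem_nhds (by norm_num))
    filter_upwards [c1, c2, c3] with w h1 h2 h3
    norm_num at h1 h2 h3
    have hre := Complex.re_le_norm w
    have hle : ‖w‖ ≤ |w.re| + |w.im| := Complex.norm_le_abs_re_add_abs_im w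
    rw [abs_of_pos (by linarith)] at hle
    have hO : w ∈ OO 0 := by
      constructor
      · push_cast; linarith
      · push_cast; linarith
    have hc : ‖Complex.cos w‖ < 2 := (norm_cos_lt (by linarith)).trans_lt cosh_one_lt
    have := phi_sub hO hc hu
    rw [hC1 w (by norm_num; linarith) (by linarith) (by linarith)] at this
    unfold gfun at this
    rw [if_pos ⟨hO, rfl⟩] at this
    have hwne : w ≠ 0 := by
      intro h
      rw [h] at h1
      simp at h1
      linarith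
    have e : phi f 0 w = - w⁻¹ := by
      rw [← this]; ring
    simp only [Pi.zero_apply]
    rw [e]
    field_simp
    ring
  -- contradiction at zero
  have hfin : (0 : ℂ) * phi f 0 0 + 1 = 0 := by
    set C0 : Set ℂ := Metric.ball 0 3.2 ∩ {w | |w.im| < 1} with hC0def
    have hconv : Convex ℝ C0 := by
      refine (convex_ball _ _).inter ?_
      have : {w : ℂ | |w.im| < 1} = {w | -1 < w.im} ∩ {w | w.im < 1} := by
        ext w; simp [abs_lt]
      rw [this]
      exact (convex_halfSpace_im_gt _).inter (convex_halfSpace_im_lt _)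
    have hopen : IsOpen C0 :=
      Metric.isOpen_ball.inter (isOpen_lt Complex.continuous_im.abs continuous_const)
    have hd : DifferentiableOn ℂ (fun w : ℂ => w * phi f 0 w + 1) C0 := by
      rintro w ⟨h1, h3⟩
      simp only [mem_ofPred_eq] at h3
      have h1' : ‖w‖ < 3.2 := by simpa using h1
      apply DifferentiableAt.differentiableWithinAt
      refine (differentiableAt_id.mul (phi_differentiableAt ?_ ?_ hf)).add_const 1
      · have := norm_nonneg w
        norm_num at h1'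
        constructor
        · push_cast; linarith
        · push_cast; linarith
      · exact (norm_cos_lt h3.le).trans_lt cosh_one_lt
    have han : AnalyticOnNhd ℂ (fun w : ℂ => w * phi f 0 w + 1) C0 := hd.analyticOnNhd hopen
    have := han.eqOn_zero_of_preconnected_of_eventuallyEq_zero hconv.isPreconnected
      (z₀ := 3.12) (by
        constructor
        · simp; norm_num
        · simp only [mem_ofPred_eq]; norm_num) hw0
    exact this ⟨by simp; norm_num, by simp⟩
  simp at hfin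

end

end Pool.Agent.Helper68.FrechetLift
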