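import Pool.Agent.Helper68.FFam

open Filter Topology Set Metric Asymptotics
open scoped Real

namespace Pool.Agent.Helper68.FrechetLift

section
variable {W : Type*} [NormedAddCommGroup W] [NormedSpace ℂ W]

lemma hasFDerivAt_HS_iff {U : ℕ → Set ℂ} {f : W → HS U} {f' : W →L[ℂ] HS U} {x : W} :
    HasFDerivAt f f' x ↔
      ∀ n, (fun y => crd U n (f y - f x - f' (y - x))) =o[𝓝 x] fun y => y - x := by
  rw [hasFDerivAt_iff_isLittleOTVS, isLittleO_iff]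

lemma exists_bound_clm {U : ℕ → Set ℂ} (f' : W →L[ℂ] HS U) (n : ℕ) :
    ∃ C, 0 ≤ C ∧ ∀ h, ‖crd U n (f' h)‖ ≤ C * ‖h‖ :=
  ⟨‖(crd U n).comp f'‖, norm_nonneg _, fun h => ((crd U n).comp f').le_opNorm h⟩

lemma clm_comp_hasFDerivAt {A B : Type*} [AddCommGroup A] [Module ℂ A] [TopologicalSpace A]
    [AddCommGroup B] [Module ℂ B] [TopologicalSpace B]
    (L : A →L[ℂ] B) {g : W → A} {g' : W →L[ℂ] A} {x : W} (hg : HasFDerivAt g g' x) :
    HasFDerivAt (fun y => L (g y)) (L.comp g') x := by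
  rw [hasFDerivAt_iff_isLittleOTVS] at hg ⊢
  have h := (L.isBigOTVS_fun_comp (f := fun y => g y - g x - g' (y - x)) (l := 𝓝 x)).trans_isLittleOTVS hg
  refine h.congr_left fun y => ?_
  simp [map_sub]

lemma MM_hasFDerivAt {c : ℕ} (ℓ : W →L[ℂ] ℂ) (b : ℂ) {ρ : W → HS OO} {ρ' : W →L[ℂ] HS OO}
    {x : W} (hx : ℓ x + b ∈ Wc c) (hρ : HasFDerivAt ρ ρ' x) (F : W → HS OO)
    (hF : ∀ y (hy : ℓ y + b ∈ Wc c), F y = MM hy (ρ y)) :
    HasFDerivAt F ((MM hx).comp ρ' + ℓ.smulRight (MM hx (MM hx (ρ x)))) x := by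
  rw [hasFDerivAt_HS_iff] at hρ ⊢
  intro n
  obtain ⟨C, hC0, hC⟩ := exists_bound_clm ρ' n
  have hWn : ∀ᶠ y in 𝓝 x, ℓ y + b ∈ Wc c := by
    have hcont : Continuous fun y => ℓ y + b := ℓ.continuous.add continuous_const
    exact hcont.continuousAt.eventually ((isOpen_Wc c).mem_nhds hx)
  have hbound : ∀ᶠ y in 𝓝 x,
      ‖crd OO n (F y - F x - ((MM hx).comp ρ' + ℓ.smulRight (MM hx (MM hx (ρ x)))) (y - x))‖ ≤
      4 * ‖crd OO n (ρ y - ρ x - ρ' (y - x))‖ +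
        (64 * ‖ℓ‖ ^ 2 * ‖crd OO n (ρ x)‖ + 16 * ‖ℓ‖ * C) * (‖y - x‖ * ‖y - x‖) := by
    filter_upwards [hWn] with y hy
    have ht : (ℓ y + b) - (ℓ x + b) = ℓ (y - x) := by rw [map_sub]; ring
    have htn : ‖ℓ (y - x)‖ ≤ ‖ℓ‖ * ‖y - x‖ := ℓ.le_opNorm _
    have e1 : F y - F x - ((MM hx).comp ρ' + ℓ.smulRight (MM hx (MM hx (ρ x)))) (y - x) =
        MM hy (ρ y - ρ x - ρ' (y - x)) +
        ((ℓ (y - x)) • (ℓ (y - x)) • MM hy (MM hx (MM hx (ρ x))) +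
        (ℓ (y - x)) • MM hy (MM hx (ρ' (y - x)))) := by
      have r1 := MM_sub hy hx (ρ x)
      have r2 := MM_sub hy hx (ρ' (y - x))
      have r3 := MM_sub hy hx (MM hx (ρ x))
      rw [ht] at r1 r2 r3
      have s1 : MM hy (ρ x) = MM hx (ρ x) + ℓ (y - x) • MM hy (MM hx (ρ x)) := by
        rw [← r1]; abel
      have s2 : MM hy (ρ' (y - x)) = MM hx (ρ' (y - x)) + ℓ (y - x) • MM hy (MM hx (ρ' (y - x))) := by
        rw [← r2]; abel
      have s3 : MM hy (MM hx (ρ x)) = MM hx (MM hx (ρ x)) +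
          ℓ (y - x) • MM hy (MM hx (MM hx (ρ x))) := by
        rw [← r3]; abel
      have m1 : MM hy (ρ y - ρ x - ρ' (y - x)) =
          MM hy (ρ y) - MM hy (ρ x) - MM hy (ρ' (y - x)) := by rw [map_sub, map_sub]
      have D1 : ((MM hx).comp ρ' + ℓ.smulRight (MM hx (MM hx (ρ x)))) (y - x) =
          MM hx (ρ' (y - x)) + ℓ (y - x) • MM hx (MM hx (ρ x)) := rfl
      rw [hF y hy, hF x hx, D1, m1, s1, s2, s3, smul_add]
      abel
    rw [e1]
    have b1 : ‖crd OO n (MM hy (ρ y - ρ x - ρ' (y - x)))‖ ≤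
        4 * ‖crd OO n (ρ y - ρ x - ρ' (y - x))‖ := MM_bound hy n _
    have b2 : ‖crd OO n (MM hy (MM hx (MM hx (ρ x))))‖ ≤ 64 * ‖crd OO n (ρ x)‖ := by
      have := MM_bound hy n (MM hx (MM hx (ρ x)))
      have := MM_bound hx n (MM hx (ρ x))
      have := MM_bound hx n (ρ x)
      linarith
    have b3 : ‖crd OO n (MM hy (MM hx (ρ' (y - x))))‖ ≤ 16 * (C * ‖y - x‖) := by
      have := MM_bound hy n (MM hx (ρ' (y - x)))
      have := MM_bound hx n (ρ' (y - x))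
      have := hC (y - x)
      linarith
    rw [map_add, map_add, map_smul, map_smul, map_smul]
    refine (norm_add_le _ _).trans (add_le_add b1 ?_)
    refine (norm_add_le _ _).trans ?_
    rw [norm_smul, norm_smul, norm_smul]
    have c0 := norm_nonneg (y - x)
    have c1 := norm_nonneg (ℓ (y - x))
    calc ‖ℓ (y - x)‖ * (‖ℓ (y - x)‖ * ‖crd OO n (MM hy (MM hx (MM hx (ρ x))))‖) +
          ‖ℓ (y - x)‖ * ‖crd OO n (MM hy (MM hx (ρ' (y - x))))‖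
        ≤ (‖ℓ‖ * ‖y - x‖) * ((‖ℓ‖ * ‖y - x‖) * (64 * ‖crd OO n (ρ x)‖)) +
          (‖ℓ‖ * ‖y - x‖) * (16 * (C * ‖y - x‖)) := by gcongr
      _ = _ := by ring
  have hsmall : (fun y => ‖y - x‖ * ‖y - x‖) =o[𝓝 x] fun y => y - x := by
    have h3 : (fun y : W => ‖y - x‖) =o[𝓝 x] (fun _ => (1 : ℝ)) := by
      rw [isLittleO_one_iff]
      have : Tendsto (fun y : W => ‖y - x‖) (𝓝 x) (𝓝 ‖x - x‖) :=
        ((continuous_id.sub continuous_const).norm).tendsto x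
      simpa using this
    have h4 := h3.mul_isBigO (isBigO_refl (fun y : W => ‖y - x‖) (𝓝 x))
    have h5 : (fun y => ‖y - x‖ * ‖y - x‖) =o[𝓝 x] fun y => ‖y - x‖ := by simpa using h4
    exact h5.of_norm_right
  have hmain : (fun y => 4 * ‖crd OO n (ρ y - ρ x - ρ' (y - x))‖ +
        (64 * ‖ℓ‖ ^ 2 * ‖crd OO n (ρ x)‖ + 16 * ‖ℓ‖ * C) * (‖y - x‖ * ‖y - x‖))
        =o[𝓝 x] fun y => y - x :=
    ((hρ n).norm_left.const_mul_left 4).add (hsmall.const_mul_left _)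
  refine IsBigO.trans_isLittleO ?_ hmain
  refine IsBigO.of_bound 1 ?_
  filter_upwards [hbound] with y hy
  rw [one_mul]
  exact hy.trans (le_abs_self _)

open Classical in
/-- local solution -/
noncomputable def sol (c : ℕ) (ℓ : W →L[ℂ] ℂ) (b : ℂ) (g : W → HS OO) (y : W) :
    HS VV × HS OO :=
  (TT c (g y), if hy : ℓ y + b ∈ Wc c then MM hy (DD (TT c (g y)) - g y) else 0)

lemma sol_spec {c : ℕ} (ℓ : W →L[ℂ] ℂ) (b : ℂ) (g : W → HS OO) {y : W}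
    (hy : ℓ y + b ∈ Wc c) : uu (ℓ y + b) (sol c ℓ b g y) = g y := by
  unfold sol
  rw [dif_pos hy]
  exact uu_solution hy (g y)

lemma sol_diff {c : ℕ} (ℓ : W →L[ℂ] ℂ) (b : ℂ) {g : W → HS OO} {x : W}
    (hx : ℓ x + b ∈ Wc c) (hg : DifferentiableAt ℂ g x) :
    DifferentiableAt ℂ (sol c ℓ b g) x := by
  obtain ⟨g', hg'⟩ := hg
  have h1 : HasFDerivAt (fun y => TT c (g y)) ((TT c).comp g') x := clm_comp_hasFDerivAt _ hg'
  let L : HS OO →L[ℂ] HS OO := DD.comp (TT c) - ContinuousLinearMap.id ℂ _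
  have h2 : HasFDerivAt (fun y => L (g y)) (L.comp g') x := clm_comp_hasFDerivAt _ hg'
  have h3 := MM_hasFDerivAt ℓ b hx h2 (fun y => (sol c ℓ b g y).2) (by
    intro y hy
    unfold sol
    simp only
    rw [dif_pos hy]
    rfl)
  refine ⟨((TT c).comp g').prod ((MM hx).comp (L.comp g') +
    ℓ.smulRight (MM hx (MM hx (L (g x))))), ?_⟩
  rw [hasFDerivAt_iff_isLittleOTVS] at h1 h3 ⊢
  exact h1.prodMk h3

end

end Pool.Agent.Helper68.FrechetLift
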