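import Mathlib

open Filter Topology Set Metric Asymptotics
open scoped Real

namespace Pool.Agent.Helper68.FrechetLift

/-- Cauchy transform of the circle of radius `s`. -/
noncomputable def cau (s : ℝ) (g : ℂ → ℂ) (w : ℂ) : ℂ :=
  (2 * π * Complex.I)⁻¹ * ∮ ζ in C(0, s), (ζ - w)⁻¹ * g ζ

lemma sub_ne_zero_of_sphere {s : ℝ} {w ζ : ℂ} (hw : ‖w‖ ≠ s) (hζ : ζ ∈ sphere (0 : ℂ) s) :
    ζ - w ≠ 0 := by
  intro h
  have : ζ = w := sub_eq_zero.1 h
  rw [mem_sphere_zero_iff_norm] at hζ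
  rw [this] at hζ
  exact hw hζ

lemma abs_le_norm_sub {s : ℝ} {w ζ : ℂ} (hζ : ζ ∈ sphere (0 : ℂ) s) :
    |s - ‖w‖| ≤ ‖ζ - w‖ := by
  rw [mem_sphere_zero_iff_norm] at hζ
  rw [← hζ]
  exact abs_norm_sub_norm_le ζ w

lemma cau_integrable {s : ℝ} (hs : 0 < s) {g : ℂ → ℂ} (hg : ContinuousOn g (sphere 0 s))
    {w : ℂ} (hw : ‖w‖ ≠ s) : CircleIntegrable (fun ζ => (ζ - w)⁻¹ * g ζ) 0 s := by
  apply ContinuousOn.circleIntegrable hs.le
  refine ContinuousOn.mul ?_ hg
  refine ContinuousOn.inv₀ ?_ ?_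
  · exact (continuous_id.sub continuous_const).continuousOn
  · intro ζ hζ
    exact sub_ne_zero_of_sphere hw hζ

lemma cau_add {s : ℝ} (hs : 0 < s) {g h : ℂ → ℂ} (hg : ContinuousOn g (sphere 0 s))
    (hh : ContinuousOn h (sphere 0 s)) {w : ℂ} (hw : ‖w‖ ≠ s) :
    cau s (g + h) w = cau s g w + cau s h w := by
  unfold cau
  rw [← mul_add, ← circleIntegral.integral_add (cau_integrable hs hg hw) (cau_integrable hs hh hw)]
  congr 2
  funext ζ
  simp [mul_add]

lemma cau_smul (s : ℝ) (c : ℂ) (g : ℂ → ℂ) (w : ℂ) :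
    cau s (fun ζ => c * g ζ) w = c * cau s g w := by
  unfold cau
  have : (fun ζ : ℂ => (ζ - w)⁻¹ * (fun ζ => c * g ζ) ζ) = fun ζ => c * ((ζ - w)⁻¹ * g ζ) := by
    funext ζ
    simp only
    ring
  rw [this, circleIntegral.integral_const_mul]
  ring

lemma norm_cau_le {s : ℝ} (hs : 0 < s) {g : ℂ → ℂ} {w : ℂ} {M d : ℝ} (hd : 0 < d)
    (hM : ∀ ζ ∈ sphere (0 : ℂ) s, ‖g ζ‖ ≤ M) (hw : d ≤ |s - ‖w‖|) :
    ‖cau s g w‖ ≤ s * (M / d) := by
  unfold cau
  have h := circleIntegral.norm_two_pi_i_inv_smul_integral_le_of_norm_le_const (c := 0) hs.le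
    (f := fun ζ => (ζ - w)⁻¹ * g ζ) (C := M / d) (by
      intro ζ hζ
      rw [norm_mul, norm_inv, div_eq_inv_mul]
      have h1 : d ≤ ‖ζ - w‖ := hw.trans (abs_le_norm_sub hζ)
      have h2 : 0 ≤ M := (norm_nonneg _).trans (hM ζ hζ)
      gcongr
      exact hM ζ hζ)
  simpa [smul_eq_mul] using h

lemma cau_congr {s : ℝ} (hs : 0 < s) {g h : ℂ → ℂ} (hgh : ∀ ζ ∈ sphere (0 : ℂ) s, g ζ = h ζ)
    (w : ℂ) : cau s g w = cau s h w := by
  unfold cau
  congr 1
  apply circleIntegral.integral_congr hs.le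
  intro ζ hζ
  simp only
  rw [hgh ζ hζ]

lemma cau_differentiableAt {s : ℝ} (hs : 0 < s) {g : ℂ → ℂ} (hg : ContinuousOn g (sphere 0 s))
    {w : ℂ} (hw : ‖w‖ ≠ s) : DifferentiableAt ℂ (cau s g) w := by
  unfold cau
  apply DifferentiableAt.const_mul
  set d : ℝ := |s - ‖w‖| with hd
  have hdpos : 0 < d := abs_pos.2 (sub_ne_zero.2 (Ne.symm hw))
  obtain ⟨M, hM⟩ : ∃ M, ∀ ζ ∈ sphere (0 : ℂ) s, ‖g ζ‖ ≤ M :=
    (isCompact_sphere (0 : ℂ) s).exists_bound_of_continuousOn hg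
  have hint2 : CircleIntegrable (fun ζ => (ζ - w)⁻¹ * ((ζ - w)⁻¹ * g ζ)) 0 s := by
    apply ContinuousOn.circleIntegrable hs.le
    have h1 : ContinuousOn (fun ζ : ℂ => (ζ - w)⁻¹) (sphere 0 s) := by
      refine ContinuousOn.inv₀ ?_ ?_
      · exact (continuous_id.sub continuous_const).continuousOn
      · intro ζ hζ
        exact sub_ne_zero_of_sphere hw hζ
    exact h1.mul (h1.mul hg)
  have key : HasDerivAt (fun w => ∮ ζ in C(0, s), (ζ - w)⁻¹ * g ζ)
      (∮ ζ in C(0, s), (ζ - w)⁻¹ * ((ζ - w)⁻¹ * g ζ)) w := by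
    rw [hasDerivAt_iff_isLittleO]
    have hb : ∀ᶠ w' in 𝓝 w, ‖(∮ ζ in C(0, s), (ζ - w')⁻¹ * g ζ) - (∮ ζ in C(0, s), (ζ - w)⁻¹ * g ζ)
        - (w' - w) • (∮ ζ in C(0, s), (ζ - w)⁻¹ * ((ζ - w)⁻¹ * g ζ))‖
        ≤ (2 * π * s * (M / (d / 2 * d * d))) * ‖(w' - w) ^ 2‖ := by
      filter_upwards [Metric.ball_mem_nhds w (half_pos hdpos)] with w' hw'
      have hw'' : ∀ ζ ∈ sphere (0 : ℂ) s, d / 2 ≤ ‖ζ - w'‖ := by
        intro ζ hζ
        have h1 : d ≤ ‖ζ - w‖ := abs_le_norm_sub hζ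
        have h2 : ‖w' - w‖ < d / 2 := by simpa [dist_eq_norm] using hw'
        have h3 : ‖ζ - w‖ ≤ ‖ζ - w'‖ + ‖w' - w‖ := by
          have : ζ - w = (ζ - w') + (w' - w) := by ring
          rw [this]; exact norm_add_le _ _
        linarith
      have hne : ‖w'‖ ≠ s := by
        intro h
        have := hw'' w' (by simpa using h)
        simp at this
        linarith
      have hi1 := cau_integrable hs hg hne
      have hi2 := cau_integrable hs hg hw
      have hi3 : CircleIntegrable (fun ζ => (w' - w) * ((ζ - w)⁻¹ * ((ζ - w)⁻¹ * g ζ))) 0 s :=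
        hint2.const_smul (a := (w' - w))
      have hi12 : CircleIntegrable (fun ζ => (ζ - w')⁻¹ * g ζ - (ζ - w)⁻¹ * g ζ) 0 s :=
        hi1.sub hi2
      rw [smul_eq_mul, ← circleIntegral.integral_const_mul, ← circleIntegral.integral_sub hi1 hi2,
        ← circleIntegral.integral_sub hi12 hi3, mul_assoc]
      have := circleIntegral.norm_integral_le_of_norm_le_const (c := 0) hs.le
        (f := fun ζ => (ζ - w')⁻¹ * g ζ - (ζ - w)⁻¹ * g ζ
          - (w' - w) * ((ζ - w)⁻¹ * ((ζ - w)⁻¹ * g ζ)))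
        (C := (M / (d / 2 * d * d)) * ‖(w' - w) ^ 2‖) (by
          intro ζ hζ
          have e1 : ζ - w ≠ 0 := sub_ne_zero_of_sphere hw hζ
          have e2 : ζ - w' ≠ 0 := sub_ne_zero_of_sphere hne hζ
          have e3 : (ζ - w')⁻¹ * g ζ - (ζ - w)⁻¹ * g ζ
              - (w' - w) * ((ζ - w)⁻¹ * ((ζ - w)⁻¹ * g ζ)) =
              (g ζ / ((ζ - w') * (ζ - w) * (ζ - w))) * (w' - w) ^ 2 := by
            field_simp
            ring
          rw [e3, norm_mul, norm_div, norm_mul, norm_mul]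
          have h1 : d ≤ ‖ζ - w‖ := abs_le_norm_sub hζ
          have h2 := hw'' ζ hζ
          have h3 : 0 ≤ M := (norm_nonneg _).trans (hM ζ hζ)
          gcongr
          exact hM ζ hζ)
      refine this.trans (le_of_eq ?_)
      ring
    have hO : (fun w' => (∮ ζ in C(0, s), (ζ - w')⁻¹ * g ζ) - (∮ ζ in C(0, s), (ζ - w)⁻¹ * g ζ)
        - (w' - w) • (∮ ζ in C(0, s), (ζ - w)⁻¹ * ((ζ - w)⁻¹ * g ζ))) =O[𝓝 w]
        fun w' => (w' - w) ^ 2 := IsBigO.of_bound _ hb
    refine hO.trans_isLittleO ?_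
    have h2 : (fun w' : ℂ => (w' - w) ^ 2) = fun w' => (w' - w) * (w' - w) := by
      funext w'; ring
    rw [h2]
    have h3 : (fun w' : ℂ => w' - w) =o[𝓝 w] (fun _ => (1 : ℂ)) := by
      rw [isLittleO_one_iff]
      have : Tendsto (fun w' : ℂ => w' - w) (𝓝 w) (𝓝 (w - w)) :=
        (continuous_id.sub continuous_const).tendsto w
      simpa using this
    simpa using h3.mul_isBigO (isBigO_refl (fun w' : ℂ => w' - w) (𝓝 w))
  exact key.differentiableAt

/-- Cauchy's formula on an annulus. -/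
lemma cau_sub_cau {s₁ s₂ : ℝ} (h1 : 0 < s₁) {g : ℂ → ℂ} {w : ℂ}
    (hw1 : s₁ < ‖w‖) (hw2 : ‖w‖ < s₂)
    (hg : ∀ ζ : ℂ, s₁ ≤ ‖ζ‖ → ‖ζ‖ ≤ s₂ → DifferentiableAt ℂ g ζ) :
    cau s₂ g w - cau s₁ g w = g w := by
  have h12 : s₁ < s₂ := hw1.trans hw2
  have h2 : 0 < s₂ := h1.trans h12
  have hgw : DifferentiableAt ℂ g w := hg w hw1.le hw2.le
  have hann := Complex.circleIntegral_eq_of_differentiable_on_annulus_off_countable
    (c := 0) h1 h12.le (f := dslope g w) (s := {w}) (countable_singleton w) (by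
      intro ζ hζ
      have hζ1 : s₁ ≤ ‖ζ‖ := by
        have := hζ.2
        simpa using this
      have hζ2 : ‖ζ‖ ≤ s₂ := by
        have := hζ.1
        simpa using this
      by_cases h : ζ = w
      · rw [h]
        exact (continuousAt_dslope_same.2 hgw).continuousWithinAt
      · exact ((continuousAt_dslope_of_ne h).2 (hg ζ hζ1 hζ2).continuousAt).continuousWithinAt)
    (by
      intro ζ hζ
      have hζ1 : s₁ < ‖ζ‖ := by
        have := hζ.1.2
        simpa using this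
      have hζ2 : ‖ζ‖ < s₂ := by
        have := hζ.1.1
        simpa using this
      have hne : ζ ≠ w := by
        have := hζ.2
        simpa using this
      exact (differentiableAt_dslope_of_ne hne).2 (hg ζ hζ1.le hζ2.le))
  have hc2 : ContinuousOn g (sphere 0 s₂) := fun ζ hζ => by
    rw [mem_sphere_zero_iff_norm] at hζ
    exact (hg ζ (by rw [hζ]; exact h12.le) hζ.le).continuousAt.continuousWithinAt
  have hc1 : ContinuousOn g (sphere 0 s₁) := fun ζ hζ => by
    rw [mem_sphere_zero_iff_norm] at hζ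
    exact (hg ζ hζ.ge (by rw [hζ]; exact h12.le)).continuousAt.continuousWithinAt
  have split : ∀ s : ℝ, 0 < s → ContinuousOn g (sphere 0 s) → ‖w‖ ≠ s →
      (∮ ζ in C(0, s), dslope g w ζ) = (∮ ζ in C(0, s), (ζ - w)⁻¹ * g ζ)
        - (∮ ζ in C(0, s), (ζ - w)⁻¹) * g w := by
    intro s hs hc hne
    have i1 := cau_integrable hs hc hne
    have i2 : CircleIntegrable (fun ζ => (ζ - w)⁻¹ * g w) 0 s :=
      cau_integrable hs (g := fun _ => g w) continuousOn_const hne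
    have : (∮ ζ in C(0, s), (ζ - w)⁻¹) * g w = ∮ ζ in C(0, s), (ζ - w)⁻¹ * g w := by
      rw [mul_comm, ← circleIntegral.integral_const_mul]
      congr 1
      funext ζ
      ring
    rw [this, ← circleIntegral.integral_sub i1 i2]
    apply circleIntegral.integral_congr hs.le
    intro ζ hζ
    have hne' : ζ ≠ w := by
      intro h
      apply sub_ne_zero_of_sphere hne hζ
      rw [h, sub_self]
    simp only
    rw [dslope_of_ne _ hne', slope_def_field, ← mul_sub, div_eq_inv_mul]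
  rw [split s₂ h2 hc2 hw2.ne, split s₁ h1 hc1 hw1.ne'] at hann
  have v2 : (∮ ζ in C(0, s₂), (ζ - w)⁻¹) = 2 * π * Complex.I :=
    circleIntegral.integral_sub_inv_of_mem_ball (by simpa using hw2)
  have v1 : (∮ ζ in C(0, s₁), (ζ - w)⁻¹) = 0 := by
    apply Complex.circleIntegral_eq_zero_of_differentiable_on_off_countable h1.le
      (s := ∅) countable_empty
    · intro ζ hζ
      have : ζ - w ≠ 0 := by
        intro h
        have h' : ζ = w := sub_eq_zero.1 h
        rw [h'] at hζ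
        have : ‖w‖ ≤ s₁ := by simpa using hζ
        linarith
      exact ((continuousAt_id.sub continuousAt_const).inv₀ this).continuousWithinAt
    · intro ζ hζ
      have : ζ - w ≠ 0 := by
        intro h
        have h' : ζ = w := sub_eq_zero.1 h
        rw [h'] at hζ
        have : ‖w‖ < s₁ := by simpa using hζ.1
        linarith
      exact (differentiableAt_id.sub_const w).inv this
  rw [v1, v2, zero_mul, sub_zero] at hann
  unfold cau
  rw [← mul_sub, ← hann]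
  have : (2 * π * Complex.I : ℂ) ≠ 0 := Complex.two_pi_I_ne_zero
  field_simp
  ring

end Pool.Agent.Helper68.FrechetLift
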