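import Pool.Agent.Helper68.FSpace
import Pool.Agent.Helper68.FSplit

open Filter Topology Set Metric Asymptotics
open scoped Real

namespace Pool.Agent.Helper68.FrechetLift

/-- The annuli. -/
def VV (j : ℕ) : Set ℂ := {w | π * j - 1 / 10 < ‖w‖ ∧ ‖w‖ < π * (j + 1) + 1 / 10}

/-- The thin overlap annuli: `OO j` is the overlap of `VV j` and `VV (j+1)`. -/
def OO (j : ℕ) : Set ℂ := {w | π * (j + 1) - 1 / 10 < ‖w‖ ∧ ‖w‖ < π * (j + 1) + 1 / 10}

lemma isOpen_VV (j : ℕ) : IsOpen (VV j) :=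
  (isOpen_lt continuous_const continuous_norm).inter (isOpen_lt continuous_norm continuous_const)

lemma isOpen_OO (j : ℕ) : IsOpen (OO j) :=
  (isOpen_lt continuous_const continuous_norm).inter (isOpen_lt continuous_norm continuous_const)

lemma OO_subset_VV (j : ℕ) : OO j ⊆ VV j := by
  rintro w ⟨h1, h2⟩
  refine ⟨?_, h2⟩
  have := Real.pi_pos
  nlinarith

lemma OO_subset_VV_succ (j : ℕ) : OO j ⊆ VV (j + 1) := by
  rintro w ⟨h1, h2⟩
  have := Real.pi_pos
  refine ⟨by push_cast; exact h1, ?_⟩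
  push_cast
  nlinarith

/-- radius -/
noncomputable def RR (j : ℕ) : ℝ := π * (j + 1)

lemma RR_ge (j : ℕ) : 3 ≤ RR j := by
  have h := Real.pi_gt_three
  have hj : (0 : ℝ) ≤ j := Nat.cast_nonneg j
  unfold RR
  nlinarith

/-- inner part -/
noncomputable def inn (j : ℕ) (g : ℂ → ℂ) (w : ℂ) : ℂ :=
  if ‖w‖ < RR j then cau (RR j + 1 / 20) g w else g w + cau (RR j - 1 / 20) g w

/-- outer part -/
noncomputable def out (j : ℕ) (g : ℂ → ℂ) (w : ℂ) : ℂ := inn j g w - g w

lemma out_eq (j : ℕ) (g : ℂ → ℂ) (w : ℂ) :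
    out j g w = if ‖w‖ < RR j then cau (RR j + 1 / 20) g w - g w else cau (RR j - 1 / 20) g w := by
  unfold out inn
  split_ifs <;> ring

lemma cont_sphere {j : ℕ} {g : ℂ → ℂ} (hg : DifferentiableOn ℂ g (OO j)) {s : ℝ}
    (h1 : RR j - 1 / 10 < s) (h2 : s < RR j + 1 / 10) : ContinuousOn g (sphere 0 s) := by
  intro ζ hζ
  rw [mem_sphere_zero_iff_norm] at hζ
  have hm : ζ ∈ OO j := by
    constructor
    · rw [hζ]; exact h1
    · rw [hζ]; exact h2
  exact (hg.differentiableAt ((isOpen_OO j).mem_nhds hm)).continuousAt.continuousWithinAt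

lemma cauchy_OO {j : ℕ} {g : ℂ → ℂ} (hg : DifferentiableOn ℂ g (OO j)) {w : ℂ}
    (h1 : RR j - 1 / 20 < ‖w‖) (h2 : ‖w‖ < RR j + 1 / 20) :
    cau (RR j + 1 / 20) g w = g w + cau (RR j - 1 / 20) g w := by
  have h3 := RR_ge j
  have := cau_sub_cau (s₁ := RR j - 1 / 20) (s₂ := RR j + 1 / 20) (by linarith) (g := g) h1 h2
    (fun ζ hζ1 hζ2 => hg.differentiableAt ((isOpen_OO j).mem_nhds (by
      constructor
      · change RR j - 1 / 10 < ‖ζ‖; linarith
      · change ‖ζ‖ < RR j + 1 / 10; linarith)))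
  rw [← this]; ring

lemma inn_diff {j : ℕ} {g : ℂ → ℂ} (hg : DifferentiableOn ℂ g (OO j)) {w : ℂ}
    (hw : ‖w‖ < RR j + 1 / 10) : DifferentiableAt ℂ (inn j g) w := by
  have h3 := RR_ge j
  rcases lt_or_ge ‖w‖ (RR j) with h | h
  · have hd : DifferentiableAt ℂ (cau (RR j + 1 / 20) g) w :=
      cau_differentiableAt (by linarith) (cont_sphere hg (by linarith) (by linarith)) (by linarith)
    refine hd.congr_of_eventuallyEq ?_
    filter_upwards [(isOpen_lt continuous_norm continuous_const).mem_nhds h] with w' hw'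
    have hw'' : ‖w'‖ < RR j := hw'
    unfold inn
    rw [if_pos hw'']
  · have hd : DifferentiableAt ℂ (fun w => g w + cau (RR j - 1 / 20) g w) w := by
      refine DifferentiableAt.add ?_ ?_
      · refine hg.differentiableAt ((isOpen_OO j).mem_nhds ⟨?_, hw⟩)
        change RR j - 1 / 10 < ‖w‖; linarith
      · exact cau_differentiableAt (by linarith) (cont_sphere hg (by linarith) (by linarith))
          (by linarith)
    refine hd.congr_of_eventuallyEq ?_
    have hn : {w' : ℂ | RR j - 1 / 20 < ‖w'‖} ∈ 𝓝 w :=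
      (isOpen_lt continuous_const continuous_norm).mem_nhds (by
        change RR j - 1 / 20 < ‖w‖; linarith)
    filter_upwards [hn] with w' hw'
    have hw'' : RR j - 1 / 20 < ‖w'‖ := hw'
    unfold inn
    split_ifs with h5
    · exact cauchy_OO hg hw'' (by linarith)
    · rfl

lemma out_diff {j : ℕ} {g : ℂ → ℂ} (hg : DifferentiableOn ℂ g (OO j)) {w : ℂ}
    (hw : RR j - 1 / 10 < ‖w‖) : DifferentiableAt ℂ (out j g) w := by
  have h3 := RR_ge j
  rcases lt_or_ge (RR j) ‖w‖ with h | h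
  · have hd : DifferentiableAt ℂ (cau (RR j - 1 / 20) g) w :=
      cau_differentiableAt (by linarith) (cont_sphere hg (by linarith) (by linarith)) (by linarith)
    refine hd.congr_of_eventuallyEq ?_
    filter_upwards [(isOpen_lt continuous_const continuous_norm).mem_nhds h] with w' hw'
    have hw'' : RR j < ‖w'‖ := hw'
    rw [out_eq, if_neg (not_lt.2 hw''.le)]
  · refine (inn_diff hg (by linarith)).sub ?_
    refine hg.differentiableAt ((isOpen_OO j).mem_nhds ⟨hw, ?_⟩)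
    change ‖w‖ < RR j + 1 / 10; linarith

/-- the constant -/
noncomputable def KK (j : ℕ) : ℝ := 1 + 20 * (RR j + 1)

lemma KK_nonneg (j : ℕ) : 0 ≤ KK j := by
  have := RR_ge j
  unfold KK; linarith

lemma cau_bound {j : ℕ} {g : ℂ → ℂ} {M : ℝ} (hM : ∀ w ∈ OO j, ‖g w‖ ≤ M) (hM0 : 0 ≤ M)
    {s : ℝ} (h1 : RR j - 1 / 10 < s) (h2 : s < RR j + 1 / 10) {w : ℂ} (hw : 1 / 20 ≤ |s - ‖w‖|) :
    ‖cau s g w‖ ≤ 20 * (RR j + 1) * M := by
  have h3 := RR_ge j
  have := norm_cau_le (s := s) (by linarith) (g := g) (w := w) (M := M) (d := 1 / 20)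
    (by norm_num) (fun ζ hζ => hM ζ (by
      rw [mem_sphere_zero_iff_norm] at hζ
      constructor
      · rw [hζ]; exact h1
      · rw [hζ]; exact h2)) hw
  refine this.trans ?_
  have : s * (M / (1 / 20)) = 20 * s * M := by ring
  rw [this]
  gcongr
  linarith

lemma inn_bound {j : ℕ} {g : ℂ → ℂ} {M : ℝ} (hM : ∀ w ∈ OO j, ‖g w‖ ≤ M) (hM0 : 0 ≤ M)
    {w : ℂ} (hw : ‖w‖ < RR j + 1 / 10) : ‖inn j g w‖ ≤ KK j * M := by
  have h3 := RR_ge j
  unfold inn KK
  split_ifs with h
  · have := cau_bound hM hM0 (s := RR j + 1 / 20) (w := w) (by linarith) (by linarith)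
      (by rw [abs_of_nonneg (by linarith)]; linarith)
    nlinarith
  · have h4 : RR j ≤ ‖w‖ := not_lt.1 h
    have := cau_bound hM hM0 (s := RR j - 1 / 20) (w := w) (by linarith) (by linarith)
      (by rw [abs_of_nonpos (by linarith)]; linarith)
    have h5 := hM w ⟨by change RR j - 1 / 10 < ‖w‖; linarith, hw⟩
    calc ‖g w + cau (RR j - 1 / 20) g w‖ ≤ ‖g w‖ + ‖cau (RR j - 1 / 20) g w‖ := norm_add_le _ _
      _ ≤ M + 20 * (RR j + 1) * M := by linarith
      _ = (1 + 20 * (RR j + 1)) * M := by ring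

lemma out_bound {j : ℕ} {g : ℂ → ℂ} {M : ℝ} (hM : ∀ w ∈ OO j, ‖g w‖ ≤ M) (hM0 : 0 ≤ M)
    {w : ℂ} (hw : RR j - 1 / 10 < ‖w‖) : ‖out j g w‖ ≤ KK j * M := by
  have h3 := RR_ge j
  rw [out_eq]
  unfold KK
  split_ifs with h
  · have := cau_bound hM hM0 (s := RR j + 1 / 20) (w := w) (by linarith) (by linarith)
      (by rw [abs_of_nonneg (by linarith)]; linarith)
    have h5 := hM w ⟨hw, by change ‖w‖ < RR j + 1 / 10; linarith⟩
    calc ‖cau (RR j + 1 / 20) g w - g w‖ ≤ ‖cau (RR j + 1 / 20) g w‖ + ‖g w‖ := norm_sub_le _ _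
      _ ≤ 20 * (RR j + 1) * M + M := by linarith
      _ = (1 + 20 * (RR j + 1)) * M := by ring
  · have h4 : RR j ≤ ‖w‖ := not_lt.1 h
    have := cau_bound hM hM0 (s := RR j - 1 / 20) (w := w) (by linarith) (by linarith)
      (by rw [abs_of_nonpos (by linarith)]; linarith)
    nlinarith

lemma inn_add {j : ℕ} {g h : ℂ → ℂ} (hg : DifferentiableOn ℂ g (OO j))
    (hh : DifferentiableOn ℂ h (OO j)) (w : ℂ) :
    inn j (fun w => g w + h w) w = inn j g w + inn j h w := by
  have h3 := RR_ge j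
  have e : (fun w => g w + h w) = g + h := rfl
  unfold inn
  split_ifs with h4
  · rw [e, cau_add (by linarith) (cont_sphere hg (by linarith) (by linarith))
      (cont_sphere hh (by linarith) (by linarith)) (by linarith)]
  · have h5 : RR j ≤ ‖w‖ := not_lt.1 h4
    rw [e, cau_add (by linarith) (cont_sphere hg (by linarith) (by linarith))
      (cont_sphere hh (by linarith) (by linarith)) (by linarith)]
    simp only [Pi.add_apply]
    ring

lemma inn_smul {j : ℕ} (c : ℂ) (g : ℂ → ℂ) (w : ℂ) :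
    inn j (fun w => c * g w) w = c * inn j g w := by
  unfold inn
  split_ifs
  · rw [cau_smul]
  · rw [cau_smul]; ring

lemma out_add {j : ℕ} {g h : ℂ → ℂ} (hg : DifferentiableOn ℂ g (OO j))
    (hh : DifferentiableOn ℂ h (OO j)) (w : ℂ) :
    out j (fun w => g w + h w) w = out j g w + out j h w := by
  unfold out
  rw [inn_add hg hh]; ring

lemma out_smul {j : ℕ} (c : ℂ) (g : ℂ → ℂ) (w : ℂ) :
    out j (fun w => c * g w) w = c * out j g w := by
  unfold out
  rw [inn_smul]; ring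

end Pool.Agent.Helper68.FrechetLift
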