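import Pool.Agent.Helper68.FOps

open Filter Topology Set Metric Asymptotics
open scoped Real

namespace Pool.Agent.Helper68.FrechetLift

lemma wt_mono {n m i j : ℕ} (h1 : n ≤ m) (h2 : i ≤ j) : wt n i ≤ wt m j := by
  unfold wt
  apply Real.exp_le_exp.2
  have : (1000 : ℝ) ^ i ≤ 1000 ^ j := pow_le_pow_right₀ (by norm_num) h2
  gcongr

lemma wt_succ (n i : ℕ) : wt n (i + 1) = wt (1000 * n) i := by
  unfold wt
  congr 1
  push_cast
  ring

lemma wt_add (n m i : ℕ) : wt (n + m) i = wt n i * wt m i := by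
  unfold wt
  rw [← Real.exp_add]
  congr 1
  push_cast
  ring

lemma KK_le (j : ℕ) : KK j ≤ 101 * wt 1 j := by
  have h1 : ((j : ℝ) + 1) ≤ Real.exp j := Real.add_one_le_exp _
  have h2 : Real.exp j ≤ wt 1 j := by
    unfold wt
    apply Real.exp_le_exp.2
    have : (j : ℕ) < 1000 ^ j := Nat.lt_pow_self (by norm_num)
    have : (j : ℝ) < 1000 ^ j := by exact_mod_cast this
    push_cast
    linarith
  have h3 : KK j ≤ 101 * ((j : ℝ) + 1) := by
    unfold KK RR
    have := Real.pi_lt_four
    have hj : (0 : ℝ) ≤ j := Nat.cast_nonneg j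
    nlinarith
  linarith

/-- parity class -/
def cls (c j : ℕ) : Prop := Even (j + c)

instance (c j : ℕ) : Decidable (cls c j) := by unfold cls; infer_instance

lemma cls_succ (c j : ℕ) : cls c (j + 1) ↔ ¬ cls c j := by
  unfold cls
  rw [show j + 1 + c = (j + c) + 1 by ring, Nat.even_add_one]

open Classical in
/-- The splitting operator on functions. -/
noncomputable def Tfun (c : ℕ) (g : ℕ → ℂ → ℂ) (i : ℕ) (w : ℂ) : ℂ :=
  if w ∈ VV i then
    (if cls c i then - inn i (g i) w else
      match i with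
      | 0 => 0
      | k + 1 => - out k (g k) w)
  else 0

lemma VV_lt {i : ℕ} {w : ℂ} (hw : w ∈ VV i) : ‖w‖ < RR i + 1 / 10 := hw.2

lemma VV_gt {i : ℕ} {w : ℂ} (hw : w ∈ VV (i + 1)) : RR i - 1 / 10 < ‖w‖ := by
  have := hw.1
  push_cast at this
  exact this

lemma sup_bound {g : HS OO} (m j : ℕ) : ∀ w ∈ OO j, ‖ev g j w‖ ≤ ‖crd OO m g‖ / wt m j := by
  intro w _
  rw [le_div_iff₀ (wt_pos m j), mul_comm]
  exact norm_ev_le m g j w

lemma Tfun_bound (c n : ℕ) (g : HS OO) (i : ℕ) (w : ℂ) :
    wt n i * ‖Tfun c (ev g) i w‖ ≤ 101 * ‖crd OO (1000 * n + 1) g‖ := by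
  have hnn : 0 ≤ 101 * ‖crd OO (1000 * n + 1) g‖ := by positivity
  have key : ∀ k : ℕ, wt n (k + 1) * (KK k * (‖crd OO (1000 * n + 1) g‖ / wt (1000 * n + 1) k)) ≤
      101 * ‖crd OO (1000 * n + 1) g‖ := by
    intro k
    rw [wt_succ, wt_add]
    have h1 := KK_le k
    have h2 := wt_pos (1000 * n) k
    have h3 := wt_pos 1 k
    have h4 : wt (1000 * n) k * (KK k * (‖crd OO (1000 * n + 1) g‖ /
        (wt (1000 * n) k * wt 1 k))) = (KK k / wt 1 k) * ‖crd OO (1000 * n + 1) g‖ := by
      field_simp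
    rw [h4]
    have h5 : KK k / wt 1 k ≤ 101 := by
      rw [div_le_iff₀ h3]; exact h1
    gcongr
  unfold Tfun
  split_ifs with hw hc
  · rw [norm_neg]
    have hb := inn_bound (sup_bound (g := g) (1000 * n + 1) i)
      (div_nonneg (norm_nonneg _) (wt_pos _ _).le) (VV_lt hw)
    refine le_trans ?_ (key i)
    have h6 : wt n i ≤ wt n (i + 1) := wt_mono le_rfl (Nat.le_succ i)
    have h7 := wt_pos n (i + 1)
    exact mul_le_mul h6 hb (norm_nonneg _) h7.le
  · cases i with
    | zero => simpa using hnn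
    | succ k =>
      simp only [norm_neg]
      have hb := out_bound (sup_bound (g := g) (1000 * n + 1) k)
        (div_nonneg (norm_nonneg _) (wt_pos _ _).le) (VV_gt hw)
      refine le_trans ?_ (key k)
      have h7 := wt_pos n (k + 1)
      exact mul_le_mul_of_nonneg_left hb h7.le
  · simpa using hnn

lemma Tfun_adm (c : ℕ) (g : HS OO) : Adm VV (Tfun c (ev g)) := by
  refine ⟨fun j w hw => ?_, fun j => ?_, fun n => ⟨_, fun j w _ => Tfun_bound c n g j w⟩⟩
  · unfold Tfun; rw [if_neg hw]
  · intro w hw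
    apply DifferentiableAt.differentiableWithinAt
    have hev : ∀ᶠ w' in 𝓝 w, w' ∈ VV j := (isOpen_VV j).mem_nhds hw
    by_cases hc : cls c j
    · have hd : DifferentiableAt ℂ (fun w => - inn j (ev g j) w) w :=
        (inn_diff (ev_diff g j) (VV_lt hw)).neg
      refine hd.congr_of_eventuallyEq ?_
      filter_upwards [hev] with w' hw'
      unfold Tfun
      rw [if_pos hw', if_pos hc]
    · cases j with
      | zero =>
        refine (differentiableAt_const (0 : ℂ)).congr_of_eventuallyEq ?_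
        filter_upwards [hev] with w' hw'
        unfold Tfun
        rw [if_pos hw', if_neg hc]
      | succ k =>
        have hd : DifferentiableAt ℂ (fun w => - out k (ev g k) w) w :=
          (out_diff (ev_diff g k) (VV_gt hw)).neg
        refine hd.congr_of_eventuallyEq ?_
        filter_upwards [hev] with w' hw'
        unfold Tfun
        rw [if_pos hw', if_neg hc]

/-- The splitting operator. -/
noncomputable def Tlin (c : ℕ) : HS OO →ₗ[ℂ] HS VV where
  toFun g := mkHS (Tfun c (ev g)) (Tfun_adm c g)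
  map_add' g h := by
    apply HS_ext
    intro j w
    rw [ev_add, ev_mkHS, ev_mkHS, ev_mkHS]
    have e : ∀ k, ev (g + h) k = fun w => ev g k w + ev h k w := by
      intro k; funext w; exact ev_add g h k w
    unfold Tfun
    split_ifs with hw hc
    · rw [e, inn_add (ev_diff g j) (ev_diff h j)]; ring
    · cases j with
      | zero => simp
      | succ k =>
        simp only
        rw [e, out_add (ev_diff g k) (ev_diff h k)]; ring
    · simp
  map_smul' a g := by
    apply HS_ext
    intro j w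
    rw [RingHom.id_apply, ev_smul, ev_mkHS, ev_mkHS]
    have e : ∀ k, ev (a • g) k = fun w => a * ev g k w := by
      intro k; funext w; exact ev_smul a g k w
    unfold Tfun
    split_ifs with hw hc
    · rw [e, inn_smul]; ring
    · cases j with
      | zero => simp
      | succ k =>
        simp only
        rw [e, out_smul]; ring
    · simp

lemma squeeze_bound {U U' : ℕ → Set ℂ} (T : HS U → HS U') (n m : ℕ) (C : ℝ)
    (h : ∀ g, ‖crd U' n (T g)‖ ≤ C * ‖crd U m g‖) :
    Tendsto (fun v => ‖crd U' n (T v)‖) (𝓝 0) (𝓝 0) :=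
  squeeze_zero (fun _ => norm_nonneg _) h (tendsto_norm_crd_zero m C)

/-- The splitting operator as a continuous linear map. -/
noncomputable def TT (c : ℕ) : HS OO →L[ℂ] HS VV :=
  mkCLM (Tlin c) (fun n => squeeze_bound (Tlin c) n (1000 * n + 1) 101 (fun g => by
    refine norm_crd_le n _ (by positivity) (fun j w => ?_)
    change wt n j * ‖ev (mkHS (Tfun c (ev g)) (Tfun_adm c g)) j w‖ ≤ _
    rw [ev_mkHS]
    exact Tfun_bound c n g j w))

lemma ev_TT (c : ℕ) (g : HS OO) (j : ℕ) (w : ℂ) : ev (TT c g) j w = Tfun c (ev g) j w :=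
  ev_mkHS _ (Tfun_adm c g) j w

end Pool.Agent.Helper68.FrechetLift
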