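import Mathlib

open Filter Topology Set
open scoped ENNReal NNReal

namespace Pool.Agent.Helper68.FrechetLift

/-- Banach space of bounded complex functions on `ℕ × ℂ`. -/
abbrev X : Type := lp (fun _ : ℕ × ℂ => ℂ) ∞

/-- The weights. -/
noncomputable def wt (n j : ℕ) : ℝ := Real.exp ((n : ℝ) * 1000 ^ j)

lemma wt_pos (n j : ℕ) : 0 < wt n j := Real.exp_pos _

lemma wt_zero (j : ℕ) : wt 0 j = 1 := by simp [wt]

/-- evaluation of a family at `(j, w)` -/
noncomputable def evl (x : ℕ → X) (j : ℕ) (w : ℂ) : ℂ := (x 0 : ∀ _ : ℕ × ℂ, ℂ) (j, w)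

lemma evl_add (x y : ℕ → X) (j : ℕ) (w : ℂ) : evl (x + y) j w = evl x j w + evl y j w := by
  simp [evl]

lemma evl_smul (c : ℂ) (x : ℕ → X) (j : ℕ) (w : ℂ) : evl (c • x) j w = c * evl x j w := by
  simp [evl]

/-- The Fréchet space of sequences of holomorphic functions with superdecay. -/
def HSub (U : ℕ → Set ℂ) : Submodule ℂ (ℕ → X) where
  carrier := {x | (∀ n j w, (x n : ∀ _ : ℕ × ℂ, ℂ) (j, w) = (wt n j : ℂ) * evl x j w) ∧
    (∀ j w, w ∉ U j → evl x j w = 0) ∧ ∀ j, DifferentiableOn ℂ (evl x j) (U j)}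
  add_mem' := by
    rintro x y ⟨hx1, hx2, hx3⟩ ⟨hy1, hy2, hy3⟩
    refine ⟨fun n j w => ?_, fun j w hw => ?_, fun j => ?_⟩
    · rw [evl_add, mul_add, ← hx1, ← hy1]; simp
    · rw [evl_add, hx2 j w hw, hy2 j w hw, add_zero]
    · have : evl (x + y) j = evl x j + evl y j := by
        ext w; exact evl_add x y j w
      rw [this]
      exact (hx3 j).add (hy3 j)
  zero_mem' := by
    refine ⟨fun n j w => ?_, fun j w hw => ?_, fun j => ?_⟩
    · simp [evl]
    · simp [evl]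
    · have : evl 0 j = fun _ => 0 := by
        ext w; simp [evl]
      rw [this]; exact differentiableOn_const 0
  smul_mem' := by
    rintro c x ⟨hx1, hx2, hx3⟩
    refine ⟨fun n j w => ?_, fun j w hw => ?_, fun j => ?_⟩
    · rw [evl_smul, mul_left_comm, ← hx1]; simp
    · rw [evl_smul, hx2 j w hw, mul_zero]
    · have : evl (c • x) j = fun w => c * evl x j w := by
        ext w; exact evl_smul c x j w
      rw [this]
      exact (hx3 j).const_mul c

abbrev HS (U : ℕ → Set ℂ) : Type := ↥(HSub U)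

variable {U U' : ℕ → Set ℂ}

/-- coordinate projection to the Banach space -/
noncomputable def crd (U : ℕ → Set ℂ) (n : ℕ) : HS U →L[ℂ] X :=
  (ContinuousLinearMap.proj n : (ℕ → X) →L[ℂ] X).comp (HSub U).subtypeL

lemma crd_apply (n : ℕ) (x : HS U) : crd U n x = x.1 n := rfl

/-- evaluation on the space -/
noncomputable def ev (x : HS U) (j : ℕ) (w : ℂ) : ℂ := evl x.1 j w

lemma crd_eval (n : ℕ) (x : HS U) (j : ℕ) (w : ℂ) :
    (crd U n x : ∀ _ : ℕ × ℂ, ℂ) (j, w) = (wt n j : ℂ) * ev x j w := x.2.1 n j w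

lemma ev_outside (x : HS U) {j : ℕ} {w : ℂ} (hw : w ∉ U j) : ev x j w = 0 := x.2.2.1 j w hw

lemma ev_diff (x : HS U) (j : ℕ) : DifferentiableOn ℂ (ev x j) (U j) := x.2.2.2 j

lemma norm_ev_le (n : ℕ) (x : HS U) (j : ℕ) (w : ℂ) : wt n j * ‖ev x j w‖ ≤ ‖crd U n x‖ := by
  have h := lp.norm_apply_le_norm (E := fun _ : ℕ × ℂ => ℂ) (p := ∞) (by simp) (crd U n x) (j, w)
  rw [crd_eval, norm_mul, Complex.norm_real, Real.norm_of_nonneg (wt_pos n j).le] at h
  exact h

lemma norm_crd_le (n : ℕ) (x : HS U) {C : ℝ} (hC : 0 ≤ C)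
    (h : ∀ j w, wt n j * ‖ev x j w‖ ≤ C) : ‖crd U n x‖ ≤ C := by
  refine lp.norm_le_of_forall_le hC ?_
  rintro ⟨j, w⟩
  rw [crd_eval, norm_mul, Complex.norm_real, Real.norm_of_nonneg (wt_pos n j).le]
  exact h j w

lemma norm_crd_le' (n : ℕ) (x : HS U) {C : ℝ} (hC : 0 ≤ C)
    (h : ∀ j, ∀ w ∈ U j, wt n j * ‖ev x j w‖ ≤ C) : ‖crd U n x‖ ≤ C := by
  refine norm_crd_le n x hC fun j w => ?_
  by_cases hw : w ∈ U j
  · exact h j w hw
  · rw [ev_outside x hw]; simpa using hC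

lemma HS_ext {x y : HS U} (h : ∀ j w, ev x j w = ev y j w) : x = y := by
  apply Subtype.ext
  funext n
  apply lp.ext
  funext p
  obtain ⟨j, w⟩ := p
  have h1 := crd_eval n x j w
  have h2 := crd_eval n y j w
  rw [crd_apply] at h1 h2
  rw [h1, h2, h j w]

lemma ev_add (x y : HS U) (j : ℕ) (w : ℂ) : ev (x + y) j w = ev x j w + ev y j w :=
  evl_add _ _ _ _

lemma ev_smul (c : ℂ) (x : HS U) (j : ℕ) (w : ℂ) : ev (c • x) j w = c * ev x j w :=
  evl_smul _ _ _ _

lemma ev_sub (x y : HS U) (j : ℕ) (w : ℂ) : ev (x - y) j w = ev x j w - ev y j w := by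
  have : x - y = x + (-1 : ℂ) • y := by
    rw [sub_eq_add_neg]
    congr 1
    exact (neg_one_smul ℂ y).symm
  rw [this, ev_add, ev_smul]; ring

lemma ev_zero (j : ℕ) (w : ℂ) : ev (0 : HS U) j w = 0 := by
  simp [ev, evl]

/-- Data for constructing an element of the space. -/
structure Adm (U : ℕ → Set ℂ) (f : ℕ → ℂ → ℂ) : Prop where
  out : ∀ j w, w ∉ U j → f j w = 0
  diff : ∀ j, DifferentiableOn ℂ (f j) (U j)
  bdd : ∀ n : ℕ, ∃ C : ℝ, ∀ j, ∀ w ∈ U j, wt n j * ‖f j w‖ ≤ C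

lemma Adm.mem {f : ℕ → ℂ → ℂ} (hf : Adm U f) (n : ℕ) :
    Memℓp (fun p : ℕ × ℂ => (wt n p.1 : ℂ) * f p.1 p.2) ∞ := by
  apply memℓp_infty
  obtain ⟨C, hC⟩ := hf.bdd n
  refine ⟨max C 0, ?_⟩
  rintro _ ⟨⟨j, w⟩, rfl⟩
  simp only
  rw [norm_mul, Complex.norm_real, Real.norm_of_nonneg (wt_pos n j).le]
  by_cases hw : w ∈ U j
  · exact (hC j w hw).trans (le_max_left _ _)
  · rw [hf.out j w hw]; simp

/-- The underlying family of a function. -/
noncomputable def fam {f : ℕ → ℂ → ℂ} (hf : Adm U f) : ℕ → X :=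
  fun n => ⟨fun p => (wt n p.1 : ℂ) * f p.1 p.2, hf.mem n⟩

lemma evl_fam {f : ℕ → ℂ → ℂ} (hf : Adm U f) (j : ℕ) (w : ℂ) : evl (fam hf) j w = f j w := by
  simp [evl, fam, wt_zero]

/-- Constructor. -/
noncomputable def mkHS (f : ℕ → ℂ → ℂ) (hf : Adm U f) : HS U :=
  ⟨fam hf, by
    refine ⟨fun n j w => ?_, fun j w hw => ?_, fun j => ?_⟩
    · rw [evl_fam]; rfl
    · rw [evl_fam]; exact hf.out j w hw
    · have : evl (fam hf) j = f j := by
        funext w; exact evl_fam hf j w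
      rw [this]; exact hf.diff j⟩

@[simp] lemma ev_mkHS (f : ℕ → ℂ → ℂ) (hf : Adm U f) (j : ℕ) (w : ℂ) :
    ev (mkHS f hf) j w = f j w := evl_fam hf j w

/-! ### Topology -/

lemma continuous_to_HS_iff {α : Type*} [TopologicalSpace α] {f : α → HS U} :
    Continuous f ↔ ∀ n, Continuous fun a => crd U n (f a) := by
  rw [continuous_induced_rng, continuous_pi_iff]
  rfl

/-- The seminorms. -/
noncomputable def sn (U : ℕ → Set ℂ) (n : ℕ) : Seminorm ℂ (HS U) :=
  (normSeminorm ℂ X).comp (crd U n).toLinearMap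

lemma sn_apply (n : ℕ) (x : HS U) : sn U n x = ‖crd U n x‖ := rfl

lemma withSeminorms_sn (U : ℕ → Set ℂ) : WithSeminorms (sn U) := by
  rw [SeminormFamily.withSeminorms_iff_nhds_eq_iInf]
  rw [nhds_subtype_eq_comap]
  have : ((0 : HS U) : ℕ → X) = fun _ => 0 := rfl
  rw [this, nhds_pi, Filter.pi, Filter.comap_iInf]
  congr 1
  funext n
  rw [Filter.comap_comap]
  have h0 : 𝓝 (0 : X) = Filter.comap (fun x : X => ‖x‖) (𝓝 0) := by
    exact (comap_norm_nhds_zero).symm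
  rw [h0, Filter.comap_comap]
  rfl

lemma isClosed_HSub (hU : ∀ j, IsOpen (U j)) : IsClosed (HSub U : Set (ℕ → X)) := by
  have hev : ∀ n j w, Continuous fun x : ℕ → X => (x n : ∀ _ : ℕ × ℂ, ℂ) (j, w) := by
    intro n j w
    have h1 : Continuous fun x : X => (x : ∀ _ : ℕ × ℂ, ℂ) (j, w) := by
      exact (lp.evalCLM ℂ (fun _ : ℕ × ℂ => ℂ) (p := ∞) (j, w)).continuous
    exact h1.comp (continuous_apply n)
  have hset : (HSub U : Set (ℕ → X)) =
      (⋂ n, ⋂ j, ⋂ w, {x | (x n : ∀ _ : ℕ × ℂ, ℂ) (j, w) = (wt n j : ℂ) * evl x j w}) ∩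
      (⋂ j, ⋂ w, ⋂ (_ : w ∉ U j), {x | evl x j w = 0}) ∩
      (⋂ j, {x | DifferentiableOn ℂ (evl x j) (U j)}) := by
    ext x
    simp only [HSub, mem_inter_iff, mem_iInter]
    constructor
    · rintro ⟨h1, h2, h3⟩
      exact ⟨⟨fun n j w => h1 n j w, fun j w hw => h2 j w hw⟩, fun j => h3 j⟩
    · rintro ⟨⟨h1, h2⟩, h3⟩
      exact ⟨fun n j w => h1 n j w, fun j w hw => h2 j w hw, fun j => h3 j⟩
  rw [hset]
  refine IsClosed.inter (IsClosed.inter ?_ ?_) ?_
  · refine isClosed_iInter fun n => isClosed_iInter fun j => isClosed_iInter fun w => ?_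
    exact isClosed_eq (hev n j w) (continuous_const.mul (hev 0 j w))
  · refine isClosed_iInter fun j => isClosed_iInter fun w => isClosed_iInter fun _ => ?_
    exact isClosed_eq (hev 0 j w) continuous_const
  · refine isClosed_iInter fun j => ?_
    rw [isClosed_iff_clusterPt]
    intro x hx
    have hne : NeBot (𝓝 x ⊓ 𝓟 {x : ℕ → X | DifferentiableOn ℂ (evl x j) (U j)}) := hx
    have hlim : TendstoUniformlyOn (fun (y : ℕ → X) => evl y j) (evl x j)
        (𝓝 x ⊓ 𝓟 {x : ℕ → X | DifferentiableOn ℂ (evl x j) (U j)}) (U j) := by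
      rw [Metric.tendstoUniformlyOn_iff]
      intro ε hε
      have hc : Tendsto (fun y : ℕ → X => y 0) (𝓝 x) (𝓝 (x 0)) := (continuous_apply 0).tendsto x
      have h0 : ∀ᶠ y in 𝓝 x, dist (y 0) (x 0) < ε := by
        have := hc (Metric.ball_mem_nhds (x 0) hε)
        exact this
      filter_upwards [h0.filter_mono inf_le_left] with y hy w hw
      rw [dist_comm, dist_eq_norm]
      rw [dist_eq_norm] at hy
      refine lt_of_le_of_lt ?_ hy
      have := lp.norm_apply_le_norm (E := fun _ : ℕ × ℂ => ℂ) (p := ∞) (by simp)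
        (y 0 - x 0) (j, w)
      simpa [evl] using this
    have hd : ∀ᶠ y in (𝓝 x ⊓ 𝓟 {x : ℕ → X | DifferentiableOn ℂ (evl x j) (U j)}),
        DifferentiableOn ℂ (evl y j) (U j) :=
      Filter.mem_of_superset (Filter.mem_inf_of_right (mem_principal_self _)) (fun y hy => hy)
    exact hlim.tendstoLocallyUniformlyOn.differentiableOn hd (hU j)

lemma completeSpace_HS (hU : ∀ j, IsOpen (U j)) : CompleteSpace (HS U) :=
  (isClosed_HSub hU).completeSpace_coe

/-- Constructor for continuous linear maps. -/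
noncomputable def mkCLM {V : Type*} [AddCommGroup V] [Module ℂ V] [TopologicalSpace V]
    [IsTopologicalAddGroup V]
    (T : V →ₗ[ℂ] HS U') (hT : ∀ n, Tendsto (fun v => ‖crd U' n (T v)‖) (𝓝 0) (𝓝 0)) :
    V →L[ℂ] HS U' :=
  ⟨T, by
    apply continuous_of_continuousAt_zero T
    unfold ContinuousAt
    rw [map_zero, nhds_subtype_eq_comap]
    have : ((0 : HS U') : ℕ → X) = fun _ => 0 := rfl
    rw [this, nhds_pi, tendsto_comap_iff, Filter.tendsto_pi]
    intro n
    rw [tendsto_zero_iff_norm_tendsto_zero]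
    exact hT n⟩

lemma tendsto_norm_crd_zero (m : ℕ) (C : ℝ) :
    Tendsto (fun v : HS U => C * ‖crd U m v‖) (𝓝 0) (𝓝 0) := by
  have : Continuous fun v : HS U => C * ‖crd U m v‖ :=
    continuous_const.mul (crd U m).continuous.norm
  have h := this.tendsto 0
  simpa using h

/-! ### Derivatives -/

lemma isInducing_fam (U : ℕ → Set ℂ) :
    Topology.IsInducing (fun (x : HS U) (n : ℕ) => crd U n x) := by
  constructor
  rfl

lemma isLittleO_iff {α : Type*} {l : Filter α} {W : Type*} [NormedAddCommGroup W]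
    [NormedSpace ℂ W] {f : α → HS U} {g : α → W} :
    f =o[ℂ; l] g ↔ ∀ n, (fun a => crd U n (f a)) =o[l] g := by
  have hT : (fun a => (fun n => crd U n (f a))) =Θ[ℂ; l] f := by
    let T : HS U →L[ℂ] (ℕ → X) := (HSub U).subtypeL
    exact T.isThetaTVS_comp (f := f) (l := l) (isInducing_fam U)
  constructor
  · intro h n
    have h1 := hT.1.trans_isLittleOTVS h
    rw [Asymptotics.isLittleOTVS_pi] at h1
    exact (Asymptotics.isLittleOTVS_iff_isLittleO).1 (h1 n)
  · intro h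
    refine hT.2.trans_isLittleOTVS ?_
    rw [Asymptotics.isLittleOTVS_pi]
    intro n
    exact (Asymptotics.isLittleOTVS_iff_isLittleO).2 (h n)

end Pool.Agent.Helper68.FrechetLift
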