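import Mathlib

/-!
# The super user lemma

A finite linear space with a point `c` (its points other than `c` are `V`, the lines not through
`c` are `G`, `row x` is the line through `x` and `c`), not a near pencil.  `S` is a nonempty set of
points which misses the row of some point `y₀`.  Then some `z ∈ S` satisfies
`1 ≤ ∑ 1 / |g ∩ S|`, the sum over the lines `g ∈ G` through `z`.
-/

set_option autoImplicit false

namespace Pool.Agent.Helper68.LemmaS

variable {α β κ : Type} [DecidableEq α] [DecidableEq β] [DecidableEq κ]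

/-- A nonzero vector which is orthogonal to fewer sets than points. -/
theorem exists_kernel (S : Finset α) (G : Finset β) (mem : α → β → Prop) [DecidableRel mem]
    (hlt : G.card < S.card) :
    ∃ f : α → ℚ, (∃ z ∈ S, f z ≠ 0) ∧ ∀ g ∈ G, ∑ z ∈ S.filter (mem · g), f z = 0 := by
  classical
  let φ : (S → ℚ) →ₗ[ℚ] (G → ℚ) :=
    { toFun := fun f g => ∑ z : S, if mem z.1 g.1 then f z else 0
      map_add' := by
        intro f f'
        funext g
        simp only [Pi.add_apply]
        rw [← Finset.sum_add_distrib]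
        apply Finset.sum_congr rfl
        intro z _
        split_ifs <;> simp
      map_smul' := by
        intro r f
        funext g
        simp only [Pi.smul_apply, smul_eq_mul, RingHom.id_apply]
        rw [Finset.mul_sum]
        apply Finset.sum_congr rfl
        intro z _
        split_ifs <;> simp }
  have hker : LinearMap.ker φ ≠ ⊥ := by
    apply LinearMap.ker_ne_bot_of_finrank_lt
    simpa using hlt
  obtain ⟨f, hf, hf0⟩ := (Submodule.ne_bot_iff _).mp hker
  have hfz : ∃ z : S, f z ≠ 0 := by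
    by_contra h
    push Not at h
    exact hf0 (funext h)
  obtain ⟨z0, hz0⟩ := hfz
  refine ⟨fun z => if h : z ∈ S then f ⟨z, h⟩ else 0, ⟨z0.1, z0.2, by simpa using hz0⟩, ?_⟩
  intro g hg
  have h1 : φ f ⟨g, hg⟩ = 0 := by
    rw [LinearMap.mem_ker.mp hf]
    rfl
  have h2 : ∑ z : S, (if mem z.1 g then f z else 0) = 0 := h1
  rw [Finset.sum_filter, ← Finset.sum_attach S]
  refine Eq.trans ?_ h2
  rw [Finset.univ_eq_attach]
  apply Finset.sum_congr rfl
  rintro ⟨z, hz⟩ _
  simp [hz]

/-- **The super user lemma.** -/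
theorem super (V S : Finset α) (G : Finset β) (mem : α → β → Prop) [DecidableRel mem]
    (row : α → κ) (ln : α → α → β)
    (hSV : S ⊆ V) (hS : S.Nonempty)
    (hln : ∀ x ∈ V, ∀ y ∈ V, row x ≠ row y → ln x y ∈ G ∧ mem x (ln x y) ∧ mem y (ln x y))
    (huniq : ∀ g ∈ G, ∀ g' ∈ G, ∀ x ∈ V, ∀ y ∈ V, x ≠ y → mem x g → mem y g → mem x g' →
      mem y g' → g = g')
    (hrow : ∀ g ∈ G, ∀ x ∈ V, ∀ y ∈ V, x ≠ y → mem x g → mem y g → row x ≠ row y)
    (hnp : ∀ g ∈ G, ∃ x ∈ V, ¬ mem x g)
    (y₀ : α) (hy₀ : y₀ ∈ V) (hy₀S : ∀ z ∈ S, row z ≠ row y₀) :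
    ∃ z ∈ S, (1 : ℚ) ≤ ∑ g ∈ G.filter (mem z ·), 1 / ((S.filter (mem · g)).card : ℚ) := by
  classical
  by_contra hcon
  push Not at hcon
  -- the number of lines meeting `S`
  set GS := G.filter (fun g => (S.filter (mem · g)).Nonempty) with hGS
  have hsum : ∑ z ∈ S, ∑ g ∈ G.filter (mem z ·), 1 / ((S.filter (mem · g)).card : ℚ) =
      (GS.card : ℚ) := by
    have h1 : ∀ z ∈ S, ∑ g ∈ G.filter (mem z ·), 1 / ((S.filter (mem · g)).card : ℚ) =
        ∑ g ∈ G, if mem z g then 1 / ((S.filter (mem · g)).card : ℚ) else 0 := by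
      intro z _
      rw [Finset.sum_filter]
    rw [Finset.sum_congr rfl h1, Finset.sum_comm]
    have h2 : ∀ g ∈ G, (∑ z ∈ S, if mem z g then 1 / ((S.filter (mem · g)).card : ℚ) else 0) =
        if (S.filter (mem · g)).Nonempty then 1 else 0 := by
      intro g _
      rw [← Finset.sum_filter, Finset.sum_const, nsmul_eq_mul]
      split_ifs with h
      · have : ((S.filter (mem · g)).card : ℚ) ≠ 0 := by
          have := h.card_pos
          positivity
        rw [mul_one_div_cancel this]
      · rw [Finset.not_nonempty_iff_eq_empty] at h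
        rw [h]
        simp
    rw [Finset.sum_congr rfl h2, ← Finset.sum_filter, Finset.sum_const, nsmul_eq_mul, mul_one]
  have hlt : GS.card < S.card := by
    have h1 : ∑ z ∈ S, ∑ g ∈ G.filter (mem z ·), 1 / ((S.filter (mem · g)).card : ℚ) <
        ∑ z ∈ S, (1 : ℚ) := Finset.sum_lt_sum_of_nonempty hS (fun z hz => hcon z hz)
    rw [hsum, Finset.sum_const, nsmul_eq_mul, mul_one] at h1
    exact_mod_cast h1
  obtain ⟨f, ⟨z1, hz1, hfz1⟩, hf⟩ := exists_kernel S GS mem hlt
  have hF : ∀ g ∈ G, ∑ z ∈ S.filter (mem · g), f z = 0 := by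
    intro g hg
    by_cases h : (S.filter (mem · g)).Nonempty
    · exact hf g (Finset.mem_filter.mpr ⟨hg, h⟩)
    · rw [Finset.not_nonempty_iff_eq_empty] at h
      rw [h]
      simp
  -- number of lines through two points
  have hcnt : ∀ p ∈ V, ∀ z ∈ V, z ≠ p →
      ((G.filter (mem p ·)).filter (mem z ·)).card = if row z = row p then 0 else 1 := by
    intro p hp z hz hzp
    split_ifs with h
    · rw [Finset.card_eq_zero, Finset.filter_eq_empty_iff]
      intro g hg hzg
      rw [Finset.mem_filter] at hg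
      exact hrow g hg.1 z hz p hp hzp hzg hg.2 h
    · rw [Finset.card_eq_one]
      obtain ⟨h1, h2, h3⟩ := hln z hz p hp h
      refine ⟨ln z p, ?_⟩
      ext g
      rw [Finset.mem_filter, Finset.mem_filter, Finset.mem_singleton]
      constructor
      · rintro ⟨⟨h4, h5⟩, h6⟩
        exact huniq g h4 _ h1 z hz p hp hzp h6 h5 h2 h3
      · rintro rfl
        exact ⟨⟨h1, h3⟩, h2⟩
  have hpt : ∀ p ∈ V, (if p ∈ S then ((G.filter (mem p ·)).card : ℚ) * f p else 0) +
      ∑ z ∈ S.filter (fun z => row z ≠ row p), f z = 0 := by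
    intro p hp
    have h1 : ∑ g ∈ G.filter (mem p ·), ∑ z ∈ S.filter (mem · g), f z = 0 :=
      Finset.sum_eq_zero fun g hg => hF g (Finset.mem_filter.mp hg).1
    have h2 : ∑ g ∈ G.filter (mem p ·), ∑ z ∈ S.filter (mem · g), f z =
        ∑ z ∈ S, (((G.filter (mem p ·)).filter (mem z ·)).card : ℚ) * f z := by
      have h3 : ∀ g ∈ G.filter (mem p ·), ∑ z ∈ S.filter (mem · g), f z =
          ∑ z ∈ S, if mem z g then f z else 0 := fun g _ => Finset.sum_filter _ _
      rw [Finset.sum_congr rfl h3, Finset.sum_comm]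
      apply Finset.sum_congr rfl
      intro z _
      rw [← Finset.sum_filter, Finset.sum_const, nsmul_eq_mul]
    rw [h2] at h1
    refine Eq.trans ?_ h1
    have h4 : ∀ z ∈ S, (((G.filter (mem p ·)).filter (mem z ·)).card : ℚ) * f z =
        (if z = p then ((G.filter (mem p ·)).card : ℚ) * f p else 0) +
          (if row z ≠ row p then f z else 0) := by
      intro z hz
      by_cases hzp : z = p
      · subst hzp
        rw [if_pos rfl, if_neg (by simp), add_zero, Finset.filter_filter]
        simp only [and_self]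
      · rw [hcnt p hp z (hSV hz) hzp, if_neg hzp, zero_add]
        by_cases hr : row z = row p
        · simp [hr]
        · simp [hr]
    rw [Finset.sum_congr rfl h4, Finset.sum_add_distrib, Finset.sum_ite_eq' S p, ← Finset.sum_filter]
  set w : α → ℕ := fun p => (G.filter (mem p ·)).card with hw
  set R : κ → ℚ := fun i => ∑ z ∈ S.filter (fun z => row z = i), f z with hR
  set Si : κ → Finset α := fun i => S.filter (fun z => row z = i) with hSi
  have htot : ∑ z ∈ S, f z = 0 := by
    have h1 := hpt y₀ hy₀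
    have h2 : y₀ ∉ S := fun h => hy₀S y₀ h rfl
    rw [if_neg h2, zero_add, Finset.filter_true_of_mem (fun z hz => hy₀S z hz)] at h1
    exact h1
  have hwf : ∀ p ∈ S, (w p : ℚ) * f p = R (row p) := by
    intro p hp
    have h1 := hpt p (hSV hp)
    rw [if_pos hp] at h1
    have h2 : R (row p) + ∑ z ∈ S.filter (fun z => row z ≠ row p), f z = 0 := by
      rw [← htot]
      exact Finset.sum_filter_add_sum_filter_not S (fun z => row z = row p) f
    have h3 : (w p : ℚ) * f p = ((G.filter (mem p ·)).card : ℚ) * f p := rfl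
    rw [h3]
    linarith
  have hw1 : ∀ p ∈ S, 1 ≤ w p := by
    intro p hp
    obtain ⟨h1, h2, h3⟩ := hln p (hSV hp) y₀ hy₀ (hy₀S p hp)
    exact Finset.card_pos.mpr ⟨_, Finset.mem_filter.mpr ⟨h1, h2⟩⟩
  -- joining a point to a set of points of one row
  have hjoin : ∀ p ∈ V, ∀ j, row p ≠ j → ∀ z ∈ Si j, ln p z ∈ G ∧ mem p (ln p z) ∧
      mem z (ln p z) := by
    intro p hp j hpj z hz
    rw [hSi, Finset.mem_filter] at hz
    exact hln p hp z (hSV hz.1) (by rw [hz.2]; exact hpj)
  have hjinj : ∀ p ∈ V, ∀ j, row p ≠ j → Set.InjOn (ln p) (Si j) := by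
    intro p hp j hpj z hz z' hz' e
    by_contra hne
    obtain ⟨h1, h2, h3⟩ := hjoin p hp j hpj z hz
    obtain ⟨h4, h5, h6⟩ := hjoin p hp j hpj z' hz'
    have hz2 := Finset.mem_filter.mp (Finset.mem_coe.mp hz)
    have hz3 := Finset.mem_filter.mp (Finset.mem_coe.mp hz')
    rw [← e] at h6
    exact hrow _ h1 z (hSV hz2.1) z' (hSV hz3.1) hne h3 h6 (by rw [hz2.2, hz3.2])
  have hwge : ∀ p ∈ V, ∀ j, row p ≠ j → (Si j).card ≤ w p := by
    intro p hp j hpj
    rw [← Finset.card_image_of_injOn (hjinj p hp j hpj)]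
    apply Finset.card_le_card
    intro g hg
    obtain ⟨z, hz, rfl⟩ := Finset.mem_image.mp hg
    obtain ⟨h1, h2, h3⟩ := hjoin p hp j hpj z hz
    exact Finset.mem_filter.mpr ⟨h1, h2⟩
  -- the sum over a critical row
  have hcrit : ∀ i, R i ≠ 0 → ∑ z ∈ Si i, (1 : ℚ) / w z = 1 := by
    intro i hi
    have h1 : R i = R i * ∑ z ∈ Si i, (1 : ℚ) / w z := by
      rw [Finset.mul_sum]
      apply Finset.sum_congr rfl
      intro z hz0
      have hz := Finset.mem_filter.mp hz0
      have h2 := hwf z hz.1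
      rw [hz.2] at h2
      have h3 : (w z : ℚ) ≠ 0 := by
        have := hw1 z hz.1
        positivity
      rw [← h2]
      field_simp
    have h4 : R i * (∑ z ∈ Si i, (1 : ℚ) / w z - 1) = 0 := by linarith
    rcases mul_eq_zero.mp h4 with h5 | h5
    · exact absurd h5 hi
    · linarith
  have hne : ∀ i, R i ≠ 0 → 0 < (Si i).card := by
    intro i hi
    rw [Finset.card_pos]
    by_contra h
    rw [Finset.not_nonempty_iff_eq_empty] at h
    apply hi
    have : R i = ∑ z ∈ Si i, f z := rfl
    rw [this, h]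
    simp
  have hle : ∀ i j, i ≠ j → R i ≠ 0 → R j ≠ 0 → (Si j).card ≤ (Si i).card := by
    intro i j hij hi hj
    have h1 := hcrit i hi
    have h2 : ∑ z ∈ Si i, (1 : ℚ) / w z ≤ ∑ z ∈ Si i, (1 : ℚ) / (Si j).card := by
      apply Finset.sum_le_sum
      intro z hz
      have hz' := Finset.mem_filter.mp hz
      have h3 := hwge z (hSV hz'.1) j (by rw [hz'.2]; exact hij)
      have h4 := hne j hj
      apply one_div_le_one_div_of_le
      · exact_mod_cast h4
      · exact_mod_cast h3
    rw [h1, Finset.sum_const, nsmul_eq_mul, mul_one_div, le_div_iff₀ (by exact_mod_cast hne j hj),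
      one_mul] at h2
    exact_mod_cast h2
  -- two critical rows
  have hi1 : R (row z1) ≠ 0 := by
    rw [← hwf z1 hz1]
    have := hw1 z1 hz1
    have h2 : (w z1 : ℚ) ≠ 0 := by positivity
    exact mul_ne_zero h2 hfz1
  obtain ⟨i', hi', hR'⟩ : ∃ i', row z1 ≠ i' ∧ R i' ≠ 0 := by
    by_contra h
    push Not at h
    have h1 : ∑ z ∈ S, f z = ∑ i ∈ S.image row, R i := by
      rw [Finset.sum_image']
      intro z hz
      rfl
    rw [htot, Finset.sum_eq_single (row z1) (fun j _ hj => h j hj.symm)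
      (fun h2 => absurd (Finset.mem_image_of_mem row hz1) h2)] at h1
    exact hi1 h1.symm
  set i := row z1 with hi
  set μ := (Si i).card with hμ
  have hμ' : (Si i').card = μ :=
    le_antisymm (hle i i' hi' hi1 hR') (hle i' i hi'.symm hR' hi1)
  have hμ0 : 0 < μ := hne i hi1
  -- degrees on the two rows
  have hdeg : ∀ a b, a ≠ b → R a ≠ 0 → (Si a).card = μ → (Si b).card = μ →
      ∀ z ∈ Si a, w z = μ := by
    intro a b hab ha ha1 hb1 z hz
    have h1 := hcrit a ha
    have hge : ∀ z ∈ Si a, μ ≤ w z := by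
      intro z hz
      have hz' := Finset.mem_filter.mp hz
      rw [← hb1]
      exact hwge z (hSV hz'.1) b (by rw [hz'.2]; exact hab)
    by_contra hne'
    have hlt' : μ < w z := lt_of_le_of_ne (hge z hz) (Ne.symm hne')
    have h2 : ∑ z ∈ Si a, (1 : ℚ) / w z < ∑ z ∈ Si a, (1 : ℚ) / μ := by
      apply Finset.sum_lt_sum
      · intro y hy
        apply one_div_le_one_div_of_le
        · exact_mod_cast hμ0
        · exact_mod_cast hge y hy
      · refine ⟨z, hz, ?_⟩
        apply one_div_lt_one_div_of_lt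
        · exact_mod_cast hμ0
        · exact_mod_cast hlt'
    rw [h1, Finset.sum_const, nsmul_eq_mul, ha1, mul_one_div_cancel (by positivity)] at h2
    exact lt_irrefl _ h2
  have hsurj : ∀ a b, a ≠ b → R a ≠ 0 → (Si a).card = μ → (Si b).card = μ →
      ∀ z ∈ Si a, ∀ g ∈ G, mem z g → ∃ z' ∈ Si b, mem z' g := by
    intro a b hab ha ha1 hb1 z hz g hg hzg
    have hz' := Finset.mem_filter.mp hz
    have hrz : row z ≠ b := by rw [hz'.2]; exact hab
    have h1 : (Si b).image (ln z) = G.filter (mem z ·) := by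
      apply Finset.eq_of_subset_of_card_le
      · intro g' hg'
        obtain ⟨y, hy, rfl⟩ := Finset.mem_image.mp hg'
        obtain ⟨h1, h2, h3⟩ := hjoin z (hSV hz'.1) b hrz y hy
        exact Finset.mem_filter.mpr ⟨h1, h2⟩
      · rw [Finset.card_image_of_injOn (hjinj z (hSV hz'.1) b hrz), hb1]
        exact (hdeg a b hab ha ha1 hb1 z hz).le
    have h2 : g ∈ (Si b).image (ln z) := by
      rw [h1]
      exact Finset.mem_filter.mpr ⟨hg, hzg⟩
    obtain ⟨y, hy, rfl⟩ := Finset.mem_image.mp h2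
    exact ⟨y, hy, (hjoin z (hSV hz'.1) b hrz y hy).2.2⟩
  -- the set of lines meeting the critical rows
  set Gs := G.filter (fun g => ∃ z ∈ Si i, mem z g) with hGs
  have hGs' : ∀ g ∈ G, (∃ z ∈ Si i, mem z g) ↔ (∃ z ∈ Si i', mem z g) := by
    intro g hg
    constructor
    · rintro ⟨z, hz, hzg⟩
      exact hsurj i i' hi' hi1 rfl hμ' z hz g hg hzg
    · rintro ⟨z, hz, hzg⟩
      exact hsurj i' i hi'.symm hR' hμ' rfl z hz g hg hzg
  have hgen : ∀ p ∈ V, ∀ j, (j = i ∨ j = i') → row p ≠ j →
      (Gs.filter (mem p ·)).card = μ := by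
    intro p hp j hj hpj
    have hjμ : (Si j).card = μ := by
      rcases hj with rfl | rfl
      · rfl
      · exact hμ'
    have hjG : ∀ g ∈ G, (∃ z ∈ Si i, mem z g) ↔ (∃ z ∈ Si j, mem z g) := by
      intro g hg
      rcases hj with rfl | rfl
      · rfl
      · exact hGs' g hg
    rw [← hjμ, ← Finset.card_image_of_injOn (hjinj p hp j hpj)]
    congr 1
    ext g
    rw [Finset.mem_filter, hGs, Finset.mem_filter, Finset.mem_image]
    constructor
    · rintro ⟨⟨h1, h2⟩, h3⟩
      obtain ⟨z, hz, hzg⟩ := (hjG g h1).mp h2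
      refine ⟨z, hz, ?_⟩
      obtain ⟨h4, h5, h6⟩ := hjoin p hp j hpj z hz
      have hz' := Finset.mem_filter.mp hz
      exact huniq _ h4 _ h1 p hp z (hSV hz'.1) (fun e => hpj (by rw [e]; exact hz'.2)) h5 h6 h3 hzg
    · rintro ⟨z, hz, rfl⟩
      obtain ⟨h4, h5, h6⟩ := hjoin p hp j hpj z hz
      exact ⟨⟨h4, (hjG _ h4).mpr ⟨z, hz, h6⟩⟩, h5⟩
  have hall : ∀ p ∈ V, (Gs.filter (mem p ·)).card = μ := by
    intro p hp
    by_cases h : row p = i
    · exact hgen p hp i' (Or.inr rfl) (by rw [h]; exact hi')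
    · exact hgen p hp i (Or.inl rfl) h
  have hcardGs : Gs.card = μ * μ := by
    have h1 : Gs = (Si i).biUnion (fun z => Gs.filter (mem z ·)) := by
      ext g
      rw [Finset.mem_biUnion]
      constructor
      · intro hg
        obtain ⟨z, hz, hzg⟩ := (Finset.mem_filter.mp hg).2
        exact ⟨z, hz, Finset.mem_filter.mpr ⟨hg, hzg⟩⟩
      · rintro ⟨z, _, hz⟩
        exact (Finset.mem_filter.mp hz).1
    rw [h1, Finset.card_biUnion]
    · rw [Finset.sum_congr rfl (fun z hz =>
        hall z (hSV (Finset.mem_filter.mp hz).1)), Finset.sum_const, smul_eq_mul]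
    · intro z hz z' hz' hne
      change Disjoint (Gs.filter (mem z ·)) (Gs.filter (mem z' ·))
      rw [Finset.disjoint_left]
      intro g hg hg'
      have h2 := Finset.mem_filter.mp hg
      have h3 := Finset.mem_filter.mp hg'
      have h4 := (Finset.mem_filter.mp h2.1).1
      have hz2 := Finset.mem_filter.mp hz
      have hz3 := Finset.mem_filter.mp hz'
      exact hrow g h4 z (hSV hz2.1) z' (hSV hz3.1) hne h2.2 h3.2 (by rw [hz2.2, hz3.2])
  -- points on a line
  have hptsum : ∀ g ∈ G, ∑ p ∈ V.filter (mem · g), ((Gs.filter (mem p ·)).erase g).card ≤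
      (Gs.erase g).card := by
    intro g hg
    rw [← Finset.card_biUnion]
    · apply Finset.card_le_card
      intro g' hg'
      obtain ⟨p, _, h1⟩ := Finset.mem_biUnion.mp hg'
      rw [Finset.mem_erase, Finset.mem_filter] at h1
      exact Finset.mem_erase.mpr ⟨h1.1, h1.2.1⟩
    · intro p hp p' hp' hne
      change Disjoint ((Gs.filter (mem p ·)).erase g) ((Gs.filter (mem p' ·)).erase g)
      rw [Finset.disjoint_left]
      intro g' h1 h2
      rw [Finset.mem_erase, Finset.mem_filter] at h1 h2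
      have hp2 := Finset.mem_filter.mp hp
      have hp3 := Finset.mem_filter.mp hp'
      exact h1.1 (huniq g' (Finset.mem_filter.mp h1.2.1).1 g hg p hp2.1 p' hp3.1 hne
        h1.2.2 h2.2.2 hp2.2 hp3.2)
  have hμ2 : 2 ≤ μ := by
    by_contra h
    have h1 : μ = 1 := by omega
    rw [h1] at hcardGs
    obtain ⟨g0, hg0⟩ := Finset.card_eq_one.mp hcardGs
    have hg0G : g0 ∈ G := by
      have : g0 ∈ Gs := by rw [hg0]; exact Finset.mem_singleton_self _
      exact (Finset.mem_filter.mp this).1
    obtain ⟨x, hx, hxg⟩ := hnp g0 hg0G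
    have h2 := hall x hx
    rw [h1] at h2
    obtain ⟨g1, hg1⟩ := Finset.card_eq_one.mp h2
    have h3 : g1 ∈ Gs.filter (mem x ·) := by rw [hg1]; exact Finset.mem_singleton_self _
    rw [Finset.mem_filter, hg0, Finset.mem_singleton] at h3
    exact hxg (h3.1 ▸ h3.2)
  have hon : ∀ g ∈ Gs, (V.filter (mem · g)).card ≤ μ + 1 := by
    intro g hg
    have hgG := (Finset.mem_filter.mp hg).1
    have h1 := hptsum g hgG
    have h2 : ∀ p ∈ V.filter (mem · g), ((Gs.filter (mem p ·)).erase g).card = μ - 1 := by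
      intro p hp
      rw [Finset.mem_filter] at hp
      rw [Finset.card_erase_of_mem (Finset.mem_filter.mpr ⟨hg, hp.2⟩), hall p hp.1]
    rw [Finset.sum_congr rfl h2, Finset.sum_const, smul_eq_mul, Finset.card_erase_of_mem hg,
      hcardGs] at h1
    obtain ⟨m, hm⟩ : ∃ m, μ = m + 2 := ⟨μ - 2, by omega⟩
    rw [hm] at h1 ⊢
    have h3 : (m + 2) * (m + 2) - 1 = (m + 3) * (m + 1) := by
      have : (m + 2) * (m + 2) = (m + 3) * (m + 1) + 1 := by ring
      omega
    have h4 : m + 2 - 1 = m + 1 := by omega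
    rw [h3, h4] at h1
    have h5 := Nat.le_of_mul_le_mul_right h1 (by omega)
    omega
  have hoff : ∀ g ∈ G, g ∉ Gs → (V.filter (mem · g)).card ≤ μ := by
    intro g hgG hg
    have h1 := hptsum g hgG
    have h2 : ∀ p ∈ V.filter (mem · g), ((Gs.filter (mem p ·)).erase g).card = μ := by
      intro p hp
      rw [Finset.mem_filter] at hp
      rw [Finset.erase_eq_of_notMem (fun h => hg (Finset.mem_filter.mp h).1), hall p hp.1]
    rw [Finset.sum_congr rfl h2, Finset.sum_const, smul_eq_mul, Finset.erase_eq_of_notMem hg,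
      hcardGs] at h1
    exact Nat.le_of_mul_le_mul_right h1 hμ0
  -- all lines which meet `S` are in `Gs`
  have hin : ∀ z ∈ S, ∀ g ∈ G, mem z g → g ∈ Gs := by
    intro z hz g hgG hzg
    by_contra hg
    have h1 := hcon z hz
    have hsub : insert g (Gs.filter (mem z ·)) ⊆ G.filter (mem z ·) := by
      intro g' hg'
      rcases Finset.mem_insert.mp hg' with rfl | h2
      · exact Finset.mem_filter.mpr ⟨hgG, hzg⟩
      · rw [Finset.mem_filter] at h2
        exact Finset.mem_filter.mpr ⟨(Finset.mem_filter.mp h2.1).1, h2.2⟩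
    have h2 : ∑ g' ∈ insert g (Gs.filter (mem z ·)), 1 / ((S.filter (mem · g')).card : ℚ) ≤
        ∑ g' ∈ G.filter (mem z ·), 1 / ((S.filter (mem · g')).card : ℚ) :=
      Finset.sum_le_sum_of_subset_of_nonneg hsub (fun _ _ _ => by positivity)
    rw [Finset.sum_insert (fun h => hg (Finset.mem_filter.mp h).1)] at h2
    have hcl : ∀ g', (S.filter (mem · g')).card ≤ (V.filter (mem · g')).card :=
      fun g' => Finset.card_le_card (Finset.filter_subset_filter _ hSV)
    have hpos : ∀ g', mem z g' → 0 < (S.filter (mem · g')).card :=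
      fun g' h => Finset.card_pos.mpr ⟨z, Finset.mem_filter.mpr ⟨hz, h⟩⟩
    have h3 : (1 : ℚ) / μ ≤ 1 / ((S.filter (mem · g)).card : ℚ) := by
      apply one_div_le_one_div_of_le
      · exact_mod_cast hpos g hzg
      · exact_mod_cast (hcl g).trans (hoff g hgG hg)
    have h4 : (μ : ℚ) * (1 / (μ + 1)) ≤
        ∑ g' ∈ Gs.filter (mem z ·), 1 / ((S.filter (mem · g')).card : ℚ) := by
      rw [← hall z (hSV hz), ← nsmul_eq_mul]
      apply Finset.card_nsmul_le_sum
      intro g' hg'
      rw [Finset.mem_filter] at hg'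
      rw [hall z (hSV hz)]
      apply one_div_le_one_div_of_le
      · exact_mod_cast hpos g' hg'.2
      · exact_mod_cast (hcl g').trans (hon g' hg'.1)
    have hμQ : (0 : ℚ) < μ := by exact_mod_cast hμ0
    have h5 : (1 : ℚ) ≤ 1 / μ + (μ : ℚ) * (1 / (μ + 1)) := by
      have h6 : (1 : ℚ) / μ + (μ : ℚ) * (1 / (μ + 1)) - 1 = 1 / (μ * (μ + 1)) := by
        field_simp
        ring
      have h7 : (0 : ℚ) ≤ 1 / (μ * (μ + 1)) := by positivity
      linarith
    linarith
  -- conclusion
  have hScard : S.card ≤ μ * μ := by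
    have h1 : S ⊆ (Gs.filter (mem y₀ ·)).biUnion (fun g => S.filter (mem · g)) := by
      intro z hz
      obtain ⟨h2, h3, h4⟩ := hln z (hSV hz) y₀ hy₀ (hy₀S z hz)
      exact Finset.mem_biUnion.mpr ⟨ln z y₀, Finset.mem_filter.mpr ⟨hin z hz _ h2 h3, h4⟩,
        Finset.mem_filter.mpr ⟨hz, h3⟩⟩
    calc S.card ≤ _ := Finset.card_le_card h1
      _ ≤ ∑ g ∈ Gs.filter (mem y₀ ·), (S.filter (mem · g)).card := Finset.card_biUnion_le
      _ ≤ ∑ g ∈ Gs.filter (mem y₀ ·), μ := by
          apply Finset.sum_le_sum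
          intro g hg
          rw [Finset.mem_filter] at hg
          have h2 : S.filter (mem · g) ⊆ (V.filter (mem · g)).erase y₀ := by
            intro z hz
            rw [Finset.mem_filter] at hz
            refine Finset.mem_erase.mpr ⟨?_, Finset.mem_filter.mpr ⟨hSV hz.1, hz.2⟩⟩
            rintro rfl
            exact hy₀S _ hz.1 rfl
          have h3 := Finset.card_le_card h2
          rw [Finset.card_erase_of_mem (Finset.mem_filter.mpr ⟨hy₀, hg.2⟩)] at h3
          have h4 := hon g hg.1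
          omega
      _ = μ * μ := by rw [Finset.sum_const, smul_eq_mul, hall y₀ hy₀]
  have hGsle : Gs ⊆ GS := by
    intro g hg
    obtain ⟨hgG, z, hz, hzg⟩ := Finset.mem_filter.mp hg
    exact Finset.mem_filter.mpr ⟨hgG, z, Finset.mem_filter.mpr ⟨(Finset.mem_filter.mp hz).1, hzg⟩⟩
  have := Finset.card_le_card hGsle
  omega

end Pool.Agent.Helper68.LemmaS
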