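import Pool.Agent.Helper68.PSClosure

/-!
Closure properties of the least good class, second part: attaching copies of a structure.
-/

namespace PosSOP

universe u v w

/-- A copy of `Q` is attached to every vertex `v` of `F`, the nodes in the face of `v` belong to
all faces of the copy. -/
def Attach {V : Type u} {U : Type v} (Q : Str U) (F : Str V) : Str (V ⊕ V × U) where
  E := fun x y => match x, y with
    | .inl x, .inl y => F.E x y
    | .inr p, .inl y => F.E p.1 y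
    | .inr p, .inr q => p.1 = q.1 ∧ Q.E p.2 q.2
    | .inl _, .inr _ => False
  R := fun x y => match x, y with
    | .inl x, .inl y => F.R x y
    | .inr p, .inr q => p.1 = q.1 ∧ Q.R p.2 q.2
    | _, _ => False

lemma Attach.hom {V : Type u} {V' : Type v} {U : Type w} (Q : Str U)
    {F : Str V} {G : Str V'} {f g : V → V'} (h : Hom F G f g) :
    Hom (Attach Q F) (Attach Q G) (Sum.map f (Prod.map f id)) (Sum.map g (Prod.map f id)) := by
  constructor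
  · rintro (x | x) (y | y) hxy
    · exact h.e x y hxy
    · exact hxy.elim
    · exact h.e x.1 y hxy
    · exact ⟨congrArg f hxy.1, hxy.2⟩
  · rintro (x | x) (y | y) hxy
    · exact h.r x y hxy
    · exact hxy.elim
    · exact hxy.elim
    · exact ⟨congrArg f hxy.1, hxy.2⟩

section attach

variable {U C B D W : Type}

/-- Reindexing for `Φ`. -/
def b1 : (C ⊕ B ⊕ D) ⊕ (C ⊕ B ⊕ D) × U → (C ⊕ C × U) ⊕ (B ⊕ B × U) ⊕ (D ⊕ D × U)
  | .inl (.inl c) => .inl (.inl c)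
  | .inl (.inr (.inl b)) => .inr (.inl (.inl b))
  | .inl (.inr (.inr d)) => .inr (.inr (.inl d))
  | .inr (.inl c, q) => .inl (.inr (c, q))
  | .inr (.inr (.inl b), q) => .inr (.inl (.inr (b, q)))
  | .inr (.inr (.inr d), q) => .inr (.inr (.inr (d, q)))

/-- Reindexing for `Ψ`. -/
def b2 : (B ⊕ B ⊕ D ⊕ W) ⊕ (B ⊕ B ⊕ D ⊕ W) × U →
    (B ⊕ B × U) ⊕ (B ⊕ B × U) ⊕ (D ⊕ D × U) ⊕ (W ⊕ W × U)
  | .inl (.inl c) => .inl (.inl c)
  | .inl (.inr (.inl b)) => .inr (.inl (.inl b))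
  | .inl (.inr (.inr (.inl d))) => .inr (.inr (.inl (.inl d)))
  | .inl (.inr (.inr (.inr w))) => .inr (.inr (.inr (.inl w)))
  | .inr (.inl c, q) => .inl (.inr (c, q))
  | .inr (.inr (.inl b), q) => .inr (.inl (.inr (b, q)))
  | .inr (.inr (.inr (.inl d)), q) => .inr (.inr (.inl (.inr (d, q))))
  | .inr (.inr (.inr (.inr w)), q) => .inr (.inr (.inr (.inr (w, q))))

/-- Reindexing for `Concl`. -/
def b3 : (C ⊕ B ⊕ B ⊕ D ⊕ W) ⊕ (C ⊕ B ⊕ B ⊕ D ⊕ W) × U →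
    (C ⊕ C × U) ⊕ (B ⊕ B × U) ⊕ (B ⊕ B × U) ⊕ (D ⊕ D × U) ⊕ (W ⊕ W × U)
  | .inl (.inl c) => .inl (.inl c)
  | .inl (.inr (.inl b)) => .inr (.inl (.inl b))
  | .inl (.inr (.inr (.inl b))) => .inr (.inr (.inl (.inl b)))
  | .inl (.inr (.inr (.inr (.inl d)))) => .inr (.inr (.inr (.inl (.inl d))))
  | .inl (.inr (.inr (.inr (.inr w)))) => .inr (.inr (.inr (.inr (.inl w))))
  | .inr (.inl c, q) => .inl (.inr (c, q))
  | .inr (.inr (.inl b), q) => .inr (.inl (.inr (b, q)))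
  | .inr (.inr (.inr (.inl b)), q) => .inr (.inr (.inl (.inr (b, q))))
  | .inr (.inr (.inr (.inr (.inl d))), q) => .inr (.inr (.inr (.inl (.inr (d, q)))))
  | .inr (.inr (.inr (.inr (.inr w))), q) => .inr (.inr (.inr (.inr (.inr (w, q)))))

lemma b3_j1 (x : C ⊕ B ⊕ D) : b3 (U := U) (W := W) (.inl (j1 x)) = j1 (b1 (.inl x)) := by
  rcases x with c | b | d <;> rfl

lemma b3_j2 (x : C ⊕ B ⊕ D) : b3 (U := U) (W := W) (.inl (j2 x)) = j2 (b1 (.inl x)) := by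
  rcases x with c | b | d <;> rfl

lemma b3_inr (x : B ⊕ B ⊕ D ⊕ W) : b3 (U := U) (C := C) (.inl (.inr x)) = .inr (b2 (.inl x)) := by
  rcases x with b | b | d | w <;> rfl

lemma b3_j1' (x : C ⊕ B ⊕ D) (q : U) :
    b3 (W := W) (.inr (j1 x, q)) = j1 (b1 (.inr (x, q))) := by
  rcases x with c | b | d <;> rfl

lemma b3_j2' (x : C ⊕ B ⊕ D) (q : U) :
    b3 (W := W) (.inr (j2 x, q)) = j2 (b1 (.inr (x, q))) := by
  rcases x with c | b | d <;> rfl

lemma b3_inr' (x : B ⊕ B ⊕ D ⊕ W) (q : U) :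
    b3 (C := C) (.inr (.inr x, q)) = .inr (b2 (.inr (x, q))) := by
  rcases x with b | b | d | w <;> rfl

lemma attach_concl (Q : Str U) (Φ : Str (C ⊕ B ⊕ D)) (Ψ : Str (B ⊕ B ⊕ D ⊕ W)) :
    Hom (Attach Q (Concl Φ Ψ))
      (Concl ((Attach Q Φ).map b1) ((Attach Q Ψ).map b2)) b3 b3 := by
  set Φ' := (Attach Q Φ).map b1 with hΦ'
  set Ψ' := (Attach Q Ψ).map b2 with hΨ'
  have k1 := (concl_hom_j1 Φ' Ψ').comp (hom_map_self (Attach Q Φ) b1)
  have k2 := (concl_hom_j2 Φ' Ψ').comp (hom_map_self (Attach Q Φ) b1)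
  have k3 := (concl_hom_inr Φ' Ψ').comp (hom_map_self (Attach Q Ψ) b2)
  constructor
  · rintro (x | ⟨x, q⟩) (y | ⟨y, q'⟩) hxy
    · rcases hxy with (⟨a, b, hab, rfl, rfl⟩ | ⟨a, b, hab, rfl, rfl⟩) | ⟨a, b, hab, rfl, rfl⟩
      · rw [b3_j1, b3_j1]
        exact k1.e (.inl a) (.inl b) hab
      · rw [b3_j2, b3_j2]
        exact k2.e (.inl a) (.inl b) hab
      · rw [b3_inr, b3_inr]
        exact k3.e (.inl a) (.inl b) hab
    · exact hxy.elim
    · rcases hxy with (⟨a, b, hab, h1, rfl⟩ | ⟨a, b, hab, h1, rfl⟩) | ⟨a, b, hab, h1, rfl⟩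
      · obtain rfl : j1 a = x := h1
        rw [b3_j1', b3_j1]
        exact k1.e (.inr (a, q)) (.inl b) hab
      · obtain rfl : j2 a = x := h1
        rw [b3_j2', b3_j2]
        exact k2.e (.inr (a, q)) (.inl b) hab
      · obtain rfl : Sum.inr a = x := h1
        rw [b3_inr', b3_inr]
        exact k3.e (.inr (a, q)) (.inl b) hab
    · obtain ⟨h1, h2⟩ := hxy
      obtain rfl : x = y := h1
      rcases cover x with ⟨a, rfl⟩ | ⟨a, rfl⟩ | ⟨a, rfl⟩
      · rw [b3_j1', b3_j1']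
        exact k1.e (.inr (a, q)) (.inr (a, q')) ⟨rfl, h2⟩
      · rw [b3_j2', b3_j2']
        exact k2.e (.inr (a, q)) (.inr (a, q')) ⟨rfl, h2⟩
      · rw [b3_inr', b3_inr']
        exact k3.e (.inr (a, q)) (.inr (a, q')) ⟨rfl, h2⟩
  · rintro (x | ⟨x, q⟩) (y | ⟨y, q'⟩) hxy
    · rcases hxy with (⟨a, b, hab, rfl, rfl⟩ | ⟨a, b, hab, rfl, rfl⟩) | ⟨a, b, hab, rfl, rfl⟩
      · rw [b3_j1, b3_j1]
        exact k1.r (.inl a) (.inl b) hab
      · rw [b3_j2, b3_j2]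
        exact k2.r (.inl a) (.inl b) hab
      · rw [b3_inr, b3_inr]
        exact k3.r (.inl a) (.inl b) hab
    · exact hxy.elim
    · exact hxy.elim
    · obtain ⟨h1, h2⟩ := hxy
      obtain rfl : x = y := h1
      rcases cover x with ⟨a, rfl⟩ | ⟨a, rfl⟩ | ⟨a, rfl⟩
      · rw [b3_j1', b3_j1']
        exact k1.r (.inr (a, q)) (.inr (a, q')) ⟨rfl, h2⟩
      · rw [b3_j2', b3_j2']
        exact k2.r (.inr (a, q)) (.inr (a, q')) ⟨rfl, h2⟩
      · rw [b3_inr', b3_inr']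
        exact k3.r (.inr (a, q)) (.inr (a, q')) ⟨rfl, h2⟩

lemma attach_tree (Q : Str U) {Φ : Str (C ⊕ B ⊕ D)}
    {Ψ : Str (B ⊕ B ⊕ D ⊕ W)} {n : ℕ} {V : Type u} {F : Str V} (h : HasTree Φ Ψ n F) :
    HasTree ((Attach Q Φ).map b1) ((Attach Q Ψ).map b2) n (Attach Q F) := by
  obtain ⟨c, b, d, w, h1, h2⟩ := h
  refine ⟨fun σ => Sum.map (c σ) (Prod.map (c σ) id), fun μ => Sum.map (b μ) (Prod.map (b μ) id),
    Sum.map d (Prod.map d id), fun μ η => Sum.map (w μ η) (Prod.map (w μ η) id), ?_, ?_⟩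
  · intro μ σ hμ hσ
    rw [hom_map_iff]
    have := Attach.hom Q (h1 μ σ hμ hσ)
    convert this using 1 <;>
    · funext x
      rcases x with (c | b | d) | ⟨c | b | d, q⟩ <;> rfl
  · intro μ η hμ h3 h4
    rw [hom_map_iff]
    have := Attach.hom Q (h2 μ η hμ h3 h4)
    convert this using 1 <;>
    · funext x
      rcases x with (b | b | d | w) | ⟨b | b | d | w, q⟩ <;> rfl

end attach

lemma attach_good {K : Cls} (hK : Good K) {U : Type} [Finite U] (Q : Str U)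
    (hb : ∀ n, K _ (Attach Q (Dt n))) : Good (fun _ F => K _ (Attach Q F)) where
  mono := fun h hG => hK.mono (Attach.hom Q h) hG
  base := hb
  rule := fun Φ Ψ h => by
    refine hK.mono (attach_concl Q Φ Ψ) (hK.rule _ _ fun n => ?_)
    obtain ⟨V, hV, F, hF, ht⟩ := h n
    exact ⟨V ⊕ V × U, inferInstance, Attach Q F, hF, attach_tree Q ht⟩

end PosSOP
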