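import Mathlib

/-!
Base file for the proof that SOP1 and SOP2 agree for positive theories (MP_0ff3ec_lc).
Structures have one carrier and two binary relations `E` (the face of `x` contains the
node of `y`) and `R` (the two nodes are related by the negation formula).
Morphisms are pairs of maps, `f` moves faces and `g` moves nodes.
-/

namespace PosSOP

universe u v w

/-- A structure with two binary relations. -/
structure Str (V : Type u) where
  E : V → V → Prop
  R : V → V → Prop

/-- A morphism is a pair of maps: `f` moves the faces and `g` moves the nodes. -/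
structure Hom {V : Type u} {V' : Type v} (F : Str V) (G : Str V') (f g : V → V') : Prop where
  e : ∀ x y, F.E x y → G.E (f x) (g y)
  r : ∀ x y, F.R x y → G.R (g x) (g y)

/-- The image of a structure along a map. -/
def Str.map {V : Type u} {V' : Type v} (i : V → V') (F : Str V) : Str V' where
  E := fun x y => ∃ a b, F.E a b ∧ i a = x ∧ i b = y
  R := fun x y => ∃ a b, F.R a b ∧ i a = x ∧ i b = y

/-- The pullback of a structure along a map. -/
def Str.pull {V : Type u} {V' : Type v} (F : Str V') (e : V → V') : Str V where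
  E := fun x y => F.E (e x) (e y)
  R := fun x y => F.R (e x) (e y)

/-- The union of two structures with the same carrier. -/
def Str.union {V : Type u} (F G : Str V) : Str V where
  E := fun x y => F.E x y ∨ G.E x y
  R := fun x y => F.R x y ∨ G.R x y

/-- `J L R`: a new root `a` with a face through `a`, all nodes of `L` are `R`-above `a`,
the node `a` belongs to all faces of `R`. -/
def J {V : Type u} {V' : Type v} (L : Str V) (R : Str V') : Str (Unit ⊕ (V ⊕ V')) where
  E := fun x y => match x, y with
    | .inl _, .inl _ => True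
    | .inr (.inr _), .inl _ => True
    | .inr (.inl x), .inr (.inl y) => L.E x y
    | .inr (.inr x), .inr (.inr y) => R.E x y
    | _, _ => False
  R := fun x y => match x, y with
    | .inl _, .inr (.inl _) => True
    | .inr (.inl x), .inr (.inl y) => L.R x y
    | .inr (.inr x), .inr (.inr y) => R.R x y
    | _, _ => False

/-- Carriers of the base structures. -/
def DtV : ℕ → Type
  | 0 => Empty
  | n + 1 => Unit ⊕ (DtV n ⊕ DtV n)

/-- The base structures (finite parts of an `SOP1` tree). -/
def Dt : (n : ℕ) → Str (DtV n)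
  | 0 => ⟨fun _ _ => False, fun _ _ => False⟩
  | n + 1 => J (Dt n) (Dt n)

/-- The forbidden structure: one face through two `R`-related nodes. -/
def F0 : Str (Fin 3) where
  E := fun x y => x = 0 ∧ (y = 1 ∨ y = 2)
  R := fun x y => x = 1 ∧ y = 2

/-- Incomparable sequences, the first one to the left of the second one. -/
inductive LexInc : List Bool → List Bool → Prop
  | split (μ η : List Bool) : LexInc (false :: μ) (true :: η)
  | cons (b : Bool) {μ η : List Bool} : LexInc μ η → LexInc (b :: μ) (b :: η)

variable {C B D W : Type}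

/-- `M` contains a binary tree of depth `n` with `Φ` along branches and `Ψ` between
incomparable positions. -/
def HasTree (Φ : Str (C ⊕ B ⊕ D)) (Ψ : Str (B ⊕ B ⊕ D ⊕ W)) (n : ℕ) {V : Type u}
    (M : Str V) : Prop :=
  ∃ (c : List Bool → C → V) (b : List Bool → B → V) (d : D → V)
    (w : List Bool → List Bool → W → V),
    (∀ μ σ : List Bool, μ <+: σ → σ.length ≤ n →
      Hom Φ M (Sum.elim (c σ) (Sum.elim (b μ) d)) (Sum.elim (c σ) (Sum.elim (b μ) d))) ∧
    (∀ μ η : List Bool, LexInc μ η → μ.length ≤ n → η.length ≤ n →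
      Hom Ψ M (Sum.elim (b μ) (Sum.elim (b η) (Sum.elim d (w μ η))))
        (Sum.elim (b μ) (Sum.elim (b η) (Sum.elim d (w μ η)))))

/-- Inclusion for the first copy of `Φ`. -/
def j1 : C ⊕ B ⊕ D → C ⊕ B ⊕ B ⊕ D ⊕ W
  | .inl c => .inl c
  | .inr (.inl b) => .inr (.inl b)
  | .inr (.inr d) => .inr (.inr (.inr (.inl d)))

/-- Inclusion for the second copy of `Φ`. -/
def j2 : C ⊕ B ⊕ D → C ⊕ B ⊕ B ⊕ D ⊕ W
  | .inl c => .inl c
  | .inr (.inl b) => .inr (.inr (.inl b))
  | .inr (.inr d) => .inr (.inr (.inr (.inl d)))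

/-- The glued structure: `Φ(c,b₁,d)`, `Φ(c,b₂,d)`, `Ψ(b₁,b₂,d,w)`. -/
def Concl (Φ : Str (C ⊕ B ⊕ D)) (Ψ : Str (B ⊕ B ⊕ D ⊕ W)) : Str (C ⊕ B ⊕ B ⊕ D ⊕ W) :=
  ((Φ.map j1).union (Φ.map j2)).union (Ψ.map Sum.inr)

/-- Classes of structures. -/
def Cls : Type 1 := ∀ V : Type, Str V → Prop

/-- Good classes. -/
structure Good (K : Cls) : Prop where
  mono : ∀ {V V' : Type} [Finite V] [Finite V'] {F : Str V} {G : Str V'} {f g : V → V'},
    Hom F G f g → K V' G → K V F
  base : ∀ n, K (DtV n) (Dt n)
  rule : ∀ {C B D W : Type} [Finite C] [Finite B] [Finite D] [Finite W]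
    (Φ : Str (C ⊕ B ⊕ D)) (Ψ : Str (B ⊕ B ⊕ D ⊕ W)),
    (∀ n, ∃ (V : Type) (_ : Finite V) (F : Str V), K V F ∧ HasTree Φ Ψ n F) →
    K _ (Concl Φ Ψ)

/-- The least good class. -/
def CInf : Cls := fun V F => ∀ K : Cls, Good K → K V F

end PosSOP
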