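import Pool.Agent.Helper68.PSBase

/-!
Closure properties of the least good class, first part: lifting lemmas.
-/

namespace PosSOP

universe u v w

section basic

variable {V : Type u} {V' : Type v} {V'' : Type w}

lemma Hom.refl (F : Str V) : Hom F F id id := ⟨fun _ _ h => h, fun _ _ h => h⟩

lemma Hom.comp {F : Str V} {G : Str V'} {H : Str V''} {f g : V → V'} {f' g' : V' → V''}
    (h' : Hom G H f' g') (h : Hom F G f g) : Hom F H (f' ∘ f) (g' ∘ g) :=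
  ⟨fun x y hxy => h'.e _ _ (h.e x y hxy), fun x y hxy => h'.r _ _ (h.r x y hxy)⟩

lemma hom_map_iff {i : V → V'} {F : Str V} {G : Str V''} {f g : V' → V''} :
    Hom (F.map i) G f g ↔ Hom F G (f ∘ i) (g ∘ i) := by
  constructor
  · intro h
    exact ⟨fun x y hxy => h.e _ _ ⟨x, y, hxy, rfl, rfl⟩, fun x y hxy => h.r _ _ ⟨x, y, hxy, rfl, rfl⟩⟩
  · intro h
    refine ⟨?_, ?_⟩
    · rintro _ _ ⟨a, b, hab, rfl, rfl⟩
      exact h.e a b hab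
    · rintro _ _ ⟨a, b, hab, rfl, rfl⟩
      exact h.r a b hab

lemma hom_union_iff {F G : Str V} {H : Str V'} {f g : V → V'} :
    Hom (F.union G) H f g ↔ Hom F H f g ∧ Hom G H f g := by
  constructor
  · intro h
    exact ⟨⟨fun x y hxy => h.e _ _ (Or.inl hxy), fun x y hxy => h.r _ _ (Or.inl hxy)⟩,
      ⟨fun x y hxy => h.e _ _ (Or.inr hxy), fun x y hxy => h.r _ _ (Or.inr hxy)⟩⟩
  · rintro ⟨h1, h2⟩
    exact ⟨fun x y hxy => hxy.elim (h1.e x y) (h2.e x y),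
      fun x y hxy => hxy.elim (h1.r x y) (h2.r x y)⟩

lemma hom_pull_iff {F : Str V} {G : Str V''} {e : V' → V''} {f g : V → V'} :
    Hom F (G.pull e) f g ↔ Hom F G (e ∘ f) (e ∘ g) :=
  ⟨fun h => ⟨h.e, h.r⟩, fun h => ⟨h.e, h.r⟩⟩

lemma hom_map_self (F : Str V) (i : V → V') : Hom F (F.map i) i i :=
  ⟨fun x y hxy => ⟨x, y, hxy, rfl, rfl⟩, fun x y hxy => ⟨x, y, hxy, rfl, rfl⟩⟩

lemma hom_union_left (F G : Str V) : Hom F (F.union G) id id :=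
  ⟨fun _ _ h => Or.inl h, fun _ _ h => Or.inl h⟩

lemma hom_union_right (F G : Str V) : Hom G (F.union G) id id :=
  ⟨fun _ _ h => Or.inr h, fun _ _ h => Or.inr h⟩

variable {C B D W : Type}

lemma HasTree.comp {Φ : Str (C ⊕ B ⊕ D)} {Ψ : Str (B ⊕ B ⊕ D ⊕ W)} {n : ℕ}
    {F : Str V} {G : Str V'} {f : V → V'} (h : Hom F G f f) (ht : HasTree Φ Ψ n F) :
    HasTree Φ Ψ n G := by
  obtain ⟨c, b, d, w, h1, h2⟩ := ht
  refine ⟨fun σ => f ∘ c σ, fun μ => f ∘ b μ, f ∘ d, fun μ η => f ∘ w μ η, ?_, ?_⟩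
  · intro μ σ hμ hσ
    have := h.comp (h1 μ σ hμ hσ)
    simpa only [Sum.comp_elim] using this
  · intro μ η hμ h3 h4
    have := h.comp (h2 μ η hμ h3 h4)
    simpa only [Sum.comp_elim] using this

end basic

lemma cinf_good : Good CInf where
  mono := fun h hG K hK => hK.mono h (hG K hK)
  base := fun n K hK => hK.base n
  rule := fun Φ Ψ h K hK => hK.rule Φ Ψ fun n => by
    obtain ⟨V, hV, F, hF, ht⟩ := h n
    exact ⟨V, hV, F, hF K hK, ht⟩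

/-- A context around `F`. -/
def Ctx {U : Type u} {V : Type v} (P : Str U) (P1 P2 P3 : U → Prop) (F : Str V) :
    Str (U ⊕ V) where
  E := fun x y => match x, y with
    | .inl p, .inl q => P.E p q
    | .inr v, .inr w => F.E v w
    | .inr _, .inl p => P3 p
    | .inl _, .inr _ => False
  R := fun x y => match x, y with
    | .inl p, .inl q => P.R p q
    | .inr v, .inr w => F.R v w
    | .inr _, .inl p => P2 p
    | .inl p, .inr _ => P1 p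

lemma Ctx.hom {U : Type u} {V : Type v} {V' : Type w} (P : Str U) (P1 P2 P3 : U → Prop)
    {F : Str V} {G : Str V'} {f g : V → V'} (h : Hom F G f g) :
    Hom (Ctx P P1 P2 P3 F) (Ctx P P1 P2 P3 G) (Sum.map id f) (Sum.map id g) := by
  constructor
  · rintro (x | x) (y | y) hxy
    · exact hxy
    · exact hxy.elim
    · exact hxy
    · exact h.e x y hxy
  · rintro (x | x) (y | y) hxy
    · exact hxy
    · exact hxy
    · exact hxy
    · exact h.r x y hxy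

section ctx

variable {U C B D W : Type}

/-- Reindexing for `Φ` in a context. -/
def a1 : U ⊕ (C ⊕ B ⊕ D) → C ⊕ B ⊕ (U ⊕ D)
  | .inl p => .inr (.inr (.inl p))
  | .inr (.inl c) => .inl c
  | .inr (.inr (.inl b)) => .inr (.inl b)
  | .inr (.inr (.inr d)) => .inr (.inr (.inr d))

/-- Reindexing for `Ψ` in a context. -/
def a2 : U ⊕ (B ⊕ B ⊕ D ⊕ W) → B ⊕ B ⊕ (U ⊕ D) ⊕ W
  | .inl p => .inr (.inr (.inl (.inl p)))
  | .inr (.inl b) => .inl b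
  | .inr (.inr (.inl b)) => .inr (.inl b)
  | .inr (.inr (.inr (.inl d))) => .inr (.inr (.inl (.inr d)))
  | .inr (.inr (.inr (.inr w))) => .inr (.inr (.inr w))

/-- Reindexing for `Concl` in a context. -/
def a3 : U ⊕ (C ⊕ B ⊕ B ⊕ D ⊕ W) → C ⊕ B ⊕ B ⊕ (U ⊕ D) ⊕ W
  | .inl p => .inr (.inr (.inr (.inl (.inl p))))
  | .inr (.inl c) => .inl c
  | .inr (.inr (.inl b)) => .inr (.inl b)
  | .inr (.inr (.inr (.inl b))) => .inr (.inr (.inl b))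
  | .inr (.inr (.inr (.inr (.inl d)))) => .inr (.inr (.inr (.inl (.inr d))))
  | .inr (.inr (.inr (.inr (.inr w)))) => .inr (.inr (.inr (.inr w)))

lemma cover (x : C ⊕ B ⊕ B ⊕ D ⊕ W) :
    (∃ a, j1 a = x) ∨ (∃ a, j2 a = x) ∨ (∃ a, Sum.inr a = x) := by
  rcases x with c | b | b | d | w
  · exact Or.inl ⟨.inl c, rfl⟩
  · exact Or.inr (Or.inr ⟨_, rfl⟩)
  · exact Or.inr (Or.inr ⟨_, rfl⟩)
  · exact Or.inr (Or.inr ⟨_, rfl⟩)
  · exact Or.inr (Or.inr ⟨_, rfl⟩)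

lemma a3_j1 (x : C ⊕ B ⊕ D) : a3 (U := U) (W := W) (.inr (j1 x)) = j1 (a1 (.inr x)) := by
  rcases x with c | b | d <;> rfl

lemma a3_j2 (x : C ⊕ B ⊕ D) : a3 (U := U) (W := W) (.inr (j2 x)) = j2 (a1 (.inr x)) := by
  rcases x with c | b | d <;> rfl

lemma a3_inr (x : B ⊕ B ⊕ D ⊕ W) : a3 (U := U) (C := C) (.inr (.inr x)) = .inr (a2 (.inr x)) := by
  rcases x with b | b | d | w <;> rfl

lemma a3_inl1 (p : U) : a3 (C := C) (B := B) (D := D) (W := W) (.inl p) = j1 (a1 (.inl p)) := rfl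

lemma a3_inl2 (p : U) : a3 (C := C) (B := B) (D := D) (W := W) (.inl p) = j2 (a1 (.inl p)) := rfl

lemma a3_inl3 (p : U) : a3 (C := C) (B := B) (D := D) (W := W) (.inl p) = .inr (a2 (.inl p)) := rfl

lemma concl_hom_j1 (Φ : Str (C ⊕ B ⊕ D)) (Ψ : Str (B ⊕ B ⊕ D ⊕ W)) :
    Hom Φ (Concl Φ Ψ) j1 j1 :=
  ⟨fun x y h => Or.inl (Or.inl ⟨x, y, h, rfl, rfl⟩), fun x y h => Or.inl (Or.inl ⟨x, y, h, rfl, rfl⟩)⟩

lemma concl_hom_j2 (Φ : Str (C ⊕ B ⊕ D)) (Ψ : Str (B ⊕ B ⊕ D ⊕ W)) :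
    Hom Φ (Concl Φ Ψ) j2 j2 :=
  ⟨fun x y h => Or.inl (Or.inr ⟨x, y, h, rfl, rfl⟩), fun x y h => Or.inl (Or.inr ⟨x, y, h, rfl, rfl⟩)⟩

lemma concl_hom_inr (Φ : Str (C ⊕ B ⊕ D)) (Ψ : Str (B ⊕ B ⊕ D ⊕ W)) :
    Hom Ψ (Concl Φ Ψ) Sum.inr Sum.inr :=
  ⟨fun x y h => Or.inr ⟨x, y, h, rfl, rfl⟩, fun x y h => Or.inr ⟨x, y, h, rfl, rfl⟩⟩

lemma ctx_concl (P : Str U) (P1 P2 P3 : U → Prop) (Φ : Str (C ⊕ B ⊕ D))
    (Ψ : Str (B ⊕ B ⊕ D ⊕ W)) :
    Hom (Ctx P P1 P2 P3 (Concl Φ Ψ))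
      (Concl ((Ctx P P1 P2 P3 Φ).map a1) ((Ctx P P1 P2 P3 Ψ).map a2)) a3 a3 := by
  set Φ' := (Ctx P P1 P2 P3 Φ).map a1 with hΦ'
  set Ψ' := (Ctx P P1 P2 P3 Ψ).map a2 with hΨ'
  have k1 := (concl_hom_j1 Φ' Ψ').comp (hom_map_self (Ctx P P1 P2 P3 Φ) a1)
  have k2 := (concl_hom_j2 Φ' Ψ').comp (hom_map_self (Ctx P P1 P2 P3 Φ) a1)
  have k3 := (concl_hom_inr Φ' Ψ').comp (hom_map_self (Ctx P P1 P2 P3 Ψ) a2)
  constructor
  · rintro (p | x) (q | y) hxy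
    · exact k1.e (.inl p) (.inl q) hxy
    · exact hxy.elim
    · rcases cover x with ⟨a, rfl⟩ | ⟨a, rfl⟩ | ⟨a, rfl⟩
      · rw [a3_j1, a3_inl1]
        exact k1.e (.inr a) (.inl q) hxy
      · rw [a3_j2, a3_inl2]
        exact k2.e (.inr a) (.inl q) hxy
      · rw [a3_inr, a3_inl3]
        exact k3.e (.inr a) (.inl q) hxy
    · rcases hxy with (⟨a, b, hab, rfl, rfl⟩ | ⟨a, b, hab, rfl, rfl⟩) | ⟨a, b, hab, rfl, rfl⟩
      · rw [a3_j1, a3_j1]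
        exact k1.e (.inr a) (.inr b) hab
      · rw [a3_j2, a3_j2]
        exact k2.e (.inr a) (.inr b) hab
      · rw [a3_inr, a3_inr]
        exact k3.e (.inr a) (.inr b) hab
  · rintro (p | x) (q | y) hxy
    · exact k1.r (.inl p) (.inl q) hxy
    · rcases cover y with ⟨a, rfl⟩ | ⟨a, rfl⟩ | ⟨a, rfl⟩
      · rw [a3_j1, a3_inl1]
        exact k1.r (.inl p) (.inr a) hxy
      · rw [a3_j2, a3_inl2]
        exact k2.r (.inl p) (.inr a) hxy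
      · rw [a3_inr, a3_inl3]
        exact k3.r (.inl p) (.inr a) hxy
    · rcases cover x with ⟨a, rfl⟩ | ⟨a, rfl⟩ | ⟨a, rfl⟩
      · rw [a3_j1, a3_inl1]
        exact k1.r (.inr a) (.inl q) hxy
      · rw [a3_j2, a3_inl2]
        exact k2.r (.inr a) (.inl q) hxy
      · rw [a3_inr, a3_inl3]
        exact k3.r (.inr a) (.inl q) hxy
    · rcases hxy with (⟨a, b, hab, rfl, rfl⟩ | ⟨a, b, hab, rfl, rfl⟩) | ⟨a, b, hab, rfl, rfl⟩
      · rw [a3_j1, a3_j1]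
        exact k1.r (.inr a) (.inr b) hab
      · rw [a3_j2, a3_j2]
        exact k2.r (.inr a) (.inr b) hab
      · rw [a3_inr, a3_inr]
        exact k3.r (.inr a) (.inr b) hab

lemma ctx_tree (P : Str U) (P1 P2 P3 : U → Prop) {Φ : Str (C ⊕ B ⊕ D)}
    {Ψ : Str (B ⊕ B ⊕ D ⊕ W)} {n : ℕ} {V : Type u} {F : Str V} (h : HasTree Φ Ψ n F) :
    HasTree ((Ctx P P1 P2 P3 Φ).map a1) ((Ctx P P1 P2 P3 Ψ).map a2) n (Ctx P P1 P2 P3 F) := by
  obtain ⟨c, b, d, w, h1, h2⟩ := h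
  refine ⟨fun σ => .inr ∘ c σ, fun μ => .inr ∘ b μ, Sum.map id d, fun μ η => .inr ∘ w μ η, ?_, ?_⟩
  · intro μ σ hμ hσ
    rw [hom_map_iff]
    have := Ctx.hom P P1 P2 P3 (h1 μ σ hμ hσ)
    convert this using 1 <;>
    · funext x
      rcases x with p | c | b | d <;> rfl
  · intro μ η hμ h3 h4
    rw [hom_map_iff]
    have := Ctx.hom P P1 P2 P3 (h2 μ η hμ h3 h4)
    convert this using 1 <;>
    · funext x
      rcases x with p | c | b | d | w <;> rfl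

end ctx

lemma ctx_good {K : Cls} (hK : Good K) {U : Type} [Finite U] (P : Str U) (P1 P2 P3 : U → Prop)
    (hb : ∀ n, K _ (Ctx P P1 P2 P3 (Dt n))) : Good (fun _ F => K _ (Ctx P P1 P2 P3 F)) where
  mono := fun h hG => hK.mono (Ctx.hom P P1 P2 P3 h) hG
  base := hb
  rule := fun Φ Ψ h => by
    refine hK.mono (ctx_concl P P1 P2 P3 Φ Ψ) (hK.rule _ _ fun n => ?_)
    obtain ⟨V, hV, F, hF, ht⟩ := h n
    exact ⟨U ⊕ V, inferInstance, Ctx P P1 P2 P3 F, hF, ctx_tree P P1 P2 P3 ht⟩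

end PosSOP
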