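import Pool.Agent.Helper68.PSFacts

/-!
Existence of colours, the one-step lemma.
-/

namespace PosSOP

universe u v w

open Word

section

variable {U : Type}

lemma ns_no_rel {A : Str U} {S : Set (Fact U)} {s : Fact U} (hs : s ∉ S) :
    (∀ x y, (NS A S).E x y → (∀ q, x ≠ .inr (s, q)) ∧ (∀ q, y ≠ .inr (s, q))) ∧
    (∀ x y, (NS A S).R x y → (∀ q, x ≠ .inr (s, q)) ∧ (∀ q, y ≠ .inr (s, q))) := by
  have key : ∀ s' ∈ S, ∀ (b : U ⊕ U ⊕ Fin s'.k.1) q, em s' b ≠ .inr (s, q) := by
    intro s' hs' b q h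
    rcases b with b | b | b
    · simp [em, blk] at h
    · simp [em, blk] at h
    · simp only [em, blk, Sum.elim_inr, Sum.inr.injEq, Prod.mk.injEq] at h
      rw [h.1] at hs'
      exact hs hs'
  constructor
  · rintro x y (⟨a, b, hab, rfl, rfl⟩ | ⟨s', hs', a, b, hab, rfl, rfl⟩)
    · exact ⟨fun q h => by simp at h, fun q h => by simp at h⟩
    · exact ⟨key s' hs' a, key s' hs' b⟩
  · rintro x y (⟨a, b, hab, rfl, rfl⟩ | ⟨s', hs', a, b, hab, rfl, rfl⟩)
    · exact ⟨fun q h => by simp at h, fun q h => by simp at h⟩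
    · exact ⟨key s' hs' a, key s' hs' b⟩

lemma exists_col [Finite U] {A : Str U} {m : ℕ} (hZ : ¬ CInf _ (OP (Star A A) (Dt m)))
    {S : Set (Fact U)} (hS : IsMaxS A S) {u v : Word (Option U)} (huv : u ≠ v) :
    ∃ k : Col A m, (⟨u, v, k.1.2⟩ : Fact U) ∈ S := by
  classical
  obtain ⟨i, hi⟩ := exists_chi hZ hS.1 u v
  set s : Fact U := ⟨u, v, chiC A m i⟩ with hs
  have hnot : ¬ Ok CInf (NS A (insert s S)) := fun h => hi (hS.2 s h)
  unfold Ok at hnot
  push Not at hnot
  obtain ⟨ι, hι, e, he⟩ := hnot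
  let en : ι ≃ Fin (Nat.card ι) := Finite.equivFin ι
  let ψ : Str (U ⊕ U ⊕ Fin (Nat.card ι)) := (NS A S).pull (blk u v fun q => e (en.symm q))
  have h1 : ¬ CInf _ (UnS ψ (chi A m i)) := by
    intro hC
    apply he
    let F : ι → U ⊕ U ⊕ (Fin (Nat.card ι) ⊕ XI U m i) := fun j =>
      if h1 : ∃ a, e j = .inl (u, a) then .inl h1.choose
      else if h2 : ∃ a, e j = .inl (v, a) then .inr (.inl h2.choose)
      else if h3 : ∃ x, e j = .inr (s, (enX m i x).1) then .inr (.inr (.inr h3.choose))
      else .inr (.inr (.inl (en j)))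
    have F1 : ∀ j a, e j = .inl (u, a) → F j = .inl a := by
      intro j a h
      have h1 : ∃ a, e j = .inl (u, a) := ⟨a, h⟩
      have h2 : h1.choose = a := by
        have := h1.choose_spec.symm.trans h
        simpa using this
      calc F j = .inl h1.choose := dif_pos h1
        _ = _ := by rw [h2]
    have F2 : ∀ j a, e j = .inl (v, a) → F j = .inr (.inl a) := by
      intro j a h
      have h1 : ¬ ∃ a, e j = .inl (u, a) := by
        rintro ⟨b, hb⟩
        have := hb.symm.trans h
        simp only [Sum.inl.injEq, Prod.mk.injEq] at this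
        exact huv this.1
      have h2 : ∃ a, e j = .inl (v, a) := ⟨a, h⟩
      have h3 : h2.choose = a := by
        have := h2.choose_spec.symm.trans h
        simpa using this
      calc F j = .inr (.inl h2.choose) := by simp only [F, h1, dite_false]; exact dif_pos h2
        _ = _ := by rw [h3]
    have F3 : ∀ j x, e j = .inr (s, (enX m i x).1) → F j = .inr (.inr (.inr x)) := by
      intro j x h
      have h1 : ¬ ∃ a, e j = .inl (u, a) := by
        rintro ⟨b, hb⟩
        have := hb.symm.trans h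
        simp at this
      have h2 : ¬ ∃ a, e j = .inl (v, a) := by
        rintro ⟨b, hb⟩
        have := hb.symm.trans h
        simp at this
      have h3 : ∃ x, e j = .inr (s, (enX m i x).1) := ⟨x, h⟩
      have h4 : h3.choose = x := by
        have := h3.choose_spec.symm.trans h
        simp only [Sum.inr.injEq, Prod.mk.injEq, true_and] at this
        exact (enX m i).injective (Fin.ext this)
      calc F j = .inr (.inr (.inr h3.choose)) := by
            simp only [F, h1, h2, dite_false]; exact dif_pos h3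
        _ = _ := by rw [h4]
    have Fa : ∀ j, (∀ q, e j ≠ .inr (s, q)) → ∃ b : U ⊕ U ⊕ Fin (Nat.card ι),
        F j = iL b ∧ blk u v (fun q => e (en.symm q)) b = e j := by
      intro j hj
      by_cases h1 : ∃ a, e j = .inl (u, a)
      · obtain ⟨a, ha⟩ := h1
        exact ⟨.inl a, F1 j a ha, ha.symm⟩
      by_cases h2 : ∃ a, e j = .inl (v, a)
      · obtain ⟨a, ha⟩ := h2
        exact ⟨.inr (.inl a), F2 j a ha, ha.symm⟩
      have h3 : ¬ ∃ x, e j = .inr (s, (enX m i x).1) := fun ⟨x, hx⟩ => hj _ hx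
      refine ⟨.inr (.inr (en j)), ?_, ?_⟩
      · simp only [F, h1, h2, dite_false]; exact dif_neg h3
      · show e (en.symm (en j)) = e j
        rw [Equiv.symm_apply_apply]
    have Fb : ∀ j (b : U ⊕ U ⊕ XI U m i),
        em s (Sum.map id (Sum.map id (enX m i)) b) = e j → F j = iR b := by
      intro j b hb
      rcases b with b | b | b
      · exact F1 j b hb.symm
      · exact F2 j b hb.symm
      · exact F3 j b hb.symm
    have hno := ns_no_rel (A := A) hi
    refine CInf.mono (f := F) (g := F) ?_ hC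
    have hL := uns_left ψ (chi A m i)
    have hR := uns_right ψ (chi A m i)
    constructor
    · intro x y hxy
      have hxy' : (NS A S).E (e x) (e y) ∨ (s.k.2.map (em s)).E (e x) (e y) := by
        rcases hxy with hxy | ⟨s', hs', hxy⟩
        · exact Or.inl (Or.inl hxy)
        · rcases hs' with rfl | hs'
          · exact Or.inr hxy
          · exact Or.inl (Or.inr ⟨s', hs', hxy⟩)
      rcases hxy' with h | ⟨a, b, ⟨a', b', hab, rfl, rfl⟩, ha, hb⟩
      · obtain ⟨a, ha, ha'⟩ := Fa x (hno.1 _ _ h).1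
        obtain ⟨b, hb, hb'⟩ := Fa y (hno.1 _ _ h).2
        rw [ha, hb]
        apply hL.e
        show (NS A S).E _ _
        rw [ha', hb']
        exact h
      · rw [Fb x a' ha, Fb y b' hb]
        exact hR.e a' b' hab
    · intro x y hxy
      have hxy' : (NS A S).R (e x) (e y) ∨ (s.k.2.map (em s)).R (e x) (e y) := by
        rcases hxy with hxy | ⟨s', hs', hxy⟩
        · exact Or.inl (Or.inl hxy)
        · rcases hs' with rfl | hs'
          · exact Or.inr hxy
          · exact Or.inl (Or.inr ⟨s', hs', hxy⟩)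
      rcases hxy' with h | ⟨a, b, ⟨a', b', hab, rfl, rfl⟩, ha, hb⟩
      · obtain ⟨a, ha, ha'⟩ := Fa x (hno.2 _ _ h).1
        obtain ⟨b, hb, hb'⟩ := Fa y (hno.2 _ _ h).2
        rw [ha, hb]
        apply hL.r
        show (NS A S).R _ _
        rw [ha', hb']
        exact h
      · rw [Fb x a' ha, Fb y b' hb]
        exact hR.r a' b' hab
  refine ⟨⟨(i, ⟨Nat.card ι, ψ⟩), h1⟩, ?_⟩
  exact true_mem hS ⟨u, v, ⟨Nat.card ι, ψ⟩⟩ (fun q => e (en.symm q))
    ⟨fun _ _ h => h, fun _ _ h => h⟩

end

end PosSOP
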