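import Mathlib

/-!
Positive logic: positive formulas, h-inductive theories, existentially closed, saturated and
homogeneous models, SOP1 and SOP2 (MP_0ff3ec_lc).
-/

namespace PosSOP

open FirstOrder FirstOrder.Language

universe u v w t

variable {L : FirstOrder.Language.{u, v}}

/-- Positive formulas: atomic formulas, bottom, top, closed under conjunction, disjunction and
existential quantification. -/
inductive IsPos {α : Type t} : ∀ {n : ℕ}, L.BoundedFormula α n → Prop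
  | bot {n : ℕ} : IsPos (⊥ : L.BoundedFormula α n)
  | top {n : ℕ} : IsPos (⊤ : L.BoundedFormula α n)
  | equal {n : ℕ} (s t : L.Term (α ⊕ Fin n)) : IsPos (s.bdEqual t)
  | rel {n m : ℕ} (R : L.Relations m) (ts : Fin m → L.Term (α ⊕ Fin n)) :
      IsPos (R.boundedFormula ts)
  | inf {n : ℕ} {φ ψ : L.BoundedFormula α n} : IsPos φ → IsPos ψ → IsPos (φ ⊓ ψ)
  | sup {n : ℕ} {φ ψ : L.BoundedFormula α n} : IsPos φ → IsPos ψ → IsPos (φ ⊔ ψ)
  | ex {n : ℕ} {φ : L.BoundedFormula α (n + 1)} : IsPos φ → IsPos φ.ex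

/-- An h-inductive sentence `∀ x (φ(x) → ψ(x))` with `φ`, `ψ` positive. -/
structure HInd (L : FirstOrder.Language.{u, v}) where
  n : ℕ
  φ : L.Formula (Fin n)
  ψ : L.Formula (Fin n)
  posφ : IsPos φ
  posψ : IsPos ψ

/-- `M` is a model of the positive theory `T`. -/
def Models (T : Set (HInd L)) (M : Type w) [L.Structure M] : Prop :=
  Nonempty M ∧ ∀ σ ∈ T, ∀ x : Fin σ.n → M, σ.φ.Realize x → σ.ψ.Realize x

/-- Joint continuation property: any two models map homomorphically into a common model. -/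
def JCP (T : Set (HInd L)) : Prop :=
  ∀ (M N : Type w) [L.Structure M] [L.Structure N], Models T M → Models T N →
    ∃ (P : Type w) (_ : L.Structure P), Models T P ∧ Nonempty (M →[L] P) ∧ Nonempty (N →[L] P)

/-- `M` is an existentially closed model of `T`. -/
def IsEC (T : Set (HInd L)) (M : Type w) [L.Structure M] : Prop :=
  Models T M ∧ ∀ (N : Type w) [L.Structure N], Models T N → ∀ (f : M →[L] N) (n : ℕ)
    (φ : L.Formula (Fin n)), IsPos φ → ∀ x : Fin n → M, φ.Realize (f ∘ x) → φ.Realize x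

/-- A set of positive formulas in countably many variables over countably many parameters which
is finitely satisfiable in `M` is satisfiable in `M`. -/
def CountablySaturated (L : FirstOrder.Language.{u, v}) (M : Type w) [L.Structure M] : Prop :=
  ∀ (I A : Type) [Countable I] [Countable A] (a : A → M)
    (S : Set (L.Formula (I ⊕ A))), (∀ φ ∈ S, IsPos φ) →
    (∀ S₀ : Set (L.Formula (I ⊕ A)), S₀ ⊆ S → S₀.Finite →
      ∃ x : I → M, ∀ φ ∈ S₀, φ.Realize (Sum.elim x a)) →
    ∃ x : I → M, ∀ φ ∈ S, φ.Realize (Sum.elim x a)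

/-- The first `k` values of an infinite binary sequence. -/
def restr (σ : ℕ → Bool) (k : ℕ) : List Bool := (List.range k).map σ

/-- `ψ(y₁,y₂)` is a negation of `∃ x (φ(x,y₁) ∧ φ(x,y₂))`, that is, no model of `T` realises
`φ(x,y₁) ∧ φ(x,y₂) ∧ ψ(y₁,y₂)`. -/
def IsNegation (T : Set (HInd L)) {n m : ℕ} (φ : L.Formula (Fin n ⊕ Fin m))
    (ψ : L.Formula (Fin m ⊕ Fin m)) : Prop :=
  ∀ (N : Type w) [L.Structure N], Models T N → ∀ (x : Fin n → N) (y₁ y₂ : Fin m → N),
    ¬ (φ.Realize (Sum.elim x y₁) ∧ φ.Realize (Sum.elim x y₂) ∧ ψ.Realize (Sum.elim y₁ y₂))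

/-- `T` has SOP1, computed in the monster model `M`. -/
def HasSOP1 (T : Set (HInd L)) (M : Type w) [L.Structure M] : Prop :=
  ∃ (n m : ℕ) (φ : L.Formula (Fin n ⊕ Fin m)) (ψ : L.Formula (Fin m ⊕ Fin m)),
    IsPos φ ∧ IsPos ψ ∧ IsNegation.{u, v, w} T φ ψ ∧
    ∃ a : List Bool → Fin m → M,
      (∀ σ : ℕ → Bool, ∃ x : Fin n → M, ∀ k, φ.Realize (Sum.elim x (a (restr σ k)))) ∧
      ∀ μ η : List Bool, μ ++ [false] <+: η → ψ.Realize (Sum.elim (a (μ ++ [true])) (a η))

/-- `T` has SOP2, computed in the monster model `M`. -/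
def HasSOP2 (T : Set (HInd L)) (M : Type w) [L.Structure M] : Prop :=
  ∃ (n m : ℕ) (φ : L.Formula (Fin n ⊕ Fin m)) (ψ : L.Formula (Fin m ⊕ Fin m)),
    IsPos φ ∧ IsPos ψ ∧ IsNegation.{u, v, w} T φ ψ ∧
    ∃ a : List Bool → Fin m → M,
      (∀ σ : ℕ → Bool, ∃ x : Fin n → M, ∀ k, φ.Realize (Sum.elim x (a (restr σ k)))) ∧
      ∀ μ η : List Bool, ¬ μ <+: η → ¬ η <+: μ → ψ.Realize (Sum.elim (a μ) (a η))

end PosSOP
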