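import Pool.Agent.Helper68.PSTree

/-!
Facts over the tree of blocks, maximal consistent sets of facts, colours.
-/

namespace PosSOP

universe u v w

open Word

/-- Codes of finite structures over two blocks. -/
abbrev Code (U : Type) : Type := Σ p : ℕ, Str (U ⊕ U ⊕ Fin p)

/-- A fact: a code together with two words. -/
structure Fact (U : Type) where
  u : Word (Option U)
  v : Word (Option U)
  k : Code U

/-- The carrier of the tree of blocks with facts. -/
abbrev VN (U : Type) : Type 1 := (Word (Option U) × U) ⊕ (Fact U × ℕ)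

section

variable {U : Type}

/-- Two blocks and witnesses. -/
def blk {P : Type} (u v : Word (Option U)) (w : P → VN U) : U ⊕ U ⊕ P → VN U :=
  Sum.elim (fun a => .inl (u, a)) (Sum.elim (fun a => .inl (v, a)) w)

/-- The embedding of the structure of a fact. -/
def em (s : Fact U) : U ⊕ U ⊕ Fin s.k.1 → VN U := blk s.u s.v fun q => .inr (s, q.1)

/-- The tree of blocks with a set of facts. -/
def NS (A : Str U) (S : Set (Fact U)) : Str (VN U) where
  E := fun x y => ((BT A).map Sum.inl).E x y ∨ ∃ s ∈ S, (s.k.2.map (em s)).E x y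
  R := fun x y => ((BT A).map Sum.inl).R x y ∨ ∃ s ∈ S, (s.k.2.map (em s)).R x y

lemma bt_hom (A : Str U) (S : Set (Fact U)) : Hom (BT A) (NS A S) Sum.inl Sum.inl :=
  ⟨fun x y h => Or.inl ⟨x, y, h, rfl, rfl⟩, fun x y h => Or.inl ⟨x, y, h, rfl, rfl⟩⟩

lemma fact_hom (A : Str U) {S : Set (Fact U)} {s : Fact U} (hs : s ∈ S) :
    Hom s.k.2 (NS A S) (em s) (em s) :=
  ⟨fun x y h => Or.inr ⟨s, hs, x, y, h, rfl, rfl⟩, fun x y h => Or.inr ⟨s, hs, x, y, h, rfl, rfl⟩⟩

/-- Homomorphisms out of `NS A S`. -/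
lemma hom_NS {A : Str U} {S : Set (Fact U)} {V : Type w} {M : Str V} {f : VN U → V}
    (h1 : Hom (BT A) M (f ∘ Sum.inl) (f ∘ Sum.inl))
    (h2 : ∀ s ∈ S, Hom s.k.2 M (f ∘ em s) (f ∘ em s)) : Hom (NS A S) M f f := by
  constructor
  · rintro x y (⟨a, b, hab, rfl, rfl⟩ | ⟨s, hs, a, b, hab, rfl, rfl⟩)
    · exact h1.e a b hab
    · exact (h2 s hs).e a b hab
  · rintro x y (⟨a, b, hab, rfl, rfl⟩ | ⟨s, hs, a, b, hab, rfl, rfl⟩)
    · exact h1.r a b hab
    · exact (h2 s hs).r a b hab

lemma NS_mono (A : Str U) {S S' : Set (Fact U)} (h : S ⊆ S') : Hom (NS A S) (NS A S') id id :=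
  hom_NS (bt_hom A S') fun _ hs => fact_hom A (h hs)

lemma NS_empty_ok [Finite U] {A : Str U} (z : U) (hA : InA _ A) : Ok CInf (NS A ∅) := by
  have h : Hom (NS A ∅) (BT A) (Sum.elim id fun _ => (nil, z)) (Sum.elim id fun _ => (nil, z)) :=
    hom_NS ⟨fun _ _ h => h, fun _ _ h => h⟩ fun _ hs => hs.elim
  exact Ok.of_hom cinf_good h (bt_ok hA)

lemma NS_sUnion_ok {K : Cls} (hK : Good K) (A : Str U) (c : Set (Set (Fact U))) (hc : IsChain (· ⊆ ·) c)
    (hne : c.Nonempty) (h : ∀ S ∈ c, Ok K (NS A S)) : Ok K (NS A (⋃₀ c)) := by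
  classical
  intro ι _ e
  -- for every pair a member of the chain witnessing the relations
  obtain ⟨S0, hS0⟩ := hne
  have h1 : ∀ p : ι × ι, ∃ S ∈ c, ((NS A (⋃₀ c)).E (e p.1) (e p.2) → (NS A S).E (e p.1) (e p.2)) := by
    intro p
    by_cases hp : (NS A (⋃₀ c)).E (e p.1) (e p.2)
    · rcases hp with hp | ⟨s, ⟨S, hS, hs⟩, hp⟩
      · exact ⟨S0, hS0, fun _ => Or.inl hp⟩
      · exact ⟨S, hS, fun _ => Or.inr ⟨s, hs, hp⟩⟩
    · exact ⟨S0, hS0, fun h => absurd h hp⟩
  have h2 : ∀ p : ι × ι, ∃ S ∈ c, ((NS A (⋃₀ c)).R (e p.1) (e p.2) → (NS A S).R (e p.1) (e p.2)) := by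
    intro p
    by_cases hp : (NS A (⋃₀ c)).R (e p.1) (e p.2)
    · rcases hp with hp | ⟨s, ⟨S, hS, hs⟩, hp⟩
      · exact ⟨S0, hS0, fun _ => Or.inl hp⟩
      · exact ⟨S, hS, fun _ => Or.inr ⟨s, hs, hp⟩⟩
    · exact ⟨S0, hS0, fun h => absurd h hp⟩
  choose T1 hT1 hT1' using h1
  choose T2 hT2 hT2' using h2
  have : Nonempty c := ⟨⟨S0, hS0⟩⟩
  have hdir : Directed (· ⊆ ·) (fun x : c => (x : Set (Fact U))) :=
    directedOn_iff_directed.1 hc.directedOn
  have hfin := Fintype.ofFinite ι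
  obtain ⟨z, hz⟩ := hdir.finset_le (Finset.univ.image (fun p => (⟨T1 p, hT1 p⟩ : c)) ∪
    Finset.univ.image (fun p => (⟨T2 p, hT2 p⟩ : c)))
  refine hK.mono (f := id) (g := id) (G := (NS A z.1).pull e) ?_ (h z.1 z.2 ι e)
  constructor
  · intro x y hxy
    have hsub : T1 (x, y) ⊆ z.1 := hz ⟨T1 (x, y), hT1 _⟩ (by simp)
    exact (NS_mono A hsub).e _ _ (hT1' (x, y) hxy)
  · intro x y hxy
    have hsub : T2 (x, y) ⊆ z.1 := hz ⟨T2 (x, y), hT2 _⟩ (by simp)
    exact (NS_mono A hsub).r _ _ (hT2' (x, y) hxy)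

/-- A maximal consistent set of facts. -/
def IsMaxS (A : Str U) (S : Set (Fact U)) : Prop :=
  Ok CInf (NS A S) ∧ ∀ s : Fact U, Ok CInf (NS A (insert s S)) → s ∈ S

lemma exists_max (A : Str U) (S : Set (Fact U)) (hS : Ok CInf (NS A S)) :
    ∃ S', S ⊆ S' ∧ IsMaxS A S' := by
  obtain ⟨S', h1, h2⟩ := zorn_subset_nonempty {S | Ok CInf (NS A S)} (fun c hc hch hne =>
    ⟨⋃₀ c, NS_sUnion_ok cinf_good A c hch hne hc, fun s hs => Set.subset_sUnion_of_mem hs⟩) S hS
  refine ⟨S', h1, h2.prop, fun s hs => ?_⟩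
  exact h2.le_of_ge hs (Set.subset_insert s S') (Set.mem_insert s S')

lemma true_mem {A : Str U} {S : Set (Fact U)} (hS : IsMaxS A S) (s : Fact U)
    (w : Fin s.k.1 → VN U) (hw : Hom s.k.2 (NS A S) (blk s.u s.v w) (blk s.u s.v w)) : s ∈ S := by
  classical
  by_contra hs
  apply hs
  apply hS.2
  let f : VN U → VN U := Sum.elim Sum.inl fun p =>
    if h : p.1 = s ∧ p.2 < s.k.1 then w ⟨p.2, h.2⟩ else .inr p
  refine Ok.of_hom cinf_good (f := f) (g := f) (hom_NS ?_ ?_) hS.1
  · exact bt_hom A S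
  · intro s' hs'
    by_cases hss : s' = s
    · subst hss
      have : f ∘ em s' = blk s'.u s'.v w := by
        funext x
        rcases x with x | x | x
        · rfl
        · rfl
        · exact dif_pos (⟨rfl, x.2⟩ : s' = s' ∧ x.1 < s'.k.1)
      rw [this]
      exact hw
    · have hs'' : s' ∈ S := hs'.resolve_left hss
      have : f ∘ em s' = em s' := by
        funext x
        rcases x with x | x | x
        · rfl
        · rfl
        · exact dif_neg (fun h : s' = s ∧ x.1 < s.k.1 => hss h.1)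
      rw [this]
      exact fact_hom A hs''

/-- The extra vertices of the structures `chi`. -/
def XI (U : Type) (m : ℕ) : Option (U × U) → Type
  | none => DtV m
  | some _ => Unit

instance (m : ℕ) (i : Option (U × U)) : Finite (XI U m i) := by
  cases i with
  | none => exact dtV_finite m
  | some p => exact inferInstanceAs (Finite Unit)

/-- The structures `chi`: either a copy of `Dt m` above both blocks, or a common face for a pair
of faces. -/
def chi (A : Str U) (m : ℕ) : (i : Option (U × U)) → Str (U ⊕ U ⊕ XI U m i)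
  | none =>
    { E := fun x y => match x, y with
        | .inr (.inr s), .inr (.inr t) => (Dt m).E s t
        | _, _ => False
      R := fun x y => match x, y with
        | .inr (.inr s), .inr (.inr t) => (Dt m).R s t
        | .inl _, .inr (.inr _) => True
        | .inr (.inl _), .inr (.inr _) => True
        | _, _ => False }
  | some p =>
    { E := fun x y => match x, y with
        | .inr (.inr _), .inl a => A.E p.1 a
        | .inr (.inr _), .inr (.inl a) => A.E p.2 a
        | _, _ => False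
      R := fun _ _ => False }

/-- The numbering of the extra vertices. -/
noncomputable def enX (m : ℕ) (i : Option (U × U)) : XI U m i ≃ Fin (Nat.card (XI U m i)) :=
  Finite.equivFin _

/-- The code of `chi`. -/
noncomputable def chiC (A : Str U) (m : ℕ) (i : Option (U × U)) : Code U :=
  ⟨Nat.card (XI U m i), (chi A m i).map (Sum.map id (Sum.map id (enX m i)))⟩

lemma chi_hom {A : Str U} {m : ℕ} {S : Set (Fact U)} {u v : Word (Option U)}
    {i : Option (U × U)} (h : (⟨u, v, chiC A m i⟩ : Fact U) ∈ S) :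
    Hom (chi A m i) (NS A S) (blk u v fun x => .inr (⟨u, v, chiC A m i⟩, (enX m i x).1))
      (blk u v fun x => .inr (⟨u, v, chiC A m i⟩, (enX m i x).1)) := by
  have h1 := (fact_hom A h).comp (hom_map_self (chi A m i) (Sum.map id (Sum.map id (enX m i))))
  convert h1 using 1 <;>
  · funext x
    rcases x with x | x | x <;> rfl

/-- Some `chi` is not in a consistent set of facts, if `(A * A) (+) Dt m` is not in the class. -/
lemma exists_chi [Finite U] {A : Str U} {m : ℕ} (hZ : ¬ CInf _ (OP (Star A A) (Dt m)))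
    {S : Set (Fact U)} (hS : Ok CInf (NS A S)) (u v : Word (Option U)) :
    ∃ i, (⟨u, v, chiC A m i⟩ : Fact U) ∉ S := by
  by_contra hall
  push Not at hall
  apply hZ
  let f : (U ⊕ U ⊕ U × U) ⊕ DtV m → VN U := Sum.elim
    (Sum.elim (fun a => .inl (u, a)) (Sum.elim (fun a => .inl (v, a))
      (fun p => .inr (⟨u, v, chiC A m (some p)⟩, (enX (U := U) m (some p) ()).1))))
    (fun t => .inr (⟨u, v, chiC A m none⟩, (enX (U := U) m none t).1))
  let g : (U ⊕ U ⊕ U × U) ⊕ DtV m → VN U := Sum.elim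
    (Sum.elim (fun a => .inl (u, a)) (Sum.elim (fun a => .inl (v, a))
      (fun p => .inl (u, p.1))))
    (fun t => .inr (⟨u, v, chiC A m none⟩, (enX (U := U) m none t).1))
  refine Ok.self (Ok.of_hom cinf_good (f := f) (g := g) ?_ hS)
  constructor
  · rintro ((x | x | x) | x) ((y | y | y) | y) hxy <;> first | exact hxy.elim | skip
    · exact (bt_hom A S).e (u, x) (u, y) (Or.inl ⟨rfl, hxy⟩)
    · exact (bt_hom A S).e (v, x) (v, y) (Or.inl ⟨rfl, hxy⟩)
    · exact (chi_hom (hall (some x))).e (.inr (.inr ())) (.inl y) hxy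
    · exact (chi_hom (hall (some x))).e (.inr (.inr ())) (.inr (.inl y)) hxy
    · exact (chi_hom (hall none)).e (.inr (.inr x)) (.inr (.inr y)) hxy
  · rintro ((x | x | x) | x) ((y | y | y) | y) hxy <;> first | exact hxy.elim | skip
    · exact (bt_hom A S).r (u, x) (u, y) (Or.inl ⟨rfl, hxy⟩)
    · exact (chi_hom (hall none)).r (.inl x) (.inr (.inr y)) trivial
    · exact (bt_hom A S).r (v, x) (v, y) (Or.inl ⟨rfl, hxy⟩)
    · exact (chi_hom (hall none)).r (.inr (.inl x)) (.inr (.inr y)) trivial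
    · exact (chi_hom (hall none)).r (.inl x.1) (.inr (.inr y)) trivial
    · exact (chi_hom (hall none)).r (.inr (.inr x)) (.inr (.inr y)) hxy

/-- Inclusions for the union of two structures over two blocks. -/
def iL {P X : Type} : U ⊕ U ⊕ P → U ⊕ U ⊕ (P ⊕ X) := Sum.map id (Sum.map id Sum.inl)

/-- Inclusions for the union of two structures over two blocks. -/
def iR {P X : Type} : U ⊕ U ⊕ X → U ⊕ U ⊕ (P ⊕ X) := Sum.map id (Sum.map id Sum.inr)

/-- The union of two structures over two blocks. -/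
def UnS {P X : Type} (ψ : Str (U ⊕ U ⊕ P)) (χ : Str (U ⊕ U ⊕ X)) : Str (U ⊕ U ⊕ (P ⊕ X)) :=
  (ψ.map iL).union (χ.map iR)

lemma uns_left {P X : Type} (ψ : Str (U ⊕ U ⊕ P)) (χ : Str (U ⊕ U ⊕ X)) :
    Hom ψ (UnS ψ χ) iL iL := (hom_union_left _ _).comp (hom_map_self ψ iL)

lemma uns_right {P X : Type} (ψ : Str (U ⊕ U ⊕ P)) (χ : Str (U ⊕ U ⊕ X)) :
    Hom χ (UnS ψ χ) iR iR := (hom_union_right _ _).comp (hom_map_self χ iR)

/-- The colours. -/
def Col (A : Str U) (m : ℕ) : Type :=
  {k : Option (U × U) × Code U // ¬ CInf _ (UnS k.2.2 (chi A m k.1))}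

instance str_finite {V : Type u} [Finite V] : Finite (Str V) := by
  have : Function.Injective (fun F : Str V => (F.E, F.R)) := by
    rintro ⟨e, r⟩ ⟨e', r'⟩ h
    simp only [Prod.mk.injEq] at h
    obtain ⟨rfl, rfl⟩ := h
    rfl
  exact Finite.of_injective _ this

instance col_countable [Finite U] (A : Str U) (m : ℕ) : Countable (Col A m) := by
  unfold Col Code
  infer_instance

end

end PosSOP
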