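import Pool.Agent.Helper68.PSOps

/-!
The main combinatorial theorem, assuming the key step.
-/

namespace PosSOP

instance gV_finite : ∀ n, Finite (GV n)
  | 0 => inferInstanceAs (Finite Unit)
  | n + 1 => by
    have := gV_finite n
    exact inferInstanceAs (Finite (Unit ⊕ (GV n ⊕ GV n)))

lemma cinf_Rt {V : Type} [Finite V] {F : Str V} (hF : CInf _ F) : CInf _ (Rt F) := by
  refine CInf.mono (F := Rt F) (G := J (Dt 0) F) (f := Sum.map id Sum.inr)
    (g := Sum.map id Sum.inr) ?_ (cinf_J (cinf_good.base 0) hF)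
  constructor <;> rintro (x | x) (y | y) hxy <;>
    first | exact hxy.elim | exact hxy | exact trivial

lemma cinf_gt (key : KeyStep) : ∀ n, CInf _ (Gt n)
  | 0 => inA_pt.cinf
  | n + 1 => by
    have ih := cinf_gt key n
    exact cinf_Rt (cinf_op key ih ih)

/-- The embedding of the binary tree. -/
def emb : (n : ℕ) → List Bool → GV n
  | 0, _ => ()
  | _ + 1, [] => .inl ()
  | n + 1, false :: l => .inr (.inl (emb n l))
  | n + 1, true :: l => .inr (.inr (emb n l))

lemma emb_E : ∀ (n : ℕ) (μ σ : List Bool), μ <+: σ → σ.length ≤ n → (Gt n).E (emb n σ) (emb n μ)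
  | 0, _, _, _, _ => trivial
  | n + 1, [], σ, _, _ => by
    cases σ with
    | nil => exact trivial
    | cons b σ => cases b <;> exact trivial
  | n + 1, b :: μ, [], h, _ => by simp at h
  | n + 1, b :: μ, b' :: σ, h, hl => by
    rw [List.cons_prefix_cons] at h
    obtain ⟨rfl, h⟩ := h
    have ih := emb_E n μ σ h (by simpa using hl)
    cases b <;> exact ih

lemma emb_R : ∀ (n : ℕ) (μ η : List Bool), LexInc μ η → μ.length ≤ n → η.length ≤ n →
    (Gt n).R (emb n μ) (emb n η)
  | 0, _, _, h, h1, _ => by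
    cases h <;> simp at h1
  | n + 1, _, _, .split μ η, _, _ => trivial
  | n + 1, _, _, .cons b h, h1, h2 => by
    have ih := emb_R n _ _ h (by simpa using h1) (by simpa using h2)
    cases b <;> exact ih

/-- The formula along branches. -/
def Φ0 : Str (Unit ⊕ Unit ⊕ Empty) where
  E := fun x y => match x, y with
    | .inl _, .inr (.inl _) => True
    | _, _ => False
  R := fun _ _ => False

/-- The formula between incomparable nodes. -/
def Ψ0 : Str (Unit ⊕ Unit ⊕ Empty ⊕ Empty) where
  E := fun _ _ => False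
  R := fun x y => match x, y with
    | .inl _, .inr (.inl _) => True
    | _, _ => False

theorem core_of_key (key : KeyStep) : CInf _ F0 := by
  have h : CInf _ (Concl Φ0 Ψ0) := by
    refine cinf_good.rule Φ0 Ψ0 fun n => ⟨GV n, inferInstance, Gt n, cinf_gt key n, ?_⟩
    refine ⟨fun σ _ => emb n σ, fun μ _ => emb n μ, Empty.elim, fun _ _ => Empty.elim, ?_, ?_⟩
    · intro μ σ hμ hσ
      have := emb_E n μ σ hμ hσ
      constructor
      · rintro (x | x | x) (y | y | y) hxy <;> first | exact hxy.elim | exact this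
      · intro x y hxy
        exact hxy.elim
    · intro μ η hμ h1 h2
      have := emb_R n μ η hμ h1 h2
      constructor
      · intro x y hxy
        exact hxy.elim
      · rintro (x | x | x) (y | y | y) hxy <;> first | exact hxy.elim | exact this
  let f : Fin 3 → Unit ⊕ Unit ⊕ Unit ⊕ Empty ⊕ Empty :=
    ![.inl (), .inr (.inl ()), .inr (.inr (.inl ()))]
  refine CInf.mono (F := F0) (f := f) (g := f) ?_ h
  constructor
  · rintro x y ⟨rfl, rfl | rfl⟩
    · exact (concl_hom_j1 Φ0 Ψ0).e (.inl ()) (.inr (.inl ())) trivial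
    · exact (concl_hom_j2 Φ0 Ψ0).e (.inl ()) (.inr (.inl ())) trivial
  · rintro x y ⟨rfl, rfl⟩
    exact (concl_hom_inr Φ0 Ψ0).r (.inl ()) (.inr (.inl ())) trivial

end PosSOP
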