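import Mathlib

/-!
Words of arbitrary ordinal length.
-/

namespace PosSOP

open Set

/-- Words over `D` of ordinal length. -/
structure Word (D : Type) where
  len : Ordinal.{0}
  f : Ordinal.{0} → Option D
  h : ∀ β, f β ≠ none ↔ β < len

namespace Word

variable {D : Type}

lemma ext_f {v w : Word D} (h : v.f = w.f) : v = w := by
  have hl : v.len = w.len := by
    refine le_antisymm ?_ ?_
    · by_contra hlt
      push Not at hlt
      have := (v.h w.len).2 hlt
      rw [h] at this
      exact lt_irrefl _ ((w.h _).1 this)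
    · by_contra hlt
      push Not at hlt
      have := (w.h v.len).2 hlt
      rw [← h] at this
      exact lt_irrefl _ ((v.h _).1 this)
  cases v; cases w
  simp only at h hl
  subst h hl
  rfl

lemma f_none {v : Word D} {β : Ordinal} (h : v.len ≤ β) : v.f β = none := by
  by_contra hn
  exact absurd ((v.h β).1 hn) (not_lt.2 h)

instance : PartialOrder (Word D) where
  le w v := ∀ β < w.len, v.f β = w.f β
  le_refl w β _ := rfl
  le_trans a b c hab hbc β hβ := by
    have h1 := hab β hβ
    have h2 : β < b.len := by
      rw [← b.h, h1]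
      exact (a.h β).2 hβ
    rw [hbc β h2, h1]
  le_antisymm a b hab hba := by
    apply ext_f
    funext β
    by_cases hβ : β < a.len
    · exact (hab β hβ).symm
    · by_cases hβ' : β < b.len
      · exact hba β hβ'
      · rw [f_none (not_lt.1 hβ), f_none (not_lt.1 hβ')]

lemma le_def {w v : Word D} : w ≤ v ↔ ∀ β < w.len, v.f β = w.f β := Iff.rfl

lemma len_le {w v : Word D} (h : w ≤ v) : w.len ≤ v.len := by
  by_contra hlt
  push Not at hlt
  have h1 := h v.len hlt
  have h2 := (w.h v.len).2 hlt
  rw [← h1] at h2
  exact lt_irrefl _ ((v.h _).1 h2)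

/-- `v` extends `w` followed by the letter `d`. -/
def dir (w v : Word D) (d : D) : Prop := w ≤ v ∧ v.f w.len = some d

lemma dir.le {w v : Word D} {d : D} (h : dir w v d) : w ≤ v := h.1

lemma dir.len_lt {w v : Word D} {d : D} (h : dir w v d) : w.len < v.len := by
  rw [← v.h, h.2]
  exact Option.some_ne_none d

lemma dir.unique {w v : Word D} {d d' : D} (h : dir w v d) (h' : dir w v d') : d = d' :=
  Option.some.inj (h.2.symm.trans h'.2)

lemma dir.mono {w v v' : Word D} {d : D} (h : dir w v d) (hv : v ≤ v') : dir w v' d :=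
  ⟨h.1.trans hv, (hv _ h.len_lt).trans h.2⟩

lemma dir.ne {w v : Word D} {d : D} (h : dir w v d) : w ≠ v := fun e => by
  have := h.len_lt
  rw [e] at this
  exact lt_irrefl _ this

lemma comparable {w w' v : Word D} (h : w ≤ v) (h' : w' ≤ v) (hl : w.len ≤ w'.len) : w ≤ w' := by
  intro β hβ
  rw [← h β hβ, h' β (hβ.trans_le hl)]

lemma comparable' {w w' v : Word D} (h : w ≤ v) (h' : w' ≤ v) : w ≤ w' ∨ w' ≤ w :=
  (le_total w.len w'.len).imp (comparable h h') (comparable h' h)

lemma exists_dir {w v : Word D} (h : w ≤ v) (hne : w ≠ v) : ∃ d, dir w v d := by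
  cases hd : v.f w.len with
  | some d => exact ⟨d, h, hd⟩
  | none =>
    exfalso
    apply hne
    apply ext_f
    funext β
    by_cases hβ : β < w.len
    · exact (h β hβ).symm
    · rw [f_none (not_lt.1 hβ)]
      have : v.len ≤ w.len := by
        by_contra hlt
        push Not at hlt
        exact (v.h _).2 hlt hd
      rw [f_none (this.trans (not_lt.1 hβ))]

lemma exists_dir_of_lt {w v : Word D} (h : w < v) : ∃ d, dir w v d := exists_dir h.le h.ne

lemma dir.lt {w v : Word D} {d : D} (h : dir w v d) : w < v := lt_of_le_of_ne h.1 h.ne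

/-- A word followed by a letter. -/
noncomputable def snoc (w : Word D) (d : D) : Word D where
  len := w.len + 1
  f β := if β = w.len then some d else w.f β
  h β := by
    by_cases hβ : β = w.len
    · simp [hβ]
    · simp only [hβ, if_false]
      rw [w.h, Order.lt_add_one_iff, le_iff_lt_or_eq]
      simp [hβ]

lemma snoc_len (w : Word D) (d : D) : (w.snoc d).len = w.len + 1 := rfl

lemma dir_iff {w v : Word D} {d : D} : dir w v d ↔ w.snoc d ≤ v := by
  constructor
  · rintro ⟨h1, h2⟩ β hβ
    rw [snoc_len, Order.lt_add_one_iff] at hβ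
    by_cases h : β = w.len
    · simp only [snoc, h, if_true]
      exact h2
    · simp only [snoc, h, if_false]
      exact h1 β (lt_of_le_of_ne hβ h)
  · intro h
    constructor
    · intro β hβ
      have := h β (by rw [snoc_len, Order.lt_add_one_iff]; exact hβ.le)
      simpa only [snoc, hβ.ne, if_false] using this
    · have := h w.len (by rw [snoc_len, Order.lt_add_one_iff])
      simpa only [snoc, if_true] using this

lemma dir_snoc (w : Word D) (d : D) : dir w (w.snoc d) d := dir_iff.2 le_rfl

lemma le_snoc (w : Word D) (d : D) : w ≤ w.snoc d := (dir_snoc w d).1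

/-- The restriction of a word. -/
noncomputable def take (v : Word D) (γ : Ordinal) : Word D := by
  classical
  exact
  { len := min γ v.len
    f := fun β => if β < γ then v.f β else none
    h := fun β => by
      by_cases hβ : β < γ
      · simp [hβ, v.h]
      · simp [hβ] }

lemma take_le (v : Word D) (γ : Ordinal) : v.take γ ≤ v := by
  intro β hβ
  have : β < γ := lt_of_lt_of_le hβ (min_le_left _ _)
  simp [take, this]

lemma take_len {v : Word D} {γ : Ordinal} (h : γ ≤ v.len) : (v.take γ).len = γ := min_eq_left h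

lemma take_eq {w v : Word D} (h : w ≤ v) : v.take w.len = w :=
  le_antisymm (comparable (take_le _ _) h (min_le_left _ _))
    (comparable h (take_le _ _) (take_len (len_le h)).ge)

lemma take_of_le {w v : Word D} (h : w ≤ v) {γ : Ordinal} (hγ : γ ≤ w.len) :
    v.take γ = w.take γ := by
  have h1 : (v.take γ).len = γ := take_len (hγ.trans (len_le h))
  have h2 : (w.take γ).len = γ := take_len hγ
  exact le_antisymm (comparable (take_le _ _) ((take_le _ _).trans h) (h1.trans h2.symm).le)
    (comparable ((take_le _ _).trans h) (take_le _ _) (h2.trans h1.symm).le)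

/-- The empty word. -/
def nil : Word D where
  len := 0
  f _ := none
  h β := by simp

lemma nil_le (w : Word D) : nil ≤ w := fun _ hβ => absurd hβ (not_lt.2 (zero_le))

lemma exists_lub (S : Set (Word D)) (hc : IsChain (· ≤ ·) S) (hb : BddAbove (len '' S)) :
    ∃ w, IsLUB S w := by
  classical
  let g : Ordinal → Option D := fun β => if h : ∃ w ∈ S, β < w.len then h.choose.f β else none
  have hg : ∀ w ∈ S, ∀ β < w.len, g β = w.f β := by
    intro w hw β hβ
    have h : ∃ w ∈ S, β < w.len := ⟨w, hw, hβ⟩
    have e : g β = h.choose.f β := dif_pos h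
    rw [e]
    obtain ⟨h1, h2⟩ := h.choose_spec
    rcases hc.total h1 hw with h3 | h3
    · exact (h3 β h2).symm
    · exact h3 β hβ
  refine ⟨⟨sSup (len '' S), g, ?_⟩, ?_, ?_⟩
  · intro β
    constructor
    · intro h
      by_cases h' : ∃ w ∈ S, β < w.len
      · obtain ⟨w, hw, hβ⟩ := h'
        exact lt_of_lt_of_le hβ (le_csSup hb ⟨w, hw, rfl⟩)
      · exact absurd (dif_neg h') h
    · intro h
      obtain ⟨_, ⟨w, hw, rfl⟩, hβ⟩ := exists_lt_of_lt_csSup' h
      rw [hg w hw β hβ]
      exact (w.h β).2 hβ
  · intro w hw β hβ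
    exact hg w hw β hβ
  · intro u hu β hβ
    obtain ⟨_, ⟨w, hw, rfl⟩, hβ'⟩ := exists_lt_of_lt_csSup' hβ
    show u.f β = g β
    rw [hg w hw β hβ']
    exact hu hw β hβ'

end Word

end PosSOP
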