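import Pool.Agent.Helper68.PSBase
import Pool.Agent.Helper68.PSWords

/-!
The partition theorem: an end-homogeneous colouring of pairs of words with countably many colours
has tree configurations of every finite depth in one colour.
-/

namespace PosSOP

universe u v w

open Word

/-! ### A Rasiowa-Sikorski type lemma -/

lemma rs {S : Type u} (r : S → S → Prop) (hrefl : ∀ s, r s s)
    (htrans : ∀ a b c, r a b → r b c → r a c)
    (hω : ∀ f : ℕ → S, (∀ n, r (f n) (f (n + 1))) → ∃ t, ∀ n, r (f n) t)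
    {ι : Type v} [Countable ι] (P : ι → S → Prop) (s0 : S)
    (hd : ∀ i s, r s0 s → ∃ s', r s s' ∧ P i s')
    (hp : ∀ i s s', r s s' → P i s → P i s') : ∃ t, r s0 t ∧ ∀ i, P i t := by
  rcases isEmpty_or_nonempty ι with hE | hN
  · exact ⟨s0, hrefl s0, fun i => hE.elim i⟩
  obtain ⟨e, he⟩ := exists_surjective_nat ι
  choose g hg1 hg2 using hd
  let x : ℕ → {s // r s0 s} := fun n =>
    Nat.rec ⟨s0, hrefl s0⟩ (fun n y => ⟨g (e n) y.1 y.2, htrans _ _ _ y.2 (hg1 _ _ _)⟩) n
  have hx : ∀ n, r (x n).1 (x (n + 1)).1 := fun n => hg1 _ _ _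
  have hx2 : ∀ n, P (e n) (x (n + 1)).1 := fun n => hg2 (e n) (x n).1 (x n).2
  obtain ⟨t, ht⟩ := hω (fun n => (x n).1) hx
  refine ⟨t, ht 0, fun i => ?_⟩
  obtain ⟨n, rfl⟩ := he i
  exact hp _ _ _ (ht (n + 1)) (hx2 n)

section

variable {D K : Type}

/-- States. -/
abbrev St (D : Type) : Type 1 := Word D × (Ordinal.{0} → Word D)

lemma exists_lub_St (S : Set (St D)) (hc : IsChain (· ≤ ·) S) [Small.{0} S] :
    ∃ p, IsLUB S p := by
  have h1 : ∃ z, IsLUB (Prod.fst '' S) z := by
    refine exists_lub _ ?_ ?_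
    · rintro _ ⟨p, hp, rfl⟩ _ ⟨q, hq, rfl⟩ _
      rcases hc.total hp hq with h | h
      · exact Or.inl h.1
      · exact Or.inr h.1
    · exact Ordinal.bddAbove_of_small
  have h2 : ∀ i, ∃ z, IsLUB (Function.eval i '' (Prod.snd '' S)) z := by
    intro i
    refine exists_lub _ ?_ ?_
    · rintro _ ⟨_, ⟨p, hp, rfl⟩, rfl⟩ _ ⟨_, ⟨q, hq, rfl⟩, rfl⟩ _
      rcases hc.total hp hq with h | h
      · exact Or.inl (h.2 i)
      · exact Or.inr (h.2 i)
    · exact Ordinal.bddAbove_of_small
  obtain ⟨z, hz⟩ := h1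
  choose y hy using h2
  exact ⟨(z, y), isLUB_prod.2 ⟨hz, isLUB_pi.2 hy⟩⟩

/-- Configurations of depth `n` in colour `k`. -/
structure Cfg (c : Word D → Word D → K) (p1 p2 : K → D) (a0 a1 : D) (k : K)
    (g1 g2 h : List Bool → Word D) (n : ℕ) : Prop where
  a : ∀ l, l.length ≤ n → dir (g1 l) (g2 l) (p1 k) ∧ dir (g2 l) (h l) (p2 k)
  b : ∀ l, l.length < n → dir (h l) (g1 (l ++ [false])) a0 ∧ dir (h l) (g1 (l ++ [true])) a1
  c : ∀ μ η, LexInc μ η → μ.length ≤ n → η.length ≤ n →
    (g1 μ).len < (g2 η).len ∧ c (g1 μ) (g2 η) = k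

variable {c : Word D → Word D → K} {p1 p2 : K → D} {a0 a1 : D}

lemma Cfg.mono {k : K} {g1 g2 h : List Bool → Word D} {n m : ℕ}
    (H : Cfg c p1 p2 a0 a1 k g1 g2 h n) (hmn : m ≤ n) : Cfg c p1 p2 a0 a1 k g1 g2 h m where
  a l hl := H.a l (hl.trans hmn)
  b l hl := H.b l (hl.trans_le hmn)
  c μ η hμ h1 h2 := H.c μ η hμ (h1.trans hmn) (h2.trans hmn)

lemma Cfg.root_le {k : K} {g1 g2 h : List Bool → Word D} {n : ℕ}
    (H : Cfg c p1 p2 a0 a1 k g1 g2 h n) (l : List Bool) (hl : l.length ≤ n) : g1 [] ≤ g1 l := by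
  induction l using List.reverseRecOn with
  | nil => exact le_rfl
  | append_singleton l b ih =>
    have h1 : l.length < n := by
      rw [List.length_append] at hl
      simpa using hl
    have h2 := ih h1.le
    have h3 := H.a l h1.le
    have h4 := H.b l h1
    refine h2.trans (h3.1.le.trans (h3.2.le.trans ?_))
    cases b
    · exact h4.1.le
    · exact h4.2.le

/-- The statement `Q`. -/
def QQ (c : Word D → Word D → K) (p1 p2 : K → D) (a0 a1 : D) (k : K) (n : ℕ) (s : St D)
    (F : Finset Ordinal.{0}) : Prop :=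
  ∃ (g1 g2 h : List Bool → Word D) (w : Ordinal.{0} → Word D),
    Cfg c p1 p2 a0 a1 k g1 g2 h n ∧ s.1 ≤ g1 [] ∧
    ∀ i ∈ F, s.2 i ≤ w i ∧ ∀ l, l.length ≤ n → (g1 l).len < (w i).len ∧ c (g1 l) (w i) = k

lemma QQ.mono_state {k : K} {n : ℕ} {s s' : St D} {F : Finset Ordinal.{0}}
    (h : QQ c p1 p2 a0 a1 k n s' F) (h1 : s.1 ≤ s'.1) (h2 : ∀ i ∈ F, s.2 i ≤ s'.2 i) :
    QQ c p1 p2 a0 a1 k n s F := by
  obtain ⟨g1, g2, g, w, H1, H2, H3⟩ := h
  exact ⟨g1, g2, g, w, H1, h1.trans H2, fun i hi => ⟨(h2 i hi).trans (H3 i hi).1, (H3 i hi).2⟩⟩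

lemma QQ.mono_F {k : K} {n : ℕ} {s : St D} {F F' : Finset Ordinal.{0}}
    (h : QQ c p1 p2 a0 a1 k n s F) (hF : F' ⊆ F) : QQ c p1 p2 a0 a1 k n s F' := by
  obtain ⟨g1, g2, g, w, H1, H2, H3⟩ := h
  exact ⟨g1, g2, g, w, H1, H2, fun i hi => H3 i (hF hi)⟩

lemma QQ.mono_n {k : K} {n m : ℕ} {s : St D} {F : Finset Ordinal.{0}}
    (h : QQ c p1 p2 a0 a1 k n s F) (hm : m ≤ n) : QQ c p1 p2 a0 a1 k m s F := by
  obtain ⟨g1, g2, g, w, H1, H2, H3⟩ := h
  exact ⟨g1, g2, g, w, H1.mono hm, H2,
    fun i hi => ⟨(H3 i hi).1, fun l hl => (H3 i hi).2 l (hl.trans hm)⟩⟩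

/-- A root has been inserted. -/
def RootIns (c : Word D → Word D → K) (p1 p2 : K → D) (k : K) (F : Finset Ordinal.{0})
    (z0 : Word D) (t : St D) : Prop :=
  ∃ r1 r2 : Word D, z0 ≤ r1 ∧ dir r1 r2 (p1 k) ∧ dir r2 t.1 (p2 k) ∧
    ∀ i ∈ F, r1.len < (t.2 i).len ∧ c r1 (t.2 i) = k

lemma drop (hc : ∀ u v w : Word D, u.len < w.len → w ≤ v → c u v = c u w)
    {k : K} {n : ℕ} {F : Finset Ordinal.{0}} {α : Ordinal.{0}} {t s : St D} {z0 : Word D}
    (hroot : RootIns c p1 p2 k F z0 t)
    (hpos : ∀ s' : St D, t.1 ≤ s'.1 → (∀ i ∈ F, t.2 i ≤ s'.2 i) → QQ c p1 p2 a0 a1 k n s' F)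
    (hQ : QQ c p1 p2 a0 a1 k n s (insert α F)) (hz : dir t.1 s.1 a0) (hy : dir t.1 (s.2 α) a1)
    (hF : ∀ i ∈ F, t.2 i ≤ s.2 i) : QQ c p1 p2 a0 a1 k (n + 1) (z0, t.2) F := by
  obtain ⟨r1, r2, hr0, hr1, hr2, hr3⟩ := hroot
  obtain ⟨g1, g2, h, w, H1, H2, H3⟩ := hQ
  have Hα := H3 α (Finset.mem_insert_self _ _)
  have HF : ∀ i ∈ F, s.2 i ≤ w i ∧ ∀ l, l.length ≤ n → (g1 l).len < (w i).len ∧
      c (g1 l) (w i) = k := fun i hi => H3 i (Finset.mem_insert_of_mem hi)
  obtain ⟨g1', g2', h', w', H1', H2', H3'⟩ := hpos (w α, w) (hy.le.trans Hα.1)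
    (fun i hi => (hF i hi).trans (HF i hi).1)
  let G1 : List Bool → Word D := fun l => match l with
    | [] => r1
    | false :: l => g1 l
    | true :: l => g1' l
  let G2 : List Bool → Word D := fun l => match l with
    | [] => r2
    | false :: l => g2 l
    | true :: l => g2' l
  let H : List Bool → Word D := fun l => match l with
    | [] => t.1
    | false :: l => h l
    | true :: l => h' l
  refine ⟨G1, G2, H, w', ⟨?_, ?_, ?_⟩, hr0, ?_⟩
  · intro l hl
    match l, hl with
    | [], _ => exact ⟨hr1, hr2⟩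
    | false :: l, hl => exact H1.a l (by simpa using hl)
    | true :: l, hl => exact H1'.a l (by simpa using hl)
  · intro l hl
    match l, hl with
    | [], _ =>
      exact ⟨hz.mono H2, (hy.mono Hα.1).mono H2'⟩
    | false :: l, hl => exact H1.b l (by simpa using hl)
    | true :: l, hl => exact H1'.b l (by simpa using hl)
  · intro μ η hμ h1 h2
    match μ, η, hμ, h1, h2 with
    | _, _, .split μ η, h1, h2 =>
      have h3 : μ.length ≤ n := by simpa using h1
      have h4 : η.length ≤ n := by simpa using h2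
      have h5 : w α ≤ g2' η := H2'.trans ((H1'.root_le η h4).trans (H1'.a η h4).1.le)
      have h6 := Hα.2 μ h3
      refine ⟨h6.1.trans_le (len_le h5), ?_⟩
      rw [hc _ _ _ h6.1 h5]
      exact h6.2
    | _, _, .cons false (μ := μ) (η := η) hμ, h1, h2 =>
      exact H1.c μ η hμ (by simpa using h1) (by simpa using h2)
    | _, _, .cons true (μ := μ) (η := η) hμ, h1, h2 =>
      exact H1'.c μ η hμ (by simpa using h1) (by simpa using h2)
  · intro i hi
    refine ⟨(hF i hi).trans ((HF i hi).1.trans (H3' i hi).1), ?_⟩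
    intro l hl
    match l, hl with
    | [], _ =>
      have h1 := hr3 i hi
      have h2 : t.2 i ≤ w' i := (hF i hi).trans ((HF i hi).1.trans (H3' i hi).1)
      refine ⟨h1.1.trans_le (len_le h2), ?_⟩
      show c r1 (w' i) = k
      rw [hc _ _ _ h1.1 h2]
      exact h1.2
    | false :: l, hl =>
      have h1 := (HF i hi).2 l (by simpa using hl)
      have h2 : w i ≤ w' i := (H3' i hi).1
      refine ⟨h1.1.trans_le (len_le h2), ?_⟩
      show c (g1 l) (w' i) = k
      rw [hc _ _ _ h1.1 h2]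
      exact h1.2
    | true :: l, hl => exact (H3' i hi).2 l (by simpa using hl)

/-- All coordinates from `α` on are empty. -/
def Inv (α : Ordinal.{0}) (s : St D) : Prop := ∀ i, α ≤ i → s.2 i = nil

lemma le_nil {w : Word D} (h : w ≤ nil) : w = nil := le_antisymm h (nil_le w)

lemma stage (hc : ∀ u v w : Word D, u.len < w.len → w ≤ v → c u v = c u w) [Countable K]
    {α : Ordinal.{0}} (hα : (Set.Iio α).Countable) (s : St D) (hs : Inv α s) :
    ∃ t : St D, s ≤ t ∧ Inv α t ∧
      (∀ k n (F : Finset Ordinal.{0}), (∀ i ∈ F, i < α) → QQ c p1 p2 a0 a1 k n t F →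
        ∀ s' : St D, t.1 ≤ s'.1 → (∀ i ∈ F, t.2 i ≤ s'.2 i) → QQ c p1 p2 a0 a1 k n s' F) ∧
      (∀ k (F : Finset Ordinal.{0}), (∀ i ∈ F, i < α) → QQ c p1 p2 a0 a1 k 0 t F →
        RootIns c p1 p2 k F s.1 t) := by
  classical
  -- finite sets below `α`
  let FF : Type 1 := {F : Finset Ordinal.{0} // ∀ i ∈ F, i < α}
  have hFF : Countable FF := by
    have h1 : Countable (Set.Iio α) := hα.to_subtype
    have h2 : Function.Injective
        (fun F : FF => (F.1.subtype (fun i => i ∈ Set.Iio α) : Finset (Set.Iio α))) := by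
      intro F F' h
      apply Subtype.ext
      ext i
      by_cases hi : i < α
      · have : (⟨i, hi⟩ : Set.Iio α) ∈ F.1.subtype (fun i => i ∈ Set.Iio α) ↔
            (⟨i, hi⟩ : Set.Iio α) ∈ F'.1.subtype (fun i => i ∈ Set.Iio α) := by
          have h' : F.1.subtype (fun i => i ∈ Set.Iio α) =
            F'.1.subtype (fun i => i ∈ Set.Iio α) := h
          rw [h']
        simpa using this
      · exact ⟨fun h => absurd (F.2 i h) hi, fun h => absurd (F'.2 i h) hi⟩
    exact h2.countable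
  let r : St D → St D → Prop := fun s s' => s ≤ s' ∧ ∀ i, α ≤ i → s'.2 i = s.2 i
  let P : (K × ℕ × FF) ⊕ (K × FF) → St D → Prop := fun x s' => match x with
    | .inl x => QQ c p1 p2 a0 a1 x.1 x.2.1 s' x.2.2.1 → ∀ s'' : St D, s'.1 ≤ s''.1 →
        (∀ i ∈ x.2.2.1, s'.2 i ≤ s''.2 i) → QQ c p1 p2 a0 a1 x.1 x.2.1 s'' x.2.2.1
    | .inr x => QQ c p1 p2 a0 a1 x.1 0 s' x.2.1 → RootIns c p1 p2 x.1 x.2.1 s.1 s'
  obtain ⟨t, ht1, ht2⟩ := rs r (fun s => ⟨le_rfl, fun _ _ => rfl⟩)
    (fun a b c h1 h2 => ⟨h1.1.trans h2.1, fun i hi => (h2.2 i hi).trans (h1.2 i hi)⟩)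
    (by
      intro f hf
      have hmono : Monotone f := monotone_nat_of_le_succ fun n => (hf n).1
      obtain ⟨t, ht⟩ := exists_lub_St (Set.range f) hmono.isChain_range
      have hconst : ∀ n i, α ≤ i → (f n).2 i = (f 0).2 i := by
        intro n i hi
        induction n with
        | zero => rfl
        | succ n ih => rw [(hf n).2 i hi, ih]
      refine ⟨(t.1, fun i => if α ≤ i then (f 0).2 i else t.2 i), fun n => ⟨⟨?_, ?_⟩, ?_⟩⟩
      · exact (ht.1 ⟨n, rfl⟩).1
      · intro i
        show (f n).2 i ≤ if α ≤ i then (f 0).2 i else t.2 i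
        split_ifs with hi
        · exact (hconst n i hi).le
        · exact (ht.1 ⟨n, rfl⟩).2 i
      · intro i hi
        show (if α ≤ i then (f 0).2 i else t.2 i) = (f n).2 i
        rw [if_pos hi, hconst n i hi])
    P s
    (by
      rintro (x | x) s' hs'
      · by_cases h : ∀ s'' : St D, s'.1 ≤ s''.1 →
          (∀ i ∈ x.2.2.1, s'.2 i ≤ s''.2 i) → QQ c p1 p2 a0 a1 x.1 x.2.1 s'' x.2.2.1
        · exact ⟨s', ⟨le_rfl, fun _ _ => rfl⟩, fun _ => h⟩
        · push Not at h
          obtain ⟨s'', h1, h2, h3⟩ := h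
          refine ⟨(s''.1, fun i => if i ∈ x.2.2.1 then s''.2 i else s'.2 i), ⟨⟨h1, ?_⟩, ?_⟩, ?_⟩
          · intro i
            show s'.2 i ≤ if i ∈ x.2.2.1 then s''.2 i else s'.2 i
            split_ifs with hi
            · exact h2 i hi
            · exact le_rfl
          · intro i hi
            show (if i ∈ x.2.2.1 then s''.2 i else s'.2 i) = s'.2 i
            rw [if_neg]
            intro h'
            exact absurd (x.2.2.2 i h') (not_lt.2 hi)
          · intro h4
            refine absurd (h4.mono_state (s := s'') le_rfl fun i hi => ?_) h3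
            show s''.2 i ≤ if i ∈ x.2.2.1 then s''.2 i else s'.2 i
            rw [if_pos hi]
      · by_cases h : QQ c p1 p2 a0 a1 x.1 0 s' x.2.1
        · obtain ⟨g1, g2, g, w, H1, H2, H3⟩ := h
          have Ha := H1.a [] le_rfl
          refine ⟨(g [], fun i => if i ∈ x.2.1 then w i else s'.2 i), ⟨⟨?_, ?_⟩, ?_⟩, fun _ => ?_⟩
          · exact H2.trans (Ha.1.le.trans Ha.2.le)
          · intro i
            show s'.2 i ≤ if i ∈ x.2.1 then w i else s'.2 i
            split_ifs with hi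
            · exact (H3 i hi).1
            · exact le_rfl
          · intro i hi
            show (if i ∈ x.2.1 then w i else s'.2 i) = s'.2 i
            rw [if_neg]
            intro h'
            exact absurd (x.2.2 i h') (not_lt.2 hi)
          · refine ⟨g1 [], g2 [], hs'.1.1.trans H2, Ha.1, Ha.2, fun i hi => ?_⟩
            show (g1 []).len < (if i ∈ x.2.1 then w i else s'.2 i).len ∧
              c (g1 []) (if i ∈ x.2.1 then w i else s'.2 i) = x.1
            rw [if_pos hi]
            exact (H3 i hi).2 [] le_rfl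
        · exact ⟨s', ⟨le_rfl, fun _ _ => rfl⟩, fun h' => absurd h' h⟩)
    (by
      rintro (x | x) s' s'' h1 h2
      · intro h3 s3 h4 h5
        refine h2 (h3.mono_state h1.1.1 fun i _ => h1.1.2 i) s3 (h1.1.1.trans h4)
          fun i hi => (h1.1.2 i).trans (h5 i hi)
      · intro h3
        obtain ⟨r1, r2, hr0, hr1, hr2, hr3⟩ := h2 (h3.mono_state h1.1.1 fun i _ => h1.1.2 i)
        refine ⟨r1, r2, hr0, hr1, hr2.mono h1.1.1, fun i hi => ?_⟩
        have h4 := hr3 i hi
        refine ⟨h4.1.trans_le (len_le (h1.1.2 i)), ?_⟩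
        rw [hc _ _ _ h4.1 (h1.1.2 i)]
        exact h4.2)
  refine ⟨t, ht1.1, ?_, ?_, ?_⟩
  · intro i hi
    rw [ht1.2 i hi]
    exact hs i hi
  · intro k n F hF
    exact ht2 (.inl (k, n, ⟨F, hF⟩))
  · intro k F hF
    exact ht2 (.inr (k, ⟨F, hF⟩))

/-- The tower of states. -/
noncomputable def tow (lubf : Set (St D) → St D) (G : Ordinal.{0} → St D → St D) :
    Ordinal.{0} → St D
  | α => lubf {p | ∃ β, ∃ _ : β < α, p = G β (tow lubf G β)}
termination_by α => α

/-- The set below `α` in the tower. -/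
def SS (T : Ordinal.{0} → St D) (G : Ordinal.{0} → St D → St D) (α : Ordinal.{0}) : Set (St D) :=
  {p | ∃ β, ∃ _ : β < α, p = G β (T β)}

lemma exists_tower (G : Ordinal.{0} → St D → St D)
    (h1 : ∀ α s, Inv α s → s ≤ G α s) (h2 : ∀ α s, Inv α s → Inv (α + 1) (G α s)) :
    ∃ T : Ordinal.{0} → St D, (∀ α, Inv α (T α)) ∧ (∀ β α, β < α → G β (T β) ≤ T α) := by
  classical
  let lubf : Set (St D) → St D := fun S =>
    if h : ∃ p, IsLUB S p then h.choose else (nil, fun _ => nil)
  have hlub : ∀ S p, IsLUB S p → IsLUB S (lubf S) := by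
    intro S p hp
    have h : ∃ p, IsLUB S p := ⟨p, hp⟩
    have : lubf S = h.choose := dif_pos h
    rw [this]
    exact h.choose_spec
  let T := tow lubf G
  have hT : ∀ α, T α = lubf (SS T G α) := by
    intro α
    show tow lubf G α = _
    rw [tow]
    rfl
  have main : ∀ α, IsLUB (SS T G α) (T α) ∧ Inv α (T α) := by
    intro α
    induction α using WellFoundedLT.induction with
    | ind α ih =>
      have hchain : IsChain (· ≤ ·) (SS T G α) := by
        rintro _ ⟨β, hβ, rfl⟩ _ ⟨γ, hγ, rfl⟩ hne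
        rcases lt_trichotomy β γ with h | h | h
        · left
          exact ((ih γ hγ).1.1 ⟨β, h, rfl⟩).trans (h1 _ _ (ih γ hγ).2)
        · subst h
          exact absurd rfl hne
        · right
          exact ((ih β hβ).1.1 ⟨γ, h, rfl⟩).trans (h1 _ _ (ih β hβ).2)
      have hsmall : Small.{0} (SS T G α) := by
        have : SS T G α = (fun β => G β (T β)) '' Set.Iio α := by
          ext p
          constructor
          · rintro ⟨β, hβ, rfl⟩
            exact ⟨β, hβ, rfl⟩
          · rintro ⟨β, hβ, rfl⟩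
            exact ⟨β, hβ, rfl⟩
        rw [this]
        infer_instance
      obtain ⟨p, hp⟩ := exists_lub_St (SS T G α) hchain
      have hL : IsLUB (SS T G α) (T α) := by
        rw [hT]
        exact hlub _ p hp
      refine ⟨hL, ?_⟩
      intro i hi
      have hle : T α ≤ ((T α).1, Function.update (T α).2 i nil) := by
        apply hL.2
        rintro _ ⟨β, hβ, rfl⟩
        have h3 := hL.1 (show G β (T β) ∈ SS T G α from ⟨β, hβ, rfl⟩)
        have h4 := h2 β (T β) (ih β hβ).2
        refine ⟨h3.1, fun j => ?_⟩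
        show (G β (T β)).2 j ≤ Function.update (T α).2 i nil j
        by_cases hj : j = i
        · subst hj
          rw [Function.update_self, h4 j ((Order.add_one_le_iff.2 hβ).trans hi)]
        · rw [Function.update_of_ne hj]
          exact h3.2 j
      have h5 := hle.2 i
      apply le_nil
      simpa using h5
  exact ⟨T, fun α => (main α).2, fun β α h => (main α).1.1 ⟨β, h, rfl⟩⟩

lemma exists_long (w : Word D) (a : D) (γ : Ordinal.{0}) : ∃ v, w ≤ v ∧ γ < v.len := by
  classical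
  refine ⟨⟨max w.len (γ + 1), fun β => if β < w.len then w.f β else
    if β < γ + 1 then some a else none, ?_⟩, ?_, ?_⟩
  · intro β
    by_cases h : β < w.len
    · simp [h, w.h]
    · by_cases h' : β < γ + 1
      · simp [h, h']
      · simp [h, h']
  · intro β hβ
    exact if_pos hβ
  · exact lt_of_lt_of_le (Order.lt_add_one_iff.2 le_rfl) (le_max_right _ _)

open Cardinal in
lemma ctb {α : Ordinal.{0}} (h : α < (ℵ₁ : Cardinal.{0}).ord) : (Set.Iio α).Countable := by
  rw [← Cardinal.le_aleph0_iff_set_countable, Cardinal.mk_Iio_ordinal]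
  rw [Cardinal.lt_ord] at h
  have h1 : α.card ≤ ℵ₀ := by
    rw [← Order.lt_succ_iff, Cardinal.succ_aleph0]
    exact h
  simpa using Cardinal.lift_le.2 h1

open Cardinal in
lemma unctb : ¬ (Set.Iio (ℵ₁ : Cardinal.{0}).ord).Countable := by
  rw [← Cardinal.le_aleph0_iff_set_countable, Cardinal.mk_Iio_ordinal, not_le]
  simp

/-- The partition theorem. -/
theorem partition [Countable K]
    (hc : ∀ u v w : Word D, u.len < w.len → w ≤ v → c u v = c u w) (p1 p2 : K → D) (a0 a1 : D) :
    ∃ k, ∀ n, ∃ g1 g2 h, Cfg c p1 p2 a0 a1 k g1 g2 h n := by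
  classical
  let ω1 : Ordinal.{0} := (Cardinal.aleph 1).ord
  have hst := fun (α : Ordinal.{0}) (hα : (Set.Iio α).Countable) (s : St D) (hs : Inv α s) =>
    stage (p1 := p1) (p2 := p2) (a0 := a0) (a1 := a1) hc hα s hs
  choose tf ht1 ht2 ht3 ht4 using hst
  let G : Ordinal.{0} → St D → St D := fun α s =>
    if h : (Set.Iio α).Countable ∧ Inv α s then
      ((tf α h.1 s h.2).1.snoc a0,
        Function.update (tf α h.1 s h.2).2 α ((tf α h.1 s h.2).1.snoc a1))
    else s
  have hG : ∀ α (h1 : (Set.Iio α).Countable) s (h2 : Inv α s), G α s =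
      ((tf α h1 s h2).1.snoc a0, Function.update (tf α h1 s h2).2 α
        ((tf α h1 s h2).1.snoc a1)) := fun α h1 s h2 => dif_pos ⟨h1, h2⟩
  obtain ⟨T, hT1, hT2⟩ := exists_tower G
    (by
      intro α s hs
      by_cases h : (Set.Iio α).Countable
      · rw [hG α h s hs]
        have h1 := ht1 α h s hs
        refine ⟨h1.1.trans (le_snoc _ _), fun i => ?_⟩
        show s.2 i ≤ Function.update (tf α h s hs).2 α ((tf α h s hs).1.snoc a1) i
        by_cases hi : i = α
        · subst hi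
          rw [hs i le_rfl]
          exact nil_le _
        · rw [Function.update_of_ne hi]
          exact h1.2 i
      · have : G α s = s := dif_neg fun h' => h h'.1
        rw [this])
    (by
      intro α s hs
      by_cases h : (Set.Iio α).Countable
      · rw [hG α h s hs]
        intro i hi
        have hi' : α < i := Order.add_one_le_iff.1 hi
        show Function.update (tf α h s hs).2 α ((tf α h s hs).1.snoc a1) i = nil
        rw [Function.update_of_ne hi'.ne']
        exact ht2 α h s hs i hi'.le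
      · have : G α s = s := dif_neg fun h' => h h'.1
        rw [this]
        intro i hi
        exact hs i ((Order.add_one_le_iff.1 hi).le))
  -- dropping indices one by one
  have main : ∀ (m : ℕ) (F : Finset Ordinal.{0}), F.card = m → ∀ lam : Ordinal.{0},
      (∀ i ∈ F, i < lam ∧ i < ω1) → ∀ k n, QQ c p1 p2 a0 a1 k n (T lam) F →
      QQ c p1 p2 a0 a1 k (n + m) (nil, fun _ => nil) ∅ := by
    intro m
    induction m with
    | zero =>
      intro F hF lam _ k n hQ
      rw [Finset.card_eq_zero] at hF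
      subst hF
      exact hQ.mono_state (nil_le _) (fun i hi => by simp at hi)
    | succ m ih =>
      intro F hF lam hlam k n hQ
      have hne : F.Nonempty := by
        rw [← Finset.card_pos]
        omega
      set α := F.max' hne with hα
      have hαF : α ∈ F := F.max'_mem hne
      obtain ⟨hαlam, hαω⟩ := hlam α hαF
      let F' := F.erase α
      have hF' : F'.card = m := by
        rw [Finset.card_erase_of_mem hαF, hF]
        rfl
      have hF'lt : ∀ i ∈ F', i < α := by
        intro i hi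
        have h1 := Finset.ne_of_mem_erase hi
        exact lt_of_le_of_ne (F.le_max' i (Finset.mem_of_mem_erase hi)) h1
      have hins : insert α F' = F := Finset.insert_erase hαF
      have hcα := ctb hαω
      set t := tf α hcα (T α) (hT1 α) with ht
      have hGle := hT2 α lam hαlam
      rw [hG α hcα (T α) (hT1 α)] at hGle
      have hz : dir t.1 (T lam).1 a0 := dir_iff.2 hGle.1
      have hy : dir t.1 ((T lam).2 α) a1 := by
        have := hGle.2 α
        change Function.update t.2 α (t.1.snoc a1) α ≤ _ at this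
        rw [Function.update_self] at this
        exact dir_iff.2 this
      have hF1 : ∀ i ∈ F', t.2 i ≤ (T lam).2 i := by
        intro i hi
        have := hGle.2 i
        change Function.update t.2 α (t.1.snoc a1) i ≤ _ at this
        rw [Function.update_of_ne (hF'lt i hi).ne] at this
        exact this
      have hQ' : QQ c p1 p2 a0 a1 k n t F' :=
        (hQ.mono_F (Finset.erase_subset _ _)).mono_state hz.le hF1
      have hpos := ht3 α hcα (T α) (hT1 α) k n F' hF'lt hQ'
      have hroot := ht4 α hcα (T α) (hT1 α) k F' hF'lt (hQ'.mono_n (Nat.zero_le _))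
      have hQ2 := drop hc hroot hpos (by rw [hins]; exact hQ) hz hy hF1
      have hQ3 : QQ c p1 p2 a0 a1 k (n + 1) (T α) F' :=
        hQ2.mono_state le_rfl fun i _ => (ht1 α hcα (T α) (hT1 α)).2 i
      have := ih F' hF' α (fun i hi => ⟨hF'lt i hi, (hF'lt i hi).trans hαω⟩) k (n + 1) hQ3
      rw [show n + (m + 1) = n + 1 + m by omega]
      exact this
  -- the colour
  set u := (T ω1).1 with hu
  have hlong := fun i => exists_long ((T ω1).2 i) a0 u.len
  choose w hw1 hw2 using hlong
  obtain ⟨k, hk⟩ : ∃ k, ({i | i < ω1 ∧ c u (w i) = k}).Infinite := by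
    by_contra hcon
    push Not at hcon
    apply unctb
    have : Set.Iio (Cardinal.aleph 1).ord = ⋃ k, {i | i < ω1 ∧ c u (w i) = k} := by
      ext i
      simp [ω1]
    rw [this]
    exact Set.countable_iUnion fun k => (hcon k).countable
  refine ⟨k, fun n => ?_⟩
  obtain ⟨F, hF1, hF2⟩ := hk.exists_subset_card_eq n
  have hQ : QQ c p1 p2 a0 a1 k 0 (T ω1) F := by
    refine ⟨fun _ => u, fun _ => u.snoc (p1 k), fun _ => (u.snoc (p1 k)).snoc (p2 k), w,
      ⟨?_, ?_, ?_⟩, le_rfl, ?_⟩
    · intro l _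
      exact ⟨dir_snoc _ _, dir_snoc _ _⟩
    · intro l hl
      simp at hl
    · intro μ η hμ h1 _
      cases hμ <;> simp at h1
    · intro i hi
      have := hF1 hi
      exact ⟨hw1 i, fun l _ => ⟨hw2 i, this.2⟩⟩
  obtain ⟨g1, g2, g, w', H1, _⟩ := main n F hF2 ω1 (fun i hi => ⟨(hF1 hi).1, (hF1 hi).1⟩) k 0 hQ
  rw [zero_add] at H1
  exact ⟨g1, g2, g, H1⟩

end

end PosSOP
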