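import Pool.Agent.Helper68.PSTotal
import Pool.Agent.Helper68.PSPT
import Pool.Agent.Helper68.PSFinal

/-!
The key step and the main combinatorial theorem.
-/

namespace PosSOP

universe u v w

open Word

section

variable {U : Type}

/-- The embedding of the base structures above a word. -/
noncomputable def embW (z : U) : (m : ℕ) → Word (Option U) → DtV m → Word (Option U)
  | 0, _, t => Empty.elim t
  | _ + 1, w, .inl _ => w
  | m + 1, w, .inr (.inl l) => embW z m (w.snoc none) l
  | m + 1, w, .inr (.inr r) => embW z m (w.snoc (some z)) r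

lemma embW_le (z : U) : ∀ (m : ℕ) (w : Word (Option U)) (t : DtV m), w ≤ embW z m w t
  | 0, _, t => Empty.elim t
  | _ + 1, w, .inl _ => le_rfl
  | m + 1, w, .inr (.inl l) => (le_snoc _ _).trans (embW_le z m _ l)
  | m + 1, w, .inr (.inr r) => (le_snoc _ _).trans (embW_le z m _ r)

lemma embW_E {A : Str U} {z : U} (hz : A.E z z) : ∀ (m : ℕ) (w : Word (Option U)) (s t : DtV m),
    (Dt m).E s t → (BT A).E (embW z m w s, z) (embW z m w t, z)
  | 0, _, s, _, _ => Empty.elim s
  | _ + 1, w, .inl _, .inl _, _ => Or.inl ⟨rfl, hz⟩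
  | m + 1, w, .inr (.inr r), .inl _, _ =>
    Or.inr ⟨z, dir_iff.2 (embW_le z m (w.snoc (some z)) r), hz⟩
  | m + 1, w, .inr (.inl s), .inr (.inl t), h => embW_E hz m _ s t h
  | m + 1, w, .inr (.inr s), .inr (.inr t), h => embW_E hz m _ s t h
  | _ + 1, _, .inl _, .inr _, h => h.elim
  | _ + 1, _, .inr (.inl _), .inl _, h => h.elim
  | _ + 1, _, .inr (.inl _), .inr (.inr _), h => h.elim
  | _ + 1, _, .inr (.inr _), .inr (.inl _), h => h.elim

lemma embW_R {A : Str U} {z : U} : ∀ (m : ℕ) (w : Word (Option U)) (s t : DtV m),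
    (Dt m).R s t → (BT A).R (embW z m w s, z) (embW z m w t, z)
  | 0, _, s, _, _ => Empty.elim s
  | m + 1, w, .inl _, .inr (.inl l), _ =>
    Or.inr (dir_iff.2 (embW_le z m (w.snoc none) l))
  | m + 1, w, .inr (.inl s), .inr (.inl t), h => embW_R m _ s t h
  | m + 1, w, .inr (.inr s), .inr (.inr t), h => embW_R m _ s t h
  | _ + 1, _, .inl _, .inl _, h => h.elim
  | _ + 1, _, .inl _, .inr (.inr _), h => h.elim
  | _ + 1, _, .inr (.inl _), .inl _, h => h.elim
  | _ + 1, _, .inr (.inr _), .inl _, h => h.elim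
  | _ + 1, _, .inr (.inl _), .inr (.inr _), h => h.elim
  | _ + 1, _, .inr (.inr _), .inr (.inl _), h => h.elim

/-- Reindexing for `Φ`. -/
def mΦ {X : Type} : U ⊕ U ⊕ X → X ⊕ (U ⊕ U) ⊕ Empty
  | .inl a => .inr (.inl (.inl a))
  | .inr (.inl a) => .inr (.inl (.inr a))
  | .inr (.inr x) => .inl x

/-- Reindexing for `Ψ`. -/
def mΨ {P : Type} : U ⊕ U ⊕ P → (U ⊕ U) ⊕ (U ⊕ U) ⊕ Empty ⊕ P
  | .inl a => .inl (.inl a)
  | .inr (.inl a) => .inr (.inl (.inr a))
  | .inr (.inr x) => .inr (.inr (.inr x))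

/-- Reindexing for the conclusion. -/
def mC {P X : Type} : U ⊕ U ⊕ (P ⊕ X) → X ⊕ (U ⊕ U) ⊕ (U ⊕ U) ⊕ Empty ⊕ P
  | .inl a => .inr (.inl (.inl a))
  | .inr (.inl a) => .inr (.inr (.inl (.inr a)))
  | .inr (.inr (.inl q)) => .inr (.inr (.inr (.inr q)))
  | .inr (.inr (.inr x)) => .inl x

lemma uns_concl {A : Str U} {m : ℕ} {i : Option (U × U)} {P : Type} (ψ : Str (U ⊕ U ⊕ P)) :
    Hom (UnS ψ (chi A m i)) (Concl ((chi A m i).map mΦ) (ψ.map mΨ)) mC mC := by
  set Φ := (chi A m i).map mΦ with hΦ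
  set Ψ := ψ.map mΨ with hΨ
  have k1 := (concl_hom_j1 Φ Ψ).comp (hom_map_self (chi A m i) mΦ)
  have k2 := (concl_hom_j2 Φ Ψ).comp (hom_map_self (chi A m i) mΦ)
  have k3 := (concl_hom_inr Φ Ψ).comp (hom_map_self ψ mΨ)
  refine hom_union_iff.2 ⟨hom_map_iff.2 ?_, hom_map_iff.2 ?_⟩
  · convert k3 using 1 <;>
    · funext x
      rcases x with x | x | x <;> rfl
  · cases i with
    | none =>
      constructor
      · rintro (x | x | x) (y | y | y) hxy <;> first | exact hxy.elim | skip
        exact k1.e (.inr (.inr x)) (.inr (.inr y)) hxy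
      · rintro (x | x | x) (y | y | y) hxy <;> first | exact hxy.elim | skip
        · exact k1.r (.inl x) (.inr (.inr y)) hxy
        · exact k2.r (.inr (.inl x)) (.inr (.inr y)) hxy
        · exact k1.r (.inr (.inr x)) (.inr (.inr y)) hxy
    | some p =>
      constructor
      · rintro (x | x | x) (y | y | y) hxy <;> first | exact hxy.elim | skip
        · exact k1.e (.inr (.inr x)) (.inl y) hxy
        · exact k2.e (.inr (.inr x)) (.inr (.inl y)) hxy
      · rintro (x | x | x) (y | y | y) hxy <;> exact hxy.elim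

/-- The first passing direction. -/
def q1 {A : Str U} {m : ℕ} (k : Col A m) : Option U := k.1.1.map Prod.fst

/-- The second passing direction. -/
def q2 {A : Str U} {m : ℕ} (k : Col A m) : Option U := k.1.1.map Prod.snd

lemma Cfg.h_le {D K : Type} {c : Word D → Word D → K} {p1 p2 : K → D} {a0 a1 : D} {k : K}
    {g1 g2 h : List Bool → Word D} {n : ℕ} (H : Cfg c p1 p2 a0 a1 k g1 g2 h n)
    (μ ν : List Bool) (hl : (μ ++ ν).length ≤ n) : h μ ≤ h (μ ++ ν) := by
  induction ν using List.reverseRecOn with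
  | nil => simp
  | append_singleton l b ih =>
    rw [← List.append_assoc] at hl ⊢
    have h1 : (μ ++ l).length < n := by
      rw [List.length_append (as := μ ++ l)] at hl
      simp only [List.length_cons, List.length_nil] at hl
      omega
    have h2 := ih h1.le
    have h3 := H.a (μ ++ l ++ [b]) hl
    have h4 := H.b (μ ++ l) h1
    refine h2.trans (le_trans ?_ (h3.1.le.trans h3.2.le))
    cases b
    · exact h4.1.le
    · exact h4.2.le

/-- The extra vertices in the tree. -/
noncomputable def cX (z : U) (m : ℕ) : (i : Option (U × U)) → Word (Option U) → XI U m i →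
    Word (Option U)
  | none, w, t => embW z m w t
  | some _, w, _ => w

lemma cX_hom {A : Str U} {z : U} (hz : A.E z z) {m : ℕ} {S : Set (Fact U)}
    (i : Option (U × U)) {g1 g2 h h' : Word (Option U)} (h1 : dir g1 g2 (i.map Prod.fst))
    (h2 : dir g2 h (i.map Prod.snd)) (h3 : h ≤ h') :
    Hom (chi A m i) (NS A S) (blk g1 g2 fun x => .inl (cX z m i h' x, z))
      (blk g1 g2 fun x => .inl (cX z m i h' x, z)) := by
  cases i with
  | none =>
    constructor
    · rintro (x | x | x) (y | y | y) hxy <;> first | exact hxy.elim | skip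
      exact (bt_hom A S).e _ _ (embW_E hz m h' x y hxy)
    · rintro (x | x | x) (y | y | y) hxy <;> first | exact hxy.elim | skip
      · exact (bt_hom A S).r (g1, x) (embW z m h' y, z)
          (Or.inr ((h1.mono h2.le).mono (h3.trans (embW_le z m h' y))))
      · exact (bt_hom A S).r (g2, x) (embW z m h' y, z)
          (Or.inr (h2.mono (h3.trans (embW_le z m h' y))))
      · exact (bt_hom A S).r _ _ (embW_R m h' x y hxy)
  | some p =>
    constructor
    · rintro (x | x | x) (y | y | y) hxy <;> first | exact hxy.elim | skip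
      · exact (bt_hom A S).e (h', z) (g1, y) (Or.inr ⟨p.1, (h1.mono h2.le).mono h3, hxy⟩)
      · exact (bt_hom A S).e (h', z) (g2, y) (Or.inr ⟨p.2, h2.mono h3, hxy⟩)
    · rintro (x | x | x) (y | y | y) hxy <;> exact hxy.elim

theorem keyStep : KeyStep := by
  intro U _ A z hz hA m
  by_contra hZ
  obtain ⟨S, c, hS, hfact, hc⟩ := exists_colouring z hA hZ
  obtain ⟨k, hk⟩ := partition hc q1 q2 none (some z)
  apply k.2
  set i := k.1.1 with hi
  set ψ : Str (U ⊕ U ⊕ Fin k.1.2.1) := k.1.2.2 with hψ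
  refine CInf.mono (uns_concl ψ) (cinf_good.rule _ _ fun n => ?_)
  obtain ⟨g1, g2, h, H⟩ := hk n
  refine hS.tree ?_
  refine ⟨fun σ x => .inl (cX z m i (h σ) x, z),
    fun μ => Sum.elim (fun a => .inl (g1 μ, a)) (fun a => .inl (g2 μ, a)), Empty.elim,
    fun μ η q => .inr (⟨g1 μ, g2 η, k.1.2⟩, q.1), ?_, ?_⟩
  · intro μ σ hμ hσ
    obtain ⟨ν, rfl⟩ := hμ
    have h1 := H.a μ ((by simp : μ.length ≤ (μ ++ ν).length).trans hσ)
    have h2 := H.h_le μ ν hσ
    rw [hom_map_iff]
    convert cX_hom (S := S) (m := m) hz i h1.1 h1.2 h2 using 1 <;>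
    · funext x
      rcases x with x | x | x <;> rfl
  · intro μ η hμ h1 h2
    have h3 := H.c μ η hμ h1 h2
    have h4 := hfact (g1 μ) (g2 η) h3.1
    rw [h3.2] at h4
    rw [hom_map_iff]
    convert fact_hom A h4 using 1 <;>
    · funext x
      rcases x with x | x | x <;> rfl

/-- The main combinatorial theorem: the forbidden structure is in every good class. -/
theorem core : CInf (Fin 3) F0 := core_of_key keyStep

end

end PosSOP
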