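import Pool.Agent.Helper68.PSAttach

/-!
Closure properties of the least good class, third part: disjoint unions, `J`, `Attach`, the
class `InA`, and the reduction of the main theorem to the key step.
-/

namespace PosSOP

universe u v w

/-- Disjoint union. -/
abbrev Sm {U : Type u} {V : Type v} (A : Str U) (B : Str V) : Str (U ⊕ V) :=
  Ctx A (fun _ => False) (fun _ => False) (fun _ => False) B

/-- Disjoint union with all nodes of the second part above all nodes of the first part. -/
abbrev OP {U : Type u} {V : Type v} (A : Str U) (B : Str V) : Str (U ⊕ V) :=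
  Ctx A (fun _ => True) (fun _ => False) (fun _ => False) B

/-- One looped vertex. -/
def pt : Str Unit := ⟨fun _ _ => True, fun _ _ => False⟩

/-- Disjoint union with a common face for every pair of faces. -/
def Star {U : Type u} {V : Type v} (A : Str U) (B : Str V) : Str (U ⊕ V ⊕ U × V) where
  E := fun x y => match x, y with
    | .inl x, .inl y => A.E x y
    | .inr (.inl x), .inr (.inl y) => B.E x y
    | .inr (.inr p), .inl y => A.E p.1 y
    | .inr (.inr p), .inr (.inl y) => B.E p.2 y
    | _, _ => False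
  R := fun x y => match x, y with
    | .inl x, .inl y => A.R x y
    | .inr (.inl x), .inr (.inl y) => B.R x y
    | _, _ => False

lemma J.hom {V : Type u} {V' : Type v} {U U' : Type w} {L : Str V} {L' : Str V'} {R : Str U}
    {R' : Str U'} {f g : V → V'} {f' g' : U → U'} (h : Hom L L' f g) (h' : Hom R R' f' g') :
    Hom (J L R) (J L' R') (Sum.map id (Sum.map f f')) (Sum.map id (Sum.map g g')) := by
  constructor
  · rintro (x | x | x) (y | y | y) hxy <;> first | exact hxy.elim | exact trivial | skip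
    · exact h.e x y hxy
    · exact h'.e x y hxy
  · rintro (x | x | x) (y | y | y) hxy <;> first | exact hxy.elim | exact trivial | skip
    · exact h.r x y hxy
    · exact h'.r x y hxy

instance dtV_finite : ∀ n, Finite (DtV n)
  | 0 => inferInstanceAs (Finite Empty)
  | n + 1 => by
    have := dtV_finite n
    exact inferInstanceAs (Finite (Unit ⊕ (DtV n ⊕ DtV n)))

lemma dt_succ : ∀ n, ∃ f : DtV n → DtV (n + 1), Hom (Dt n) (Dt (n + 1)) f f
  | 0 => ⟨Empty.elim, ⟨fun x => Empty.elim x, fun x => Empty.elim x⟩⟩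
  | n + 1 => by
    obtain ⟨f, hf⟩ := dt_succ n
    exact ⟨_, J.hom hf hf⟩

lemma dt_mono {m n : ℕ} (h : m ≤ n) : ∃ f : DtV m → DtV n, Hom (Dt m) (Dt n) f f := by
  induction h with
  | refl => exact ⟨id, Hom.refl _⟩
  | step _ ih =>
    obtain ⟨f, hf⟩ := ih
    obtain ⟨g, hg⟩ := dt_succ _
    exact ⟨g ∘ f, hg.comp hf⟩

lemma CInf.mono {V V' : Type} [Finite V] [Finite V'] {F : Str V} {G : Str V'} {f g : V → V'}
    (h : Hom F G f g) (hG : CInf V' G) : CInf V F := cinf_good.mono h hG

lemma CInf.ind {K : Cls} (hK : Good K) {V : Type} {F : Str V} (h : CInf V F) : K V F := h K hK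

/-! ### The operation `J` -/

lemma cinf_J_base (m n : ℕ) : CInf _ (J (Dt m) (Dt n)) := by
  obtain ⟨f, hf⟩ := dt_mono (le_max_left m n)
  obtain ⟨g, hg⟩ := dt_mono (le_max_right m n)
  exact CInf.mono (J.hom hf hg) (cinf_good.base (max m n + 1))

section J

variable {U V : Type}

/-- The context for the right argument of `J`. -/
def PL (L : Str V) : Str (Unit ⊕ V) where
  E := fun x y => match x, y with
    | .inl _, .inl _ => True
    | .inr x, .inr y => L.E x y
    | _, _ => False
  R := fun x y => match x, y with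
    | .inl _, .inr _ => True
    | .inr x, .inr y => L.R x y
    | _, _ => False

/-- The context for the left argument of `J`. -/
def PR (R : Str V) : Str (Unit ⊕ V) where
  E := fun x y => match x, y with
    | .inl _, .inl _ => True
    | .inr _, .inl _ => True
    | .inr x, .inr y => R.E x y
    | _, _ => False
  R := fun x y => match x, y with
    | .inr x, .inr y => R.R x y
    | _, _ => False

/-- The distinguished vertex. -/
def isRt : Unit ⊕ V → Prop
  | .inl _ => True
  | .inr _ => False

def cL : Unit ⊕ (V ⊕ U) → (Unit ⊕ V) ⊕ U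
  | .inl a => .inl (.inl a)
  | .inr (.inl x) => .inl (.inr x)
  | .inr (.inr x) => .inr x

def cL' : (Unit ⊕ V) ⊕ U → Unit ⊕ (V ⊕ U)
  | .inl (.inl a) => .inl a
  | .inl (.inr x) => .inr (.inl x)
  | .inr x => .inr (.inr x)

def cR : Unit ⊕ (V ⊕ U) → (Unit ⊕ U) ⊕ V
  | .inl a => .inl (.inl a)
  | .inr (.inl x) => .inr x
  | .inr (.inr x) => .inl (.inr x)

def cR' : (Unit ⊕ U) ⊕ V → Unit ⊕ (V ⊕ U)
  | .inl (.inl a) => .inl a
  | .inl (.inr x) => .inr (.inr x)
  | .inr x => .inr (.inl x)

lemma hom_cL (L : Str V) (R : Str U) :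
    Hom (J L R) (Ctx (PL L) (fun _ => False) (fun _ => False) isRt R) cL cL := by
  constructor <;> rintro (x | x | x) (y | y | y) hxy <;>
    first | exact hxy.elim | exact hxy

lemma hom_cL' (L : Str V) (R : Str U) :
    Hom (Ctx (PL L) (fun _ => False) (fun _ => False) isRt R) (J L R) cL' cL' := by
  constructor <;> rintro ((x | x) | x) ((y | y) | y) hxy <;>
    first | exact hxy.elim | exact hxy

lemma hom_cR (L : Str V) (R : Str U) :
    Hom (J L R) (Ctx (PR R) isRt (fun _ => False) (fun _ => False) L) cR cR := by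
  constructor <;> rintro (x | x | x) (y | y | y) hxy <;>
    first | exact hxy.elim | exact hxy

lemma hom_cR' (L : Str V) (R : Str U) :
    Hom (Ctx (PR R) isRt (fun _ => False) (fun _ => False) L) (J L R) cR' cR' := by
  constructor <;> rintro ((x | x) | x) ((y | y) | y) hxy <;>
    first | exact hxy.elim | exact hxy

lemma cinf_J [Finite U] [Finite V] {L : Str V} {R : Str U} (hL : CInf _ L) (hR : CInf _ R) :
    CInf _ (J L R) := by
  have h1 : ∀ m, CInf _ (J (Dt m) R) := fun m =>
    CInf.mono (hom_cL _ _) (hR.ind (ctx_good cinf_good (PL (Dt m)) _ _ _ fun n =>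
      CInf.mono (hom_cL' _ _) (cinf_J_base m n)))
  exact CInf.mono (hom_cR _ _) (hL.ind (ctx_good cinf_good (PR R) _ _ _ fun n =>
      CInf.mono (hom_cR' _ _) (h1 n)))

lemma cinf_Sm [Finite U] [Finite V] {L : Str V} {R : Str U} (hL : CInf _ L) (hR : CInf _ R) :
    CInf _ (Sm L R) := by
  refine CInf.mono (f := Sum.inr) (g := Sum.inr) ?_ (cinf_J hL hR)
  constructor <;> rintro (x | x) (y | y) hxy <;>
    first | exact hxy.elim | exact hxy

end J

/-! ### Attaching -/

section attach

variable {U V : Type}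

def dA : (Unit ⊕ (V ⊕ V)) ⊕ (Unit ⊕ (V ⊕ V)) × U →
    Unit ⊕ ((V ⊕ V × U) ⊕ (U ⊕ (V ⊕ V × U)))
  | .inl (.inl a) => .inl a
  | .inl (.inr (.inl l)) => .inr (.inl (.inl l))
  | .inl (.inr (.inr r)) => .inr (.inr (.inr (.inl r)))
  | .inr (.inl _, q) => .inr (.inr (.inl q))
  | .inr (.inr (.inl l), q) => .inr (.inl (.inr (l, q)))
  | .inr (.inr (.inr r), q) => .inr (.inr (.inr (.inr (r, q))))

lemma attach_J (Q : Str U) (L R : Str V) :
    Hom (Attach Q (J L R)) (J (Attach Q L) (Sm Q (Attach Q R))) dA dA := by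
  constructor
  · rintro ((x | x | x) | ⟨x | x | x, q⟩) ((y | y | y) | ⟨y | y | y, q'⟩) hxy <;>
    first
    | exact hxy.elim
    | exact trivial
    | exact hxy
    | exact hxy.2
    | exact ⟨Sum.inl.inj (Sum.inr.inj hxy.1), hxy.2⟩
    | exact ⟨Sum.inr.inj (Sum.inr.inj hxy.1), hxy.2⟩
    | (exfalso; have h := hxy.1; simp at h)
  · rintro ((x | x | x) | ⟨x | x | x, q⟩) ((y | y | y) | ⟨y | y | y, q'⟩) hxy <;>
    first
    | exact hxy.elim
    | exact trivial
    | exact hxy
    | exact hxy.2
    | exact ⟨Sum.inl.inj (Sum.inr.inj hxy.1), hxy.2⟩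
    | exact ⟨Sum.inr.inj (Sum.inr.inj hxy.1), hxy.2⟩
    | (exfalso; have h := hxy.1; simp at h)

lemma cinf_attach_base [Finite U] {Q : Str U} (hQ : CInf _ Q) :
    ∀ n, CInf _ (Attach Q (Dt n))
  | 0 => CInf.mono (F := Attach Q (Dt 0)) (G := Dt 0)
      (f := Sum.elim id Prod.fst) (g := Sum.elim id Prod.fst)
      (by constructor <;> rintro ((x : Empty) | ⟨(x : Empty), _⟩) <;> exact x.elim)
      (cinf_good.base 0)
  | n + 1 => by
    have ih := cinf_attach_base hQ n
    exact CInf.mono (attach_J Q (Dt n) (Dt n)) (cinf_J ih (cinf_Sm hQ ih))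

lemma cinf_attach [Finite U] {Q : Str U} (hQ : CInf _ Q) {F : Str V} (hF : CInf _ F) :
    CInf _ (Attach Q F) :=
  hF.ind (attach_good cinf_good Q (cinf_attach_base hQ))

end attach

/-! ### The class `InA` -/

/-- `A (+) Dt m` is in the least good class for all `m`. -/
def InA : Cls := fun _ A => ∀ m, CInf _ (OP A (Dt m))

section InA

variable {U V W : Type}

lemma InA.op [Finite U] {A : Str U} {B : Str V} (hA : InA _ A) (hB : CInf _ B) :
    CInf _ (OP A B) := hB.ind (ctx_good cinf_good A _ _ _ hA)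

lemma InA.cinf [Finite U] {A : Str U} (hA : InA _ A) : CInf _ A :=
  CInf.mono (f := Sum.inl) (g := Sum.inl) ⟨fun _ _ h => h, fun _ _ h => h⟩ (hA 0)

lemma OP.hom {U U' : Type u} {V V' : Type v} {A : Str U} {A' : Str U'} {B : Str V} {B' : Str V'}
    {f g : U → U'} {f' g' : V → V'} (h : Hom A A' f g) (h' : Hom B B' f' g') :
    Hom (OP A B) (OP A' B') (Sum.map f f') (Sum.map g g') := by
  constructor
  · rintro (x | x) (y | y) hxy
    · exact h.e x y hxy
    · exact hxy.elim
    · exact hxy.elim
    · exact h'.e x y hxy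
  · rintro (x | x) (y | y) hxy
    · exact h.r x y hxy
    · exact trivial
    · exact hxy.elim
    · exact h'.r x y hxy

lemma InA.mono [Finite U] [Finite V] {A : Str U} {B : Str V} {f g : U → V} (h : Hom A B f g)
    (hB : InA _ B) : InA _ A := fun m => CInf.mono (OP.hom h (Hom.refl _)) (hB m)

lemma InA.op_op [Finite U] [Finite V] {A : Str U} {B : Str V} (hA : InA _ A) (hB : InA _ B) :
    InA _ (OP A B) := by
  intro m
  have := hA.op (hB m)
  refine CInf.mono (F := OP (OP A B) (Dt m)) (G := OP A (OP B (Dt m)))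
    (f := Sum.elim (Sum.map id .inl) (.inr ∘ .inr))
    (g := Sum.elim (Sum.map id .inl) (.inr ∘ .inr)) ?_ this
  constructor <;> rintro ((x | x) | x) ((y | y) | y) hxy <;>
    first | exact hxy.elim | exact hxy

lemma inA_pt : InA _ pt := by
  intro m
  refine CInf.mono (F := OP pt (Dt m)) (G := J (Dt m) (Dt m))
    (f := Sum.elim .inl (.inr ∘ .inl)) (g := Sum.elim .inl (.inr ∘ .inl)) ?_ (cinf_J_base m m)
  constructor <;> rintro (x | x) (y | y) hxy <;>
    first | exact hxy.elim | exact hxy

/-- The class of `F` such that `F (+) Dt m` is in the least good class is closed under the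
rule. -/
lemma inA_rule {C B D W : Type} [Finite C] [Finite B] [Finite D] [Finite W]
    (Φ : Str (C ⊕ B ⊕ D)) (Ψ : Str (B ⊕ B ⊕ D ⊕ W))
    (h : ∀ n, ∃ (V : Type) (_ : Finite V) (F : Str V), InA V F ∧ HasTree Φ Ψ n F) :
    InA _ (Concl Φ Ψ) := by
  intro m
  -- the context `Dt m` with everything `R`-below it
  have k1 : ∀ {V : Type} (F : Str V), Hom (OP F (Dt m))
      (Ctx (Dt m) (fun _ => False) (fun _ => True) (fun _ => False) F) Sum.swap Sum.swap := by
    intro V F
    constructor <;> rintro (x | x) (y | y) hxy <;>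
      first | exact hxy.elim | exact hxy
  have k2 : ∀ {V : Type} (F : Str V), Hom
      (Ctx (Dt m) (fun _ => False) (fun _ => True) (fun _ => False) F) (OP F (Dt m))
      Sum.swap Sum.swap := by
    intro V F
    constructor <;> rintro (x | x) (y | y) hxy <;>
      first | exact hxy.elim | exact hxy
  refine CInf.mono (k1 _) (CInf.mono (ctx_concl (Dt m) _ _ _ Φ Ψ)
    (cinf_good.rule _ _ fun n => ?_))
  obtain ⟨V, hV, F, hF, ht⟩ := h n
  exact ⟨_, inferInstance, _, CInf.mono (k2 F) (hF m), ctx_tree (Dt m) _ _ _ ht⟩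

end InA

/-! ### Reduction to the key step -/

/-- The key step. -/
def KeyStep : Prop := ∀ (U : Type) [Finite U] (A : Str U) (z : U), A.E z z → InA _ A →
  InA _ (Star A A)

section key

variable (key : KeyStep)

include key

lemma inA_star {U V : Type} [Finite U] [Finite V] {A : Str U} {B : Str V} (hA : InA _ A)
    (hB : InA _ B) : InA _ (Star A B) := by
  have h1 : InA _ (OP pt (OP A B)) := inA_pt.op_op (hA.op_op hB)
  have h2 := key _ (OP pt (OP A B)) (.inl ()) trivial h1
  let f : U ⊕ V ⊕ U × V → (Unit ⊕ (U ⊕ V)) ⊕ (Unit ⊕ (U ⊕ V)) ⊕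
      (Unit ⊕ (U ⊕ V)) × (Unit ⊕ (U ⊕ V)) :=
    Sum.elim (fun a => .inl (.inr (.inl a)))
    (Sum.elim (fun b => .inr (.inl (.inr (.inr b))))
      (fun p => .inr (.inr (.inr (.inl p.1), .inr (.inr p.2)))))
  refine InA.mono (f := f) (g := f) ?_ h2
  constructor <;> rintro (x | x | x) (y | y | y) hxy <;>
    first | exact hxy.elim | exact hxy

/-- The map showing that base structures are in `InA`. -/
def sF {V : Type} : Unit ⊕ (V ⊕ V) → (Unit ⊕ V) ⊕ V ⊕ (Unit ⊕ V) × V
  | .inl a => .inl (.inl a)
  | .inr (.inl l) => .inl (.inr l)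
  | .inr (.inr r) => .inr (.inr (.inl (), r))

/-- The map showing that base structures are in `InA`. -/
def sG {V : Type} : Unit ⊕ (V ⊕ V) → (Unit ⊕ V) ⊕ V ⊕ (Unit ⊕ V) × V
  | .inl a => .inl (.inl a)
  | .inr (.inl l) => .inl (.inr l)
  | .inr (.inr r) => .inr (.inl r)

lemma inA_dt : ∀ n, InA _ (Dt n)
  | 0 => fun m => by
    refine CInf.mono (F := OP (Dt 0) (Dt m)) (G := Dt m) (f := Sum.elim Empty.elim id)
      (g := Sum.elim Empty.elim id) ?_ (cinf_good.base m)
    constructor
    · rintro ((x : Empty) | x) ((y : Empty) | y) hxy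
      · exact x.elim
      · exact x.elim
      · exact y.elim
      · exact hxy
    · rintro ((x : Empty) | x) ((y : Empty) | y) hxy
      · exact x.elim
      · exact x.elim
      · exact y.elim
      · exact hxy
  | n + 1 => by
    have ih := inA_dt n
    have h := inA_star key (inA_pt.op_op ih) ih
    refine InA.mono (A := Dt (n + 1)) (f := sF) (g := sG) ?_ h
    constructor <;> rintro (x | x | x) (y | y | y) hxy <;>
      first | exact hxy.elim | exact hxy

lemma inA_good : Good InA where
  mono := fun h hG => InA.mono h hG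
  base := inA_dt key
  rule := fun Φ Ψ h => inA_rule Φ Ψ h

lemma cinf_op {U V : Type} [Finite U] {A : Str U} {B : Str V} (hA : CInf _ A) (hB : CInf _ B) :
    CInf _ (OP A B) := InA.op (hA.ind (inA_good key)) hB

omit key in
/-- The binary trees with all faces along branches and `R` between incomparable nodes. -/
def GV : ℕ → Type
  | 0 => Unit
  | n + 1 => Unit ⊕ (GV n ⊕ GV n)

omit key in
/-- Root in all faces. -/
def Rt {V : Type} (F : Str V) : Str (Unit ⊕ V) where
  E := fun x y => match x, y with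
    | _, .inl _ => True
    | .inr x, .inr y => F.E x y
    | _, _ => False
  R := fun x y => match x, y with
    | .inr x, .inr y => F.R x y
    | _, _ => False

omit key in
/-- The binary trees with all faces along branches and `R` between incomparable nodes. -/
def Gt : (n : ℕ) → Str (GV n)
  | 0 => pt
  | n + 1 => Rt (OP (Gt n) (Gt n))

end key

end PosSOP
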