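import Pool.Agent.Helper68.PSColour

/-!
Baire category lemma, relocation lemma and the one-step lemma.
-/

namespace PosSOP

universe u v w

open Word

section

variable {D : Type}

lemma bdd_len {ι : Type} (x : ι → Word D) : BddAbove (Word.len '' Set.range x) := by
  rw [← Set.range_comp]
  exact Ordinal.bddAbove_of_small

lemma baire {K : Type} [Countable K] [Nonempty K] (κ : Word D → K) (w : Word D) :
    ∃ (G : K) (w' : Word D), w ≤ w' ∧ ∀ v, w' ≤ v → ∃ v', v ≤ v' ∧ κ v' = G := by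
  by_contra hcon
  push Not at hcon
  obtain ⟨f, hf⟩ := exists_surjective_nat K
  choose g hg1 hg2 using hcon
  let x : ℕ → {w' : Word D // w ≤ w'} := fun n =>
    Nat.rec ⟨w, le_rfl⟩ (fun n y => ⟨g (f n) y.1 y.2, y.2.trans (hg1 _ _ _)⟩) n
  have hx : ∀ n, (x n).1 ≤ (x (n + 1)).1 := fun n => hg1 _ _ _
  have hx2 : ∀ n v', (x (n + 1)).1 ≤ v' → κ v' ≠ f n := fun n => hg2 (f n) (x n).1 (x n).2
  have hmono : Monotone (fun n => (x n).1) := monotone_nat_of_le_succ hx
  obtain ⟨t, ht⟩ := exists_lub (Set.range fun n => (x n).1) hmono.isChain_range (bdd_len _)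
  obtain ⟨n, hn⟩ := hf (κ t)
  exact hx2 n t (ht.1 ⟨n + 1, rfl⟩) hn.symm

lemma relocate (P : Word D → Prop) (w' : Word D) (hd : ∀ v, w' ≤ v → ∃ v', v ≤ v' ∧ P v') :
    ∀ (n : ℕ) (ι : Type) [Finite ι], Nat.card ι ≤ n → ∀ (e : ι → Word D) (w'' : Word D),
      w' ≤ w'' → ∃ θ : ι → Word D, (∀ i, w'' ≤ θ i ∧ P (θ i)) ∧
        (∀ i j, e i = e j → θ i = θ j) ∧ ∀ i j d, dir (e i) (e j) d → dir (θ i) (θ j) d := by
  classical
  intro n
  induction n with
  | zero =>
    intro ι _ hι e w'' _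
    have : IsEmpty ι := by
      rw [← Finite.card_eq_zero_iff]
      omega
    exact ⟨fun i => this.elim i, fun i => this.elim i, fun i => this.elim i, fun i => this.elim i⟩
  | succ n ih =>
    intro ι _ hι e w'' hw''
    rcases isEmpty_or_nonempty ι with hE | hN
    · exact ⟨fun i => hE.elim i, fun i => hE.elim i, fun i => hE.elim i, fun i => hE.elim i⟩
    obtain ⟨i0, hi0⟩ : ∃ i0, ∀ i, ¬ e i < e i0 := by
      obtain ⟨t, ⟨i0, rfl⟩, h⟩ := (Set.finite_range e).exists_minimal (Set.range_nonempty e)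
      exact ⟨i0, fun i hi => absurd hi (not_lt_of_ge (h ⟨i, rfl⟩ hi.le))⟩
    set t := e i0 with ht
    obtain ⟨t', ht1, ht2⟩ := hd w'' hw''
    have hcard : ∀ p : ι → Prop, ¬ p i0 → Nat.card {i // p i} ≤ n := by
      intro p hp
      have : Nat.card {i // p i} < Nat.card ι := Finite.card_subtype_lt hp
      omega
    have h1 : ∀ d, ∃ θ : {i // dir t (e i) d} → Word D, (∀ i, t'.snoc d ≤ θ i ∧ P (θ i)) ∧
        (∀ i j, e i.1 = e j.1 → θ i = θ j) ∧
        ∀ i j d, dir (e i.1) (e j.1) d → dir (θ i) (θ j) d := fun d =>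
      ih {i // dir t (e i) d} (hcard _ fun h => h.ne rfl) (fun i => e i.1) (t'.snoc d)
        (hw''.trans (ht1.trans (le_snoc _ _)))
    choose θ1 hθ1 hθ1' hθ1'' using h1
    obtain ⟨θ2, hθ2, hθ2', hθ2''⟩ := ih {i // ¬ t ≤ e i} (hcard _ fun h => h le_rfl)
      (fun i => e i.1) w'' hw''
    let θ : ι → Word D := fun i =>
      if e i = t then t' else
      if h : ∃ d, dir t (e i) d then θ1 h.choose ⟨i, h.choose_spec⟩ else
      if h : ¬ t ≤ e i then θ2 ⟨i, h⟩ else t'
    have F1 : ∀ i, e i = t → θ i = t' := fun i h => if_pos h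
    have F2 : ∀ i d (h : dir t (e i) d), θ i = θ1 d ⟨i, h⟩ := by
      intro i d h
      have h1 : e i ≠ t := fun h' => h.ne h'.symm
      have h2 : ∃ d, dir t (e i) d := ⟨d, h⟩
      have h3 : h2.choose = d := h2.choose_spec.unique h
      have h4 : ∀ d' (h' : dir t (e i) d'), d' = d → θ1 d' ⟨i, h'⟩ = θ1 d ⟨i, h⟩ := by
        intro d' h' hdd
        subst hdd
        rfl
      calc θ i = θ1 h2.choose ⟨i, h2.choose_spec⟩ := by
            simp only [θ, h1, if_false]; exact dif_pos h2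
        _ = _ := h4 _ _ h3
    have F3 : ∀ i (h : ¬ t ≤ e i), θ i = θ2 ⟨i, h⟩ := by
      intro i h
      have h1 : e i ≠ t := fun h' => h h'.ge
      have h2 : ¬ ∃ d, dir t (e i) d := fun ⟨d, hd⟩ => h hd.le
      simp only [θ, h1, h2, if_false, dite_false]
      exact dif_pos h
    have cls : ∀ i, e i = t ∨ (∃ d, dir t (e i) d) ∨ ¬ t ≤ e i := by
      intro i
      by_cases h : e i = t
      · exact Or.inl h
      · by_cases h' : t ≤ e i
        · exact Or.inr (Or.inl (exists_dir h' fun h'' => h h''.symm))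
        · exact Or.inr (Or.inr h')
    refine ⟨θ, ?_, ?_, ?_⟩
    · intro i
      rcases cls i with h | ⟨d, h⟩ | h
      · rw [F1 i h]; exact ⟨ht1, ht2⟩
      · rw [F2 i d h]
        exact ⟨(ht1.trans (le_snoc _ _)).trans (hθ1 d _).1, (hθ1 d _).2⟩
      · rw [F3 i h]; exact hθ2 _
    · intro i j hij
      rcases cls i with h | ⟨d, h⟩ | h
      · rw [F1 i h, F1 j (hij.symm.trans h)]
      · have h' : dir t (e j) d := hij ▸ h
        rw [F2 i d h, F2 j d h']
        exact hθ1' d _ _ hij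
      · have h' : ¬ t ≤ e j := hij ▸ h
        rw [F3 i h, F3 j h']
        exact hθ2' _ _ hij
    · intro i j d hij
      rcases cls i with h | ⟨d', h⟩ | h
      · have h' : dir t (e j) d := h ▸ hij
        rw [F1 i h, F2 j d h', dir_iff]
        exact (hθ1 d _).1
      · have h' : dir t (e j) d' := h.mono hij.le
        rw [F2 i d' h, F2 j d' h']
        exact hθ1'' d' _ _ _ hij
      · have h' : ¬ t ≤ e j := by
          intro h'
          rcases comparable' hij.le h' with h2 | h2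
          · rcases eq_or_lt_of_le h2 with h3 | h3
            · exact h h3.ge
            · exact hi0 i h3
          · exact h h2
        rw [F3 i h, F3 j h']
        exact hθ2'' _ _ _ hij

end

section

variable {U : Type}

/-- Uniform sets of facts: membership of `(u, v, k)` only depends on `v` up to length
`u.len + 1`. -/
def Unif (S : Set (Fact U)) : Prop :=
  ∀ s ∈ S, s.u.len < s.v.len ∧ ∀ v', s.v.take (s.u.len + 1) ≤ v' → (⟨s.u, v', s.k⟩ : Fact U) ∈ S

lemma one_step [Finite U] {A : Str U} {m : ℕ} (hZ : ¬ CInf _ (OP (Star A A) (Dt m)))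
    {S : Set (Fact U)} (hS : Ok CInf (NS A S)) (hu : Unif S) (u w : Word (Option U))
    (hw : w.len = u.len + 1) (hS1 : ∀ s ∈ S, s.u.len ≤ u.len) :
    ∃ k : Col A m, Ok CInf (NS A (S ∪ {s | ∃ v, w ≤ v ∧ s = ⟨u, v, k.1.2⟩})) := by
  classical
  obtain ⟨S', hSS', hmax⟩ := exists_max A S hS
  have hlen : u.len < w.len := by rw [hw]; exact Order.lt_add_one_iff.2 le_rfl
  have hne : ∀ v, w ≤ v → u ≠ v := fun v hv h => by
    have := len_le hv
    rw [← h] at this
    exact absurd hlen (not_lt.2 this)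
  have hc : ∀ v, w ≤ v → ∃ k : Col A m, (⟨u, v, k.1.2⟩ : Fact U) ∈ S' := fun v hv =>
    exists_col hZ hmax (hne v hv)
  have hneK : Nonempty (Col A m) := ⟨(hc w le_rfl).choose⟩
  let κ : Word (Option U) → Col A m := fun v =>
    if h : w ≤ v then (hc v h).choose else Classical.arbitrary _
  have hκ : ∀ v, w ≤ v → (⟨u, v, (κ v).1.2⟩ : Fact U) ∈ S' := by
    intro v hv
    have : κ v = (hc v hv).choose := dif_pos hv
    rw [this]
    exact (hc v hv).choose_spec
  obtain ⟨G, w', hw', hd⟩ := baire κ w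
  refine ⟨G, ?_⟩
  intro ι _ e
  -- the words occurring in `e`
  let wd : ι ⊕ ι → Word (Option U) := Sum.elim
    (fun j => Sum.elim (fun p => p.1) (fun p => p.1.u) (e j))
    (fun j => Sum.elim (fun p => p.1) (fun p => p.1.v) (e j))
  let ι1 : Type := {i : ι ⊕ ι // w ≤ wd i}
  obtain ⟨θ1, hθ1, hθ1', hθ1''⟩ := relocate (fun v => κ v = G) w' hd _ ι1 le_rfl
    (fun i => wd i.1) w' le_rfl
  obtain ⟨v0, hv0, hv0'⟩ := hd w' le_rfl
  let θ : Word (Option U) → Word (Option U) := fun v =>
    if w ≤ v then (if h : ∃ i : ι1, wd i.1 = v then θ1 h.choose else v0) else v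
  have T1 : ∀ v, ¬ w ≤ v → θ v = v := fun v h => if_neg h
  have T2 : ∀ v, w ≤ v → w' ≤ θ v ∧ κ (θ v) = G := by
    intro v h
    by_cases h' : ∃ i : ι1, wd i.1 = v
    · have : θ v = θ1 h'.choose := by simp only [θ, h, if_true]; exact dif_pos h'
      rw [this]
      exact hθ1 _
    · have : θ v = v0 := by simp only [θ, h, if_true]; exact dif_neg h'
      rw [this]
      exact ⟨hv0, hv0'⟩
  have T3 : ∀ i : ι1, θ (wd i.1) = θ1 i := by
    intro i
    have h' : ∃ i' : ι1, wd i'.1 = wd i.1 := ⟨i, rfl⟩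
    have : θ (wd i.1) = θ1 h'.choose := by
      simp only [θ, i.2, if_true]
      exact dif_pos h'
    rw [this]
    exact hθ1' _ _ h'.choose_spec
  -- directions are preserved
  have T4 : ∀ i j d, dir (wd i) (wd j) d → dir (θ (wd i)) (θ (wd j)) d := by
    intro i j d hij
    by_cases hi : w ≤ wd i
    · have hj : w ≤ wd j := hi.trans hij.le
      have := hθ1'' ⟨i, hi⟩ ⟨j, hj⟩ d hij
      rw [← T3 ⟨i, hi⟩, ← T3 ⟨j, hj⟩] at this
      exact this
    · rw [T1 _ hi]
      by_cases hj : w ≤ wd j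
      · have h1 : wd i ≤ w := (comparable' hij.le hj).resolve_right hi
        have h2 : wd i ≠ w := fun h => hi h.ge
        obtain ⟨d', hd'⟩ := exists_dir h1 h2
        obtain rfl : d' = d := (hd'.mono hj).unique hij
        exact hd'.mono (hw'.trans (T2 _ hj).1)
      · rw [T1 _ hj]
        exact hij
  -- facts are mapped to facts
  have T5 : ∀ s ∈ S ∪ {s | ∃ v, w ≤ v ∧ s = ⟨u, v, G.1.2⟩},
      (⟨θ s.u, θ s.v, s.k⟩ : Fact U) ∈ S' := by
    rintro s (hs | ⟨v, hv, rfl⟩)
    · have h1 : ¬ w ≤ s.u := fun h => by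
        have h2 := len_le h
        exact absurd (hlen.trans_le h2) (not_lt.2 (hS1 s hs))
      rw [T1 _ h1]
      by_cases h2 : w ≤ s.v
      · apply hSS'
        apply (hu s hs).2
        have h3 : s.u.len + 1 ≤ w.len := by
          rw [hw]
          have := hS1 s hs
          gcongr
        rw [take_of_le h2 h3]
        exact (take_le _ _).trans (hw'.trans (T2 _ h2).1)
      · rw [T1 _ h2]
        exact hSS' hs
    · have h1 : ¬ w ≤ u := fun h => absurd hlen (not_lt.2 (len_le h))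
      show (⟨θ u, θ v, G.1.2⟩ : Fact U) ∈ S'
      rw [T1 _ h1]
      have h2 := T2 v hv
      have h3 := hκ (θ v) (hw'.trans h2.1)
      rw [h2.2] at h3
      exact h3
  let f : VN U → VN U := Sum.map (fun p => (θ p.1, p.2)) (fun p => (⟨θ p.1.u, θ p.1.v, p.1.k⟩, p.2))
  have hf : ∀ s : Fact U, f ∘ em s = em ⟨θ s.u, θ s.v, s.k⟩ := by
    intro s
    funext x
    rcases x with x | x | x <;> rfl
  refine CInf.mono (f := id) (g := id) (G := (NS A S').pull (f ∘ e)) ?_ (hmax.1 ι (f ∘ e))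
  constructor
  · rintro x y (⟨a, b, hab, ha, hb⟩ | ⟨s, hs, a, b, hab, ha, hb⟩)
    · show (NS A S').E (f (e x)) (f (e y))
      have ex : wd (.inl x) = a.1 := by
        show Sum.elim _ _ (e x) = _
        rw [← ha]; rfl
      have ey : wd (.inl y) = b.1 := by
        show Sum.elim _ _ (e y) = _
        rw [← hb]; rfl
      rw [← ha, ← hb]
      refine (bt_hom A S').e (θ a.1, a.2) (θ b.1, b.2) ?_
      rcases hab with ⟨h1, h2⟩ | ⟨z, h1, h2⟩
      · exact Or.inl ⟨congrArg θ h1, h2⟩
      · refine Or.inr ⟨z, ?_, h2⟩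
        have := T4 (.inl y) (.inl x) (some z) (by rw [ex, ey]; exact h1)
        rwa [ex, ey] at this
    · show (NS A S').E (f (e x)) (f (e y))
      rw [← ha, ← hb]
      have := (fact_hom A (T5 s hs)).e a b hab
      rw [← hf] at this
      exact this
  · rintro x y (⟨a, b, hab, ha, hb⟩ | ⟨s, hs, a, b, hab, ha, hb⟩)
    · show (NS A S').R (f (e x)) (f (e y))
      have ex : wd (.inl x) = a.1 := by
        show Sum.elim _ _ (e x) = _
        rw [← ha]; rfl
      have ey : wd (.inl y) = b.1 := by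
        show Sum.elim _ _ (e y) = _
        rw [← hb]; rfl
      rw [← ha, ← hb]
      refine (bt_hom A S').r (θ a.1, a.2) (θ b.1, b.2) ?_
      rcases hab with ⟨h1, h2⟩ | h1
      · exact Or.inl ⟨congrArg θ h1, h2⟩
      · refine Or.inr ?_
        have := T4 (.inl x) (.inl y) none (by rw [ex, ey]; exact h1)
        rwa [ex, ey] at this
    · show (NS A S').R (f (e x)) (f (e y))
      rw [← ha, ← hb]
      have := (fact_hom A (T5 s hs)).r a b hab
      rw [← hf] at this
      exact this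

end

end PosSOP
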