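import Pool.Agent.Helper68.PSStep

/-!
A total end-homogeneous colouring whose facts are consistent.
-/

namespace PosSOP

universe u v w

open Word

section

variable {U : Type}

/-- The facts described by a partial assignment of colours. -/
def factsOf {A : Str U} {m : ℕ} (P : Set (Word (Option U) × Word (Option U) × Col A m)) :
    Set (Fact U) :=
  {s | ∃ k : Col A m, (s.u, s.v.take (s.u.len + 1), k) ∈ P ∧ s.u.len < s.v.len ∧ s.k = k.1.2}

lemma lt_succ' (a : Ordinal.{0}) : a < a + 1 := Order.lt_add_one_iff.2 le_rfl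

lemma add_one_le' {a b : Ordinal.{0}} (h : a < b) : a + 1 ≤ b := Order.add_one_le_iff.2 h

lemma factsOf_unif {A : Str U} {m : ℕ}
    (P : Set (Word (Option U) × Word (Option U) × Col A m)) : Unif (factsOf P) := by
  rintro s ⟨k, h1, h2, h3⟩
  refine ⟨h2, fun v' hv' => ⟨k, ?_, ?_, h3⟩⟩
  · have h4 : s.u.len + 1 ≤ (s.v.take (s.u.len + 1)).len :=
      (take_len (add_one_le' h2)).ge
    show (s.u, v'.take (s.u.len + 1), k) ∈ P
    have h5 : (s.v.take (s.u.len + 1)).len = s.u.len + 1 := take_len (add_one_le' h2)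
    have h6 : v'.take (s.u.len + 1) = s.v.take (s.u.len + 1) := by
      have := take_eq hv'
      rwa [h5] at this
    rw [h6]
    exact h1
  · show s.u.len < v'.len
    have h4 : (s.v.take (s.u.len + 1)).len = s.u.len + 1 := take_len (add_one_le' h2)
    have h5 := len_le hv'
    rw [h4] at h5
    exact lt_of_lt_of_le (lt_succ' _) h5

/-- Admissible partial assignments. -/
def Adm {A : Str U} {m : ℕ} (P : Set (Word (Option U) × Word (Option U) × Col A m)) : Prop :=
  (∀ p ∈ P, ∀ u w : Word (Option U), u.len < p.1.len → w.len = u.len + 1 → ∃ k, (u, w, k) ∈ P) ∧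
  Ok CInf (NS A (factsOf P))

lemma adm_sUnion {A : Str U} {m : ℕ}
    (c : Set (Set (Word (Option U) × Word (Option U) × Col A m))) (hc : IsChain (· ⊆ ·) c)
    (hne : c.Nonempty) (h : ∀ P ∈ c, Adm P) : Adm (⋃₀ c) := by
  refine ⟨?_, ?_⟩
  · rintro p ⟨P, hP, hp⟩ u w huw hw
    obtain ⟨k, hk⟩ := (h P hP).1 p hp u w huw hw
    exact ⟨k, P, hP, hk⟩
  · have e : factsOf (⋃₀ c) = ⋃₀ (factsOf '' c) := by
      ext s
      constructor
      · rintro ⟨k, ⟨P, hP, h1⟩, h2, h3⟩
        exact ⟨factsOf P, ⟨P, hP, rfl⟩, k, h1, h2, h3⟩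
      · rintro ⟨_, ⟨P, hP, rfl⟩, k, h1, h2, h3⟩
        exact ⟨k, ⟨P, hP, h1⟩, h2, h3⟩
    rw [e]
    apply NS_sUnion_ok cinf_good
    · rintro _ ⟨P, hP, rfl⟩ _ ⟨Q, hQ, rfl⟩ _
      rcases hc.total hP hQ with h' | h'
      · exact Or.inl fun s ⟨k, h1, h2, h3⟩ => ⟨k, h' h1, h2, h3⟩
      · exact Or.inr fun s ⟨k, h1, h2, h3⟩ => ⟨k, h' h1, h2, h3⟩
    · exact hne.image _
    · rintro _ ⟨P, hP, rfl⟩
      exact (h P hP).2

lemma exists_total [Finite U] {A : Str U} {m : ℕ} (z : U) (hA : InA _ A)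
    (hZ : ¬ CInf _ (OP (Star A A) (Dt m))) :
    ∃ P : Set (Word (Option U) × Word (Option U) × Col A m), Adm P ∧
      ∀ u w : Word (Option U), w.len = u.len + 1 → ∃ k, (u, w, k) ∈ P := by
  have h0 : Adm (∅ : Set (Word (Option U) × Word (Option U) × Col A m)) := by
    refine ⟨fun p hp => hp.elim, ?_⟩
    have : factsOf (∅ : Set (Word (Option U) × Word (Option U) × Col A m)) = ∅ := by
      ext s
      constructor
      · rintro ⟨k, h1, _⟩
        exact h1.elim
      · exact fun h => h.elim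
    rw [this]
    exact NS_empty_ok z hA
  obtain ⟨P, -, hP⟩ := zorn_subset_nonempty
    {P : Set (Word (Option U) × Word (Option U) × Col A m) | Adm P} (fun c hc hch hne =>
    ⟨⋃₀ c, adm_sUnion c hch hne hc, fun s hs => Set.subset_sUnion_of_mem hs⟩) ∅ h0
  refine ⟨P, hP.prop, ?_⟩
  by_contra hcon
  push Not at hcon
  let bad : Set Ordinal.{0} := {γ | ∃ u w : Word (Option U), u.len = γ ∧ w.len = u.len + 1 ∧
    ∀ k, (u, w, k) ∉ P}
  have hbad : bad.Nonempty := by
    obtain ⟨u, w, h1, h2⟩ := hcon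
    exact ⟨u.len, u, w, rfl, h1, h2⟩
  obtain ⟨u, w, hγ, hw, hk⟩ := WellFounded.min_mem (wellFounded_lt (α := Ordinal.{0})) bad hbad
  set γ := WellFounded.min (wellFounded_lt (α := Ordinal.{0})) bad hbad with hγdef
  have hlow : ∀ u' w' : Word (Option U), u'.len < u.len → w'.len = u'.len + 1 →
      ∃ k, (u', w', k) ∈ P := by
    intro u' w' h1 h2
    by_contra h3
    push Not at h3
    have h4 : u'.len ∈ bad := ⟨u', w', rfl, h2, h3⟩
    rw [hγ] at h1
    exact WellFounded.not_lt_min (wellFounded_lt (α := Ordinal.{0})) bad h4 h1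
  have hup : ∀ s ∈ factsOf P, s.u.len ≤ u.len := by
    rintro s ⟨k, h1, h2, h3⟩
    by_contra h4
    push Not at h4
    obtain ⟨k', hk'⟩ := hP.prop.1 _ h1 u w h4 hw
    exact hk k' hk'
  obtain ⟨k, hkk⟩ := one_step hZ hP.prop.2 (factsOf_unif P) u w hw hup
  have e : factsOf (insert (u, w, k) P) = factsOf P ∪ {s | ∃ v, w ≤ v ∧ s = ⟨u, v, k.1.2⟩} := by
    ext s
    constructor
    · rintro ⟨k', h1 | h1, h2, h3⟩
      · right
        simp only [Prod.mk.injEq] at h1
        obtain ⟨h4, h5, rfl⟩ := h1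
        refine ⟨s.v, ?_, ?_⟩
        · rw [← h5]
          exact take_le _ _
        · cases s
          simp only at h4 h3
          subst h4 h3
          rfl
      · exact Or.inl ⟨k', h1, h2, h3⟩
    · rintro (⟨k', h1, h2, h3⟩ | ⟨v, hv, rfl⟩)
      · exact ⟨k', Or.inr h1, h2, h3⟩
      · refine ⟨k, Or.inl ?_, ?_, rfl⟩
        · show (u, v.take (u.len + 1), k) = (u, w, k)
          rw [← hw, take_eq hv]
        · show u.len < v.len
          refine lt_of_lt_of_le ?_ (len_le hv)
          rw [hw]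
          exact lt_succ' _
  have hadm : Adm (insert (u, w, k) P) := by
    refine ⟨?_, ?_⟩
    · rintro p (rfl | hp) u' w' h1 h2
      · obtain ⟨k', hk'⟩ := hlow u' w' h1 h2
        exact ⟨k', Or.inr hk'⟩
      · obtain ⟨k', hk'⟩ := hP.prop.1 p hp u' w' h1 h2
        exact ⟨k', Or.inr hk'⟩
    · rw [e]
      exact hkk
  exact hk k (hP.le_of_ge hadm (Set.subset_insert _ _) (Set.mem_insert _ _))

/-- A consistent set of facts and an end-homogeneous colouring. -/
lemma exists_colouring [Finite U] {A : Str U} {m : ℕ} (z : U) (hA : InA _ A)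
    (hZ : ¬ CInf _ (OP (Star A A) (Dt m))) :
    ∃ (S : Set (Fact U)) (c : Word (Option U) → Word (Option U) → Col A m),
      Ok CInf (NS A S) ∧
      (∀ u v, u.len < v.len → (⟨u, v, (c u v).1.2⟩ : Fact U) ∈ S) ∧
      ∀ u v w : Word (Option U), u.len < w.len → w ≤ v → c u v = c u w := by
  classical
  obtain ⟨P, hP, ht⟩ := exists_total z hA hZ
  have hne : Nonempty (Col A m) := by
    obtain ⟨k, _⟩ := ht nil (nil.snoc none) rfl
    exact ⟨k⟩
  let c0 : Word (Option U) → Word (Option U) → Col A m := fun u w =>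
    if h : w.len = u.len + 1 then (ht u w h).choose else Classical.arbitrary _
  have hc0 : ∀ u w : Word (Option U), w.len = u.len + 1 → (u, w, c0 u w) ∈ P := by
    intro u w h
    have : c0 u w = (ht u w h).choose := dif_pos h
    rw [this]
    exact (ht u w h).choose_spec
  refine ⟨factsOf P, fun u v => c0 u (v.take (u.len + 1)), hP.2, ?_, ?_⟩
  · intro u v huv
    exact ⟨_, hc0 u (v.take (u.len + 1)) (take_len (add_one_le' huv)), huv, rfl⟩
  · intro u v w h1 h2
    show c0 u _ = c0 u _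
    rw [take_of_le h2 (add_one_le' h1)]

end

end PosSOP
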