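import Pool.Agent.Helper68.PSOps
import Pool.Agent.Helper68.PSWords

/-!
The tree of blocks over words of ordinal length and its consistency.
-/

namespace PosSOP

universe u v w

/-- All finite parts of `M` are in `K`. -/
def Ok (K : Cls) {V : Type u} (M : Str V) : Prop :=
  ∀ (ι : Type) [Finite ι] (e : ι → V), K ι (M.pull e)

lemma Ok.of_hom {K : Cls} (hK : Good K) {V : Type u} {V' : Type v} {M : Str V} {M' : Str V'}
    {f g : V → V'} (h : Hom M M' f g) (hM : Ok K M') : Ok K M := by
  intro ι _ e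
  refine hK.mono (G := M'.pull (Sum.elim (f ∘ e) (g ∘ e))) (f := Sum.inl) (g := Sum.inr) ?_
    (hM (ι ⊕ ι) _)
  exact ⟨fun x y hxy => h.e _ _ hxy, fun x y hxy => h.r _ _ hxy⟩

lemma Ok.self {K : Cls} {V : Type} [Finite V] {M : Str V} (h : Ok K M) : K V M := h V id

lemma Ok.of_finite {K : Cls} (hK : Good K) {V : Type} [Finite V] {M : Str V} (h : K V M) :
    Ok K M := fun ι _ e => hK.mono (f := e) (g := e) ⟨fun _ _ h => h, fun _ _ h => h⟩ h

/-- Lists of length at most `n`. -/
abbrev Ln (n : ℕ) : Type := {l : List Bool // l.length ≤ n}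

instance (n : ℕ) : Finite (Ln n) := List.finite_length_le Bool n

/-- Truncation. -/
def tr (n : ℕ) (l : List Bool) : Ln n := ⟨l.take n, by simp⟩

lemma tr_eq {n : ℕ} {l : List Bool} (h : l.length ≤ n) : (tr n l).1 = l := List.take_of_length_le h

lemma Ok.tree {K : Cls} {V : Type u} {M : Str V} (hM : Ok K M) {C B D W : Type} [Finite C]
    [Finite B] [Finite D] [Finite W] {Φ : Str (C ⊕ B ⊕ D)} {Ψ : Str (B ⊕ B ⊕ D ⊕ W)} {n : ℕ}
    (ht : HasTree Φ Ψ n M) :
    ∃ (V : Type) (_ : Finite V) (F : Str V), K V F ∧ HasTree Φ Ψ n F := by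
  obtain ⟨c, b, d, w, h1, h2⟩ := ht
  let ι : Type := (Ln n × C) ⊕ (Ln n × B) ⊕ D ⊕ (Ln n × Ln n × W)
  let e : ι → V := Sum.elim (fun p => c p.1.1 p.2) (Sum.elim (fun p => b p.1.1 p.2)
    (Sum.elim d (fun p => w p.1.1 p.2.1.1 p.2.2)))
  refine ⟨ι, inferInstance, M.pull e, hM ι e, fun σ x => .inl (tr n σ, x),
    fun σ x => .inr (.inl (tr n σ, x)), fun x => .inr (.inr (.inl x)),
    fun μ η x => .inr (.inr (.inr (tr n μ, tr n η, x))), ?_, ?_⟩
  · intro μ σ hμ hσ
    rw [hom_pull_iff]
    have hμl : μ.length ≤ n := hμ.length_le.trans hσ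
    convert h1 μ σ hμ hσ using 1 <;>
    · funext x
      rcases x with x | x | x
      · exact congrArg (fun l => c l x) (tr_eq hσ)
      · exact congrArg (fun l => b l x) (tr_eq hμl)
      · rfl
  · intro μ η hμ h3 h4
    rw [hom_pull_iff]
    convert h2 μ η hμ h3 h4 using 1 <;>
    · funext x
      rcases x with x | x | x | x
      · exact congrArg (fun l => b l x) (tr_eq h3)
      · exact congrArg (fun l => b l x) (tr_eq h4)
      · rfl
      · show w (tr n μ).1 (tr n η).1 x = w μ η x
        rw [tr_eq h3, tr_eq h4]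

section BT

variable {U : Type}

/-- The tree of blocks. -/
def BT (A : Str U) : Str (Word (Option U) × U) where
  E := fun x y => (x.1 = y.1 ∧ A.E x.2 y.2) ∨ ∃ a, Word.dir y.1 x.1 (some a) ∧ A.E a y.2
  R := fun x y => (x.1 = y.1 ∧ A.R x.2 y.2) ∨ Word.dir x.1 y.1 none

open Word

lemma bt_aux [Finite U] {A : Str U} (hA : InA _ A) : ∀ (n : ℕ) (ι : Type) [Finite ι],
    Nat.card ι ≤ n → ∀ e : ι → Word (Option U),
      CInf (ι × U) ((BT A).pull fun p => (e p.1, p.2)) := by
  classical
  intro n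
  induction n with
  | zero =>
    intro ι _ hι e
    have : IsEmpty ι := by
      rw [← Finite.card_eq_zero_iff]
      omega
    refine CInf.mono (F := (BT A).pull fun p : ι × U => (e p.1, p.2)) (G := Dt 0)
      (f := fun p => this.elim p.1) (g := fun p => this.elim p.1) ?_ (cinf_good.base 0)
    constructor <;> intro x <;> exact this.elim x.1
  | succ n ih =>
    intro ι _ hι e
    rcases isEmpty_or_nonempty ι with hE | hN
    · refine CInf.mono (F := (BT A).pull fun p : ι × U => (e p.1, p.2)) (G := Dt 0)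
        (f := fun p => hE.elim p.1) (g := fun p => hE.elim p.1) ?_ (cinf_good.base 0)
      constructor <;> intro x <;> exact hE.elim x.1
    obtain ⟨i0, hi0⟩ : ∃ i0, ∀ i, ¬ e i < e i0 := by
      obtain ⟨t, ⟨i0, rfl⟩, h⟩ := (Set.finite_range e).exists_minimal (Set.range_nonempty e)
      exact ⟨i0, fun i hi => absurd hi (not_lt_of_ge (h ⟨i, rfl⟩ hi.le))⟩
    set t := e i0 with ht
    let ι' : Type := {i // e i ≠ t}
    have hι' : Nat.card ι' ≤ n := by
      have : Nat.card ι' < Nat.card ι := by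
        refine Finite.card_subtype_lt (x := i0) ?_
        simp [ht]
      omega
    have hQ := ih ι' hι' (fun i => e i.1)
    set Q : Str (ι' × U) := (BT A).pull fun p => (e p.1.1, p.2) with hQdef
    have hG := cinf_Sm (cinf_attach hQ (hA.op hQ)) hQ
    let f : ι × U → (((U ⊕ (ι' × U)) ⊕ (U ⊕ (ι' × U)) × (ι' × U)) ⊕ (ι' × U)) := fun p =>
      if h : e p.1 = t then .inl (.inl (.inl p.2))
      else if dir t (e p.1) none then .inl (.inl (.inr (⟨p.1, h⟩, p.2)))
      else if h1 : ∃ x, dir t (e p.1) (some x) then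
        .inl (.inr (.inl h1.choose, (⟨p.1, h⟩, p.2)))
      else .inr (⟨p.1, h⟩, p.2)
    have f_eq : ∀ i a, e i = t → f (i, a) = .inl (.inl (.inl a)) := fun i a h => dif_pos h
    have f_none : ∀ i a (h : e i ≠ t), dir t (e i) none →
        f (i, a) = .inl (.inl (.inr (⟨i, h⟩, a))) := by
      intro i a h h0
      simp only [f, h, h0, dite_false, if_true]
    have f_some : ∀ i a x (h : e i ≠ t), dir t (e i) (some x) →
        f (i, a) = .inl (.inr (.inl x, (⟨i, h⟩, a))) := by
      intro i a x h h0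
      have h1 : ¬ dir t (e i) none := fun h1 => by
        have := h0.unique h1
        simp at this
      have h2 : ∃ x, dir t (e i) (some x) := ⟨x, h0⟩
      have h3 : h2.choose = x := Option.some.inj (h2.choose_spec.unique h0)
      have h4 : f (i, a) = .inl (.inr (.inl h2.choose, (⟨i, h⟩, a))) := by
        simp only [f, h, h1, dite_false, if_false]
        exact dif_pos h2
      rw [h4, h3]
    have f_rest : ∀ i a (h : e i ≠ t), ¬ t ≤ e i → f (i, a) = .inr (⟨i, h⟩, a) := by
      intro i a h h0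
      have h1 : ¬ dir t (e i) none := fun h1 => h0 h1.le
      have h2 : ¬ ∃ x, dir t (e i) (some x) := fun ⟨x, h2⟩ => h0 h2.le
      simp only [f, h, h1, dite_false, if_false]
      exact dif_neg h2
    -- classification
    have cls : ∀ i, e i = t ∨ (e i ≠ t ∧ dir t (e i) none) ∨
        (e i ≠ t ∧ ∃ x, dir t (e i) (some x)) ∨ (e i ≠ t ∧ ¬ t ≤ e i) := by
      intro i
      by_cases h : e i = t
      · exact Or.inl h
      · by_cases h' : t ≤ e i
        · obtain ⟨d, hd⟩ := exists_dir h' (fun h'' => h h''.symm)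
          cases d with
          | none => exact Or.inr (Or.inl ⟨h, hd⟩)
          | some x => exact Or.inr (Or.inr (Or.inl ⟨h, x, hd⟩))
        · exact Or.inr (Or.inr (Or.inr ⟨h, h'⟩))
    -- if `e j` is strictly below `e i` and both are different from `t` then they are in the
    -- same class
    have key : ∀ i j a b, e j ≤ e i → e j ≠ t → ∀ hi : e i ≠ t, ∀ hj : e j ≠ t,
        (f (i, a) = .inl (.inl (.inr (⟨i, hi⟩, a))) ∧ f (j, b) = .inl (.inl (.inr (⟨j, hj⟩, b)))) ∨
        (∃ x, f (i, a) = .inl (.inr (.inl x, (⟨i, hi⟩, a))) ∧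
          f (j, b) = .inl (.inr (.inl x, (⟨j, hj⟩, b)))) ∨
        (f (i, a) = .inr (⟨i, hi⟩, a) ∧ f (j, b) = .inr (⟨j, hj⟩, b)) := by
      intro i j a b hji _ hi hj
      rcases cls j with h | ⟨_, h⟩ | ⟨_, x, h⟩ | ⟨_, h⟩
      · exact absurd h hj
      · exact Or.inl ⟨f_none i a hi (h.mono hji), f_none j b hj h⟩
      · exact Or.inr (Or.inl ⟨x, f_some i a x hi (h.mono hji), f_some j b x hj h⟩)
      · refine Or.inr (Or.inr ⟨f_rest i a hi fun h' => ?_, f_rest j b hj h⟩)
        rcases comparable' hji h' with h2 | h2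
        · exact hi0 j (lt_of_le_of_ne h2 hj)
        · exact h h2
    refine CInf.mono (f := f) (g := f) ?_ hG
    constructor
    · rintro ⟨i, a⟩ ⟨j, b⟩ hxy
      change ((e i = e j ∧ A.E a b) ∨ ∃ x, dir (e j) (e i) (some x) ∧ A.E x b) at hxy
      by_cases hj : e j = t
      · rcases hxy with ⟨h1, h2⟩ | ⟨x, h1, h2⟩
        · rw [f_eq i a (h1.trans hj), f_eq j b hj]
          exact h2
        · rw [hj] at h1
          rw [f_some i a x h1.ne.symm h1, f_eq j b hj]
          exact h2
      · have hle : e j ≤ e i := by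
          rcases hxy with ⟨h1, h2⟩ | ⟨x, h1, h2⟩
          · exact h1.ge
          · exact h1.le
        have hi : e i ≠ t := by
          intro hi
          rw [hi] at hle
          exact hi0 j (lt_of_le_of_ne hle hj)
        have hQE : Q.E (⟨i, hi⟩, a) (⟨j, hj⟩, b) := hxy
        rcases key i j a b hle hj hi hj with ⟨h1, h2⟩ | ⟨x, h1, h2⟩ | ⟨h1, h2⟩
        · rw [h1, h2]; exact hQE
        · rw [h1, h2]; exact ⟨rfl, hQE⟩
        · rw [h1, h2]; exact hQE
    · rintro ⟨i, a⟩ ⟨j, b⟩ hxy
      change ((e i = e j ∧ A.R a b) ∨ dir (e i) (e j) none) at hxy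
      by_cases hi : e i = t
      · rcases hxy with ⟨h1, h2⟩ | h1
        · rw [f_eq i a hi, f_eq j b (h1.symm.trans hi)]
          exact h2
        · rw [hi] at h1
          rw [f_none j b h1.ne.symm h1, f_eq i a hi]
          exact trivial
      · have hle : e i ≤ e j := by
          rcases hxy with ⟨h1, h2⟩ | h1
          · exact h1.le
          · exact h1.le
        have hj : e j ≠ t := by
          intro hj
          rw [hj] at hle
          exact hi0 i (lt_of_le_of_ne hle hi)
        have hQE : Q.R (⟨i, hi⟩, a) (⟨j, hj⟩, b) := hxy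
        rcases key j i b a hle hi hj hi with ⟨h1, h2⟩ | ⟨x, h1, h2⟩ | ⟨h1, h2⟩
        · rw [h1, h2]; exact hQE
        · rw [h1, h2]; exact ⟨rfl, hQE⟩
        · rw [h1, h2]; exact hQE

lemma bt_ok [Finite U] {A : Str U} (hA : InA _ A) : Ok CInf (BT A) := by
  intro ι _ e
  exact CInf.mono (f := fun i => (i, (e i).2)) (g := fun i => (i, (e i).2))
    ⟨fun _ _ h => h, fun _ _ h => h⟩ (bt_aux hA _ ι le_rfl fun i => (e i).1)

end BT

end PosSOP
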