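import Pool.Agent.Helper68.LemmaS
import Pool.Agent.Helper80.BP.VE
import Pool.Agent.Helper38.Thick.Frame

/-!
# The super user lemma in a plane of a geometric lattice
-/

set_option autoImplicit false
set_option linter.unusedSectionVars false

namespace Pool.Agent.Helper68.LemmaS

open Pool.Agent.Helper28.BPack Pool.Agent.Helper61.Motz Pool.Agent.Helper38.Thick
open Pool.Agent.Helper80.BP Pool.Agent.Helper80.BP.E
open Pool.Agent.Helper38.SC (pen_spec)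

variable {L : Type} [Lattice L] [BoundedOrder L] [Finite L] [IsUpperModularLattice L]
variable [DecidableEq L] [DecidableRel (α := L) (· ≤ ·)]

/-- **The super user lemma in a plane `H`.**  `S` is a nonempty set of points of `H` off the line
`y₀ ⊔ c`.  Then some `z ∈ S` has `1 ≤ ∑ 1 / |g ∩ S|` over the lines `g` of `H` through `z` which
do not contain `c`. -/
theorem super_geo {A : Finset L} (hA : ∀ a ∈ A, IsAtom a) (hcore : Core A) {H c : L}
    (hH : rk H = 3) (hc : c ∈ A) (hcH : c ≤ H) (S : Finset L) (hS : S.Nonempty)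
    (hSA : ∀ z ∈ S, z ∈ A ∧ z ≤ H) {y₀ : L} (hy : y₀ ∈ A) (hyH : y₀ ≤ H) (hyc : y₀ ≠ c)
    (hyS : ∀ z ∈ S, ¬ z ≤ y₀ ⊔ c) :
    ∃ z ∈ S, (1 : ℚ) ≤ ∑ g ∈ pen A z (z ⊔ c) H, 1 / ((S.filter (· ≤ g)).card : ℚ) := by
  classical
  have hcA := hA c hc
  set V := A.filter (fun z => z ≤ H ∧ z ≠ c) with hV
  have mV : ∀ z, z ∈ V ↔ z ∈ A ∧ z ≤ H ∧ z ≠ c := by
    intro z
    rw [hV, Finset.mem_filter]
  set G := V.biUnion (fun x => pen A x (x ⊔ c) H) with hG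
  have hspec : ∀ x ∈ V, ∀ g ∈ pen A x (x ⊔ c) H,
      rk g = 2 ∧ x ≤ g ∧ g ≤ H ∧ ¬ c ≤ g ∧ g ⊔ c = H := by
    intro x hx g hg
    obtain ⟨h1, h2, h3⟩ := (mV x).mp hx
    exact pen_spec hA h1 hc h3 hH (sup_le h2 hcH) hg
  have hGs : ∀ g ∈ G, rk g = 2 ∧ g ≤ H ∧ ¬ c ≤ g := by
    intro g hg
    obtain ⟨x, hx, h1⟩ := Finset.mem_biUnion.mp hg
    obtain ⟨h2, h3, h4, h5, h6⟩ := hspec x hx g h1
    exact ⟨h2, h4, h5⟩
  have hSV : S ⊆ V := by
    intro z hz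
    refine (mV z).mpr ⟨(hSA z hz).1, (hSA z hz).2, ?_⟩
    rintro rfl
    exact hyS _ hz le_sup_right
  have hline : ∀ x ∈ V, ∀ y ∈ V, x ≠ y → ∀ g ∈ G, x ≤ g → y ≤ g → x ⊔ y = g := by
    intro x hx y hy' hxy g hg h1 h2
    exact line_of (hA x ((mV x).mp hx).1) (hA y ((mV y).mp hy').1) hxy h1 h2 (hGs g hg).1
  have hrowV : ∀ g ∈ G, ∀ x ∈ V, ∀ y ∈ V, x ≠ y → x ≤ g → y ≤ g → ¬ y ≤ x ⊔ c := by
    intro g hg x hx y hy' hxy h1 h2 h3
    have hxA := hA x ((mV x).mp hx).1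
    have hyA := hA y ((mV y).mp hy').1
    have h4 := hline x hx y hy' hxy g hg h1 h2
    have h5 : x ⊔ y = x ⊔ c := eq_of_le_of_rk (sup_le le_sup_left h3) (by
      rw [rk_line hxA hcA ((mV x).mp hx).2.2, rk_line hxA hyA hxy])
    exact (hGs g hg).2.2 (by rw [← h4, h5]; exact le_sup_right)
  have hpen : ∀ z ∈ V, G.filter (z ≤ ·) = pen A z (z ⊔ c) H := by
    intro z hz
    ext g
    rw [Finset.mem_filter]
    constructor
    · rintro ⟨hg, hzg⟩
      obtain ⟨x, hx, h1⟩ := Finset.mem_biUnion.mp hg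
      by_cases hxz : x = z
      · subst hxz
        exact h1
      · have hxg := (hspec x hx g h1).2.1
        refine mem_pen.mpr ⟨x, ((mV x).mp hx).1, ((mV x).mp hx).2.1, ?_, ?_⟩
        · exact hrowV g hg z hz x hx (Ne.symm hxz) hzg hxg
        · exact hline z hz x hx (Ne.symm hxz) g hg hzg hxg
    · intro hg
      exact ⟨Finset.mem_biUnion.mpr ⟨z, hz, hg⟩, (hspec z hz g hg).2.1⟩
  obtain ⟨z, hz, hsum⟩ := super V S G (fun x g => x ≤ g) (fun x => x ⊔ c) (fun x y => x ⊔ y)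
    hSV hS
    (by
      intro x hx y hy' hxy
      obtain ⟨h1, h2, h3⟩ := (mV x).mp hx
      obtain ⟨k1, k2, k3⟩ := (mV y).mp hy'
      have h4 : ¬ y ≤ x ⊔ c := by
        intro h
        apply hxy
        symm
        exact eq_of_le_of_rk (sup_le h le_sup_right) (by
          rw [rk_line (hA x h1) hcA h3, rk_line (hA y k1) hcA k3])
      refine ⟨Finset.mem_biUnion.mpr ⟨x, hx, mem_pen.mpr ⟨y, k1, k2, h4, rfl⟩⟩, le_sup_left,
        le_sup_right⟩)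
    (by
      intro g hg g' hg' x hx y hy' hxy h1 h2 h3 h4
      rw [← hline x hx y hy' hxy g hg h1 h2, ← hline x hx y hy' hxy g' hg' h3 h4])
    (by
      intro g hg x hx y hy' hxy h1 h2 h3
      apply hrowV g hg x hx y hy' hxy h1 h2
      have h3' : x ⊔ c = y ⊔ c := h3
      rw [h3']
      exact le_sup_left)
    (by
      intro g hg
      obtain ⟨x, hx, h1⟩ := Finset.mem_biUnion.mp hg
      obtain ⟨h2, h3, h4⟩ := (mV x).mp hx
      obtain ⟨y, k1, k2, k3, rfl⟩ := mem_pen.mp h1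
      have hxy : x ≠ y := fun e => k3 (e ▸ le_sup_left)
      obtain ⟨z, hz1, hz2, hz3, hz4⟩ := hcore c hc x h2 y k1 hxy (hGs _ hg).2.2
      exact ⟨z, (mV z).mpr ⟨hz1, hz2.trans (sup_le (sup_le hcH h3) k2), hz3⟩, hz4⟩)
    y₀ ((mV y₀).mpr ⟨hy, hyH, hyc⟩)
    (by
      intro z hz h
      have h' : z ⊔ c = y₀ ⊔ c := h
      exact hyS z hz (h' ▸ le_sup_left))
  refine ⟨z, hz, ?_⟩
  rw [← hpen z (hSV hz)]
  exact hsum

/-- The value of the user `z` on the row `z ⊔ c` in `H`, without the help of any fellow. -/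
theorem value_alone {A N : Finset L} {own : L → Finset L} {cls : L → ℕ} {H c z : L} {a : ℕ}
    (hA : ∀ a ∈ A, IsAtom a) (hH : rk H = 3) (hc : c ∈ A) (hcH : c ≤ H)
    (hzN : z ∈ N) (hzA : z ∈ A) (hzH : z ≤ H) (hzc : z ≠ c) (hcz : c ∈ own z)
    (hmin : ∀ y ∈ N, y ≤ H → a ≤ cls y) (hza : cls z = a)
    (hsum : (1 : ℚ) ≤ ∑ g ∈ pen A z (z ⊔ c) H,
      1 / (((N.filter (fun y => y ≤ H ∧ cls y = a)).filter (· ≤ g)).card : ℚ)) :
    (1 : ℚ) / (own z).card ≤ ∑ g ∈ pen A z (z ⊔ c) H, sig N own cls c g := by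
  have h1 : (1 : ℚ) / (own z).card * 1 ≤ (1 : ℚ) / (own z).card *
      ∑ g ∈ pen A z (z ⊔ c) H,
        1 / (((N.filter (fun y => y ≤ H ∧ cls y = a)).filter (· ≤ g)).card : ℚ) :=
    mul_le_mul_of_nonneg_left hsum (by positivity)
  rw [mul_one, Finset.mul_sum] at h1
  refine h1.trans (Finset.sum_le_sum ?_)
  intro g hg
  obtain ⟨h2, h3, h4, h5, h6⟩ := pen_spec hA hzA hc hzc hH (sup_le hzH hcH) hg
  have hTT : TT N cls g = (N.filter (fun y => y ≤ H ∧ cls y = a)).filter (· ≤ g) := by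
    ext v
    rw [mem_TT, Finset.mem_filter, Finset.mem_filter]
    constructor
    · rintro ⟨k1, k2, k3⟩
      refine ⟨⟨k1, k2.trans h4, ?_⟩, k2⟩
      have k4 := k3 z hzN h3
      have k5 := hmin v k1 (k2.trans h4)
      omega
    · rintro ⟨⟨k1, k2, k3⟩, k4⟩
      refine ⟨k1, k4, fun y hy hyg => ?_⟩
      rw [k3]
      exact hmin y hy (hyg.trans h4)
  have hzT : z ∈ TT N cls g := by
    rw [hTT]
    exact Finset.mem_filter.mpr ⟨Finset.mem_filter.mpr ⟨hzN, hzH, hza⟩, h3⟩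
  unfold sig
  rw [← hTT, mul_one_div]
  apply div_le_div_of_nonneg_right _ (by positivity)
  have h7 : (if c ∈ own z then (1 : ℚ) / (own z).card else 0) ≤
      ∑ v ∈ TT N cls g, if c ∈ own v then (1 : ℚ) / (own v).card else 0 :=
    Finset.single_le_sum (f := fun v => if c ∈ own v then (1 : ℚ) / (own v).card else 0)
      (fun v _ => by split_ifs <;> positivity) hzT
  rw [if_pos hcz] at h7
  exact h7

/-- In every plane `H` with a point `y₀ ≠ c` such that no lowest class participant of `H` is on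
the line `y₀ ⊔ c`, some lowest class participant is a super user: placed on its `c`-row in `H` it
has the value `1 / load` without any fellow. -/
theorem super_user {A N : Finset L} {cls : L → ℕ} {H c : L} {a : ℕ}
    (hA : ∀ a ∈ A, IsAtom a) (hcore : Core A) (hH : rk H = 3) (hc : c ∈ A) (hcH : c ≤ H)
    (hNA : ∀ y ∈ N, y ∈ A) (hmin : ∀ y ∈ N, y ≤ H → a ≤ cls y)
    (hex : ∃ x ∈ N, x ≤ H ∧ cls x = a) {y₀ : L} (hy : y₀ ∈ A) (hyH : y₀ ≤ H) (hyc : y₀ ≠ c)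
    (hyS : ∀ z ∈ N, z ≤ H → cls z = a → ¬ z ≤ y₀ ⊔ c) :
    ∃ z ∈ N, z ≤ H ∧ cls z = a ∧ ∀ own : L → Finset L, c ∈ own z →
      (1 : ℚ) / (own z).card ≤ ∑ g ∈ pen A z (z ⊔ c) H, sig N own cls c g := by
  set S := N.filter (fun y => y ≤ H ∧ cls y = a) with hS
  have mS : ∀ z, z ∈ S ↔ z ∈ N ∧ z ≤ H ∧ cls z = a := by
    intro z
    rw [hS, Finset.mem_filter]
  obtain ⟨x, hx1, hx2, hx3⟩ := hex
  obtain ⟨z, hz, hsum⟩ := super_geo hA hcore hH hc hcH S ⟨x, (mS x).mpr ⟨hx1, hx2, hx3⟩⟩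
    (fun z hz => ⟨hNA z ((mS z).mp hz).1, ((mS z).mp hz).2.1⟩) hy hyH hyc
    (fun z hz => hyS z ((mS z).mp hz).1 ((mS z).mp hz).2.1 ((mS z).mp hz).2.2)
  obtain ⟨h1, h2, h3⟩ := (mS z).mp hz
  have hzc : z ≠ c := by
    rintro rfl
    exact hyS z h1 h2 h3 le_sup_right
  exact ⟨z, h1, h2, h3, fun own hcz =>
    value_alone hA hH hc hcH h1 (hNA z h1) h2 hzc hcz hmin h3 hsum⟩

end Pool.Agent.Helper68.LemmaS
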